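import Pool.Agent.H99.GEN.Gr
import Pool.Agent.H63.STAT.CloF
import Pool.Agent.H45.EXA.Stm

/-!
# Closed labels from chains; gradients and velocities for classes

`clo1`: a chain of two-sided labels whose radius is (at least) the window gives exact closed labels
(`LbP`) of every coordinate of the chain over the coordinates before it, for arbitrary sides.
`gr_cls`: the class form of `lb_of_p`.
-/

set_option autoImplicit false

namespace Pool.GRD

open Finset Real MvPolynomial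
open Pool.Agent.H49.Ent Pool.Agent.H32.Dense Pool.STK Pool.KA Pool.KSAT Pool.K2S Pool.PB Pool.S6C
open Pool.GEN
open Pool.FLF (Fam.sub)
open Pool.UNJ (ceI Tub)
open Pool.STAT (PN TriN Bx)
open Pool.STAT.CLO

variable {m J : ℕ}

/-! ### Back to the coordinates of the family -/

/-- The variables. -/
noncomputable def bk (c : ℕ → Fin m) (i : ℕ) : MvPolynomial (Option (Fin m)) ℝ :=
  if i = 0 then MvPolynomial.X none else MvPolynomial.X (some (c (i - 1)))

/-- The translation of a polynomial. -/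
noncomputable def tb (c : ℕ → Fin m) (P : PN) : MvPolynomial (Option (Fin m)) ℝ :=
  bind₁ (bk c) P

/-- The point in the coordinates of the chain. -/
def pb (c : ℕ → Fin m) (b : Option (Fin m) → ℝ) (i : ℕ) : ℝ :=
  if i = 0 then b none else b (some (c (i - 1)))

theorem eval_tb (c : ℕ → Fin m) (P : PN) (b : Option (Fin m) → ℝ) :
    eval b (tb c P) = eval (pb c b) P := by
  unfold tb
  have h1 : eval b (bind₁ (bk c) P) = eval (fun i => eval b (bk c i)) P :=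
    eval₂Hom_bind₁ (RingHom.id ℝ) b (bk c) P
  rw [h1]
  congr 2
  funext i
  unfold bk pb
  split_ifs <;> rw [eval_X]

theorem tb_deg (c : ℕ → Fin m) (P : PN) : (tb c P).totalDegree ≤ P.totalDegree := by
  unfold tb
  rw [← aeval_eq_bind₁, aeval_def, eval₂_eq]
  refine totalDegree_finsetSum_le fun d hd => ?_
  refine (totalDegree_mul _ _).trans ?_
  have h0 : (algebraMap ℝ (MvPolynomial (Option (Fin m)) ℝ) (coeff d P)).totalDegree = 0 := by
    rw [algebraMap_eq, totalDegree_C]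
  rw [h0, zero_add]
  refine (totalDegree_finsetProd _ _).trans ?_
  have h1 : ∀ i ∈ d.support, ((bk c i) ^ d i).totalDegree ≤ d i := by
    intro i _
    refine (totalDegree_pow _ _).trans ?_
    have h2 : (bk c i).totalDegree ≤ 1 := by
      unfold bk
      split_ifs <;> exact (totalDegree_X _).le
    calc d i * _ ≤ d i * 1 := Nat.mul_le_mul_left _ h2
      _ = d i := Nat.mul_one _
  refine (Finset.sum_le_sum h1).trans ?_
  exact le_totalDegree hd

theorem tb_dep (c : ℕ → Fin m) {P : PN} {i : ℕ} (hP : P.vars ⊆ range (i + 1))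
    {b b' : Option (Fin m) → ℝ} (h0 : b none = b' none)
    (h : ∀ k ∈ (range i).image c, b (some k) = b' (some k)) :
    eval b (tb c P) = eval b' (tb c P) := by
  rw [eval_tb, eval_tb]
  refine Pool.SYS35.eval_congr hP fun l hl => ?_
  unfold pb
  split_ifs with h1
  · exact h0
  · exact h _ (mem_image.2 ⟨l - 1, mem_range.2 (by omega), rfl⟩)

/-- **Exact closed labels from one chain**, at a radius which is at least the window. -/
theorem clo1 (n K : ℕ) : ∃ c' : ℕ, 1 ≤ c' ∧ ∀ (m J : ℕ) (F : Fam m J) (c : ℕ → Fin m)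
    (Kv : ℕ → ℕ) (a w₀ e : ℕ) (g : ℕ → ℕ) (A : F.Ω → Prop)
    (G : PtT F → ℕ → MvPolynomial (Option (Fin m)) ℝ)
    (H : LnT F → ℕ → MvPolynomial (Option (Fin m)) ℝ), w₀ ≤ a → a ≤ J → Inj c n →
    (∀ i < n, Kv i ≤ K) → ChOK F c n Kv a w₀ e g A G H →
    ∃ (z : PtT F → LV) (z' : LnT F → LV) (P : LV → ℕ → PN) (B : F.Ω → Prop), Sub B A ∧
      Pe F.p A ≤ c' * Pe F.p B ∧ (∀ v, TriN (P v)) ∧ (∀ v j, (P v j).totalDegree ≤ c') ∧
      (∀ ω, B ω → z (ptr F J ω) = z' (slam F a ω)) ∧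
      (∀ ω, B ω → Nr c' 1 (gg a g) (P (z (ptr F J ω))) (Gs c n a G (ptr F J ω)) (n + 1)) ∧
      ∀ i < n, c' ≤ g i → LbP F ((range i).image c) (c i) c' J a (g i - c') B z z'
        (fun v => tb c (P v (i + 1))) := by
  obtain ⟨s₀, hraw⟩ := raw_of n K
  obtain ⟨c₁, hc₁, hcore⟩ := core n K (n + 1) le_rfl
  obtain ⟨c₂, hc₂⟩ := pow_unbounded_of_one_lt (1 + ((c₁ : ℝ) * 2 ^ s₀ * 1) ^ c₁)
    (one_lt_two (α := ℝ))
  obtain ⟨c', hc'⟩ : ∃ c', c' = c₁ * 2 ^ s₀ + c₁ + c₂ := ⟨_, rfl⟩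
  have hc10 : (1 : ℝ) ≤ c₁ := by exact_mod_cast hc₁
  refine ⟨c', by omega, ?_⟩
  intro m J F c Kv a w₀ e g A G H hw ha hc hK h
  obtain ⟨z, z', P, B, hBA, hPe, hcld⟩ := hcore F.Ω (PtT F) (LnT F) F.p (2 ^ s₀) A (ptr F J)
    (slam F a) (tp a) (tl a) (gg a g) (Gs c n a G) (fun s => Hs c n H (crs w₀ a s)) F.isLaw
    (one_le_pow₀ (by norm_num)) (hraw m J F c Kv a w₀ e g A G H hw ha hc hK h)
  have hnr : ∀ ω, B ω → Nr c' 1 (gg a g) (P (z (ptr F J ω))) (Gs c n a G (ptr F J ω)) (n + 1) := by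
    intro ω hω
    obtain ⟨h1, h2⟩ := hcld.near ω hω
    refine ⟨h1, fun j hj1 hj r hr b hb => (h2 j hj1 hj r hr b hb).trans ?_⟩
    refine div_le_div_of_nonneg_right ?_ (by positivity)
    have e1 : (c₁ : ℝ) * 2 ^ s₀ * r ≤ c' * 1 * r := by
      refine mul_le_mul_of_nonneg_right ?_ (by linarith)
      rw [mul_one, hc']
      push_cast
      have : (0 : ℝ) ≤ c₂ := Nat.cast_nonneg _
      linarith
    have e2 : (1 : ℝ) ≤ c' * 1 * r := by
      have e3 : (1 : ℝ) ≤ c' := by exact_mod_cast (by omega : 1 ≤ c')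
      nlinarith
    refine (pow_le_pow_left₀ (by positivity) e1 c₁).trans (pow_le_pow_right₀ e2 ?_)
    omega
  refine ⟨z, z', P, B, hBA, hPe.trans ?_, hcld.tri, fun v j => (hcld.deg v j).trans (by omega),
    hcld.cls, hnr, fun i hi hgi => ⟨fun v => (tb_deg c _).trans ((hcld.deg v _).trans (by omega)),
      fun v b b' h0 hb => tb_dep c (hcld.tri v (i + 1)) h0 hb, hcld.cls, fun ω hω => ?_⟩⟩
  · refine mul_le_mul_of_nonneg_right ?_ (Pe_nonneg F.isLaw _)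
    exact_mod_cast (by omega : c₁ ≤ c')
  · show |F.x ω (c i) - eval (bt F ω) (tb c (P (z' (slam F a ω)) (i + 1)))| ≤ _
    rw [← hcld.cls ω hω, eval_tb]
    obtain ⟨X, hX⟩ : ∃ X : ℕ → ℝ, X = Pool.STAT.cx F (fun i => c (i - 1)) ω := ⟨_, rfl⟩
    have hXp : pb c (bt F ω) = X := by
      funext l
      rw [hX]
      unfold pb
      split_ifs with h1
      · rw [h1]
        exact (if_pos rfl).symm
      · exact (if_neg h1).symm
    rw [hXp]
    have hbox : ∀ l ≤ n, Bxr 1 (gg a g) (Gs c n a G (ptr F J ω)) l X := by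
      intro l hl j hj
      rcases Nat.eq_zero_or_pos j with h0 | h0
      · subst h0
        have h1 : X 0 = F.t ω := by
          rw [hX]
          exact if_pos rfl
        have h2 : gg a g 0 = a := if_pos rfl
        unfold Gs
        rw [h1, h2, sy_zero, eval_C, tp_eq]
        exact t_cell F ha ω
      · rw [hX]
        exact pos_of hc h (hBA ω hω) h0 (by omega)
    obtain ⟨-, h2⟩ := hcld.near ω hω
    have h3 := h2 (i + 1) (by omega) (by omega) 1 le_rfl X (hbox (i + 1) (by omega))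
    have h4 := pos_of hc h (hBA ω hω) (i := i + 1) (by omega) (by omega)
    rw [← hX] at h4
    have h5 : X (i + 1) = F.x ω (c i) := by
      rw [hX]
      exact if_neg (by omega)
    have h6 : gg a g (i + 1) = g i := if_neg (by omega)
    rw [h6] at h3 h4
    rw [h5] at h4
    have h7 : |F.x ω (c i) - eval X (P (z (ptr F J ω)) (i + 1))| ≤
        (1 + ((c₁ : ℝ) * 2 ^ s₀ * 1) ^ c₁) / 2 ^ g i := by
      rw [add_div]
      rw [abs_le] at h3 h4 ⊢
      constructor <;> linarith [h3.1, h3.2, h4.1, h4.2]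
    refine h7.trans ?_
    rw [div_le_div_iff₀ (by positivity) (by positivity), one_mul]
    have h8 : (2 : ℝ) ^ g i = 2 ^ (g i - c') * 2 ^ c' := by
      rw [← pow_add, Nat.sub_add_cancel hgi]
    rw [h8, mul_comm]
    refine mul_le_mul_of_nonneg_left ?_ (by positivity)
    exact hc₂.le.trans (pow_le_pow_right₀ (by norm_num) (by omega))

/-! ### The class form -/

/-- **Gradients and velocities in a class.** `full`: the coordinates in `I` are full below the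
cells of side `2 ^ (-u J)`, given every closed function at the window `w`, up to every error. -/
theorem gr_cls {S : PCl m} {C₀ : ℝ} (hC₀ : 0 ≤ C₀)
    (hpos : ∀ (τ : ℝ) (J : ℕ) (F : Fam m J) (A : F.Ω → Prop), S.St τ J F A → 0 < Pe F.p A)
    (htm : ∀ (τ : ℝ) (J : ℕ) (F : Fam m J) (A : F.Ω → Prop) (hA : 0 < Pe F.p A), 0 ≤ τ →
      S.St τ J F A → (Fam.sub F A hA).Tm (C₀ * τ * J))
    (I : Finset (Fin m)) (k : Fin m) {w u : ℝ} (hwu : w ≤ u) (hu0 : 0 ≤ u) (hu : u < 1)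
    (full : ∀ ρ : ℝ, 0 < ρ → Bas S (fun J F A => ∀ (V : Type) (z : PtT F → V) (z' : LnT F → V),
      (∀ ω, A ω → z (ptr F J ω) = z' (slam F ⌊w * J⌋₊ ω)) →
      I.card * (((J - ⌊u * J⌋₊ : ℕ) : ℝ) * Real.log 2) - ρ * J ≤
        CH (Pool.Agent.H49.Ent.cond F.p A True) (fun ω => ceI I (fun _ => J) (F.x ω))
          (fun ω => (ceI I (fun _ => ⌊u * J⌋₊) (F.x ω), z' (slam F ⌊w * J⌋₊ ω), F.W ω))))
    (K : ℕ) {h : ℝ} (hh : 0 < h) :
    Bas S (fun J F A => ∀ (P₁ P' e' e₂ ρ₂ P₂ : ℕ) (V₁ V₂ : Type)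
      (z₁ : PtT F → V₁) (z₁' : LnT F → V₁) (G₁ : V₁ → MvPolynomial (Option (Fin m)) ℝ)
      (z₂ : PtT F → V₂) (z₂' : LnT F → V₂) (G₂ : V₂ → MvPolynomial (Option (Fin m)) ℝ),
      LbP F I k K J ⌊w * J⌋₊ P₁ A z₁ z₁' G₁ → LbOK F I k K e₂ J ⌊w * J⌋₊ ρ₂ P₂ A z₂ z₂' G₂ →
      ρ₂ ≤ ⌊u * J⌋₊ → (P' : ℝ) + h * J ≤ P₁ → u * J + h * J ≤ P₁ + e' →
      u * J + h * J ≤ P₂ + e' → e₂ + h * J ≤ e' →
      ∃ B : F.Ω → Prop, Sub B A ∧ Pe F.p A / 4 ≤ Pe F.p B ∧
        LbOK F I k K e' J ⌊w * J⌋₊ ⌊u * J⌋₊ P' B z₁ z₁' G₁) := by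
  classical
  obtain ⟨C, hC, hlb⟩ := lb_of_p m K
  have hl2 : 0 < Real.log 2 := Real.log_pos one_lt_two
  obtain ⟨δ, hδ⟩ : ∃ δ : ℝ, δ = min (h * Real.log 2 / (4 * C)) ((1 - u) * Real.log 2 / C) :=
    ⟨_, rfl⟩
  have hC0 : 0 < C := by linarith
  have hδ0 : 0 < δ := by
    rw [hδ]
    refine lt_min (by positivity) (div_pos (mul_pos (by linarith) hl2) hC0)
  have hδ1 : C * δ ≤ h / 4 * Real.log 2 := by
    have e1 : δ ≤ h * Real.log 2 / (4 * C) := by
      rw [hδ]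
      exact min_le_left _ _
    have e2 : C * (h * Real.log 2 / (4 * C)) = h / 4 * Real.log 2 := by
      field_simp
    rw [← e2]
    exact mul_le_mul_of_nonneg_left e1 hC0.le
  have hδ2 : C * δ ≤ (1 - u) * Real.log 2 := by
    have e1 : δ ≤ (1 - u) * Real.log 2 / C := by
      rw [hδ]
      exact min_le_right _ _
    have e2 : C * ((1 - u) * Real.log 2 / C) = (1 - u) * Real.log 2 := by
      field_simp
    rw [← e2]
    exact mul_le_mul_of_nonneg_left e1 hC0.le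
  obtain ⟨τ₁, hτ₁, J₁, hF⟩ := full (δ / 3) (by linarith)
  obtain ⟨τ, hτ⟩ : ∃ τ : ℝ, τ = min τ₁ (δ / (3 * (C₀ + 1))) := ⟨_, rfl⟩
  have hτ0 : 0 < τ := by
    rw [hτ]
    exact lt_min hτ₁ (by positivity)
  have hτ2 : C₀ * τ ≤ δ / 3 := by
    have e1 : τ ≤ δ / (3 * (C₀ + 1)) := by
      rw [hτ]
      exact min_le_right _ _
    have e2 : (C₀ + 1) * (δ / (3 * (C₀ + 1))) = δ / 3 := by
      field_simp
    have e3 : (C₀ + 1) * τ ≤ (C₀ + 1) * (δ / (3 * (C₀ + 1))) :=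
      mul_le_mul_of_nonneg_left e1 (by linarith)
    rw [e2] at e3
    linarith
  obtain ⟨J₂, hJ₂⟩ := exists_nat_ge (3 / δ + 4 / h)
  refine ⟨τ, hτ0, max J₁ J₂, ?_⟩
  intro J hJ F A hA P₁ P' e' e₂ ρ₂ P₂ V₁ V₂ z₁ z₁' G₁ z₂ z₂' G₂ h₁ h₂ hρ hP' hu1 hu2 he2
  have hJ1 : J₁ ≤ J := (le_max_left _ _).trans hJ
  have hJ2 : (J₂ : ℝ) ≤ J := by exact_mod_cast (le_max_right _ _).trans hJ
  have hJ0 : (0 : ℝ) ≤ J := Nat.cast_nonneg J
  have f1 : 1 ≤ δ / 3 * J := by
    have e1 : 3 / δ ≤ J := by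
      have : 0 < 4 / h := by positivity
      linarith
    rw [div_le_iff₀ hδ0] at e1
    linarith
  have f2 : 4 ≤ h * J := by
    have e1 : 4 / h ≤ J := by
      have : 0 < 3 / δ := by positivity
      linarith
    rw [div_le_iff₀ hh] at e1
    linarith
  have hpA := hpos τ J F A hA
  have hTm := htm τ J F A hpA hτ0.le hA
  obtain ⟨y, hy⟩ : ∃ y : ℝ, y = C * (δ / 3 * J + C₀ * τ * J + 1) := ⟨_, rfl⟩
  have hy0 : 0 ≤ y := by
    rw [hy]
    positivity
  have hy1 : y ≤ C * δ * J := by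
    rw [hy]
    have e1 : C₀ * τ * J ≤ δ / 3 * J := mul_le_mul_of_nonneg_right hτ2 hJ0
    have e2 : δ / 3 * J + C₀ * τ * J + 1 ≤ δ * J := by linarith
    calc C * (δ / 3 * J + C₀ * τ * J + 1) ≤ C * (δ * J) := mul_le_mul_of_nonneg_left e2 hC0.le
      _ = C * δ * J := by ring
  obtain ⟨c, hc⟩ : ∃ c : ℕ, c = ⌈y / Real.log 2⌉₊ := ⟨_, rfl⟩
  have hc1 : Real.exp y ≤ 2 ^ c := by
    have e1 : y / Real.log 2 ≤ c := by
      rw [hc]
      exact Nat.le_ceil _
    rw [div_le_iff₀ hl2] at e1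
    have e2 : (2 : ℝ) ^ c = Real.exp (c * Real.log 2) := by
      rw [mul_comm, Real.exp_mul, Real.exp_log (by norm_num), Real.rpow_natCast]
    rw [e2]
    exact Real.exp_le_exp.2 e1
  have hc2 : (c : ℝ) ≤ h / 4 * J + 1 := by
    have e1 : (c : ℝ) < y / Real.log 2 + 1 := by
      rw [hc]
      exact Nat.ceil_lt_add_one (div_nonneg hy0 hl2.le)
    have e2 : y / Real.log 2 ≤ h / 4 * J := by
      rw [div_le_iff₀ hl2]
      calc y ≤ C * δ * J := hy1
        _ ≤ h / 4 * Real.log 2 * J := mul_le_mul_of_nonneg_right hδ1 hJ0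
        _ = h / 4 * J * Real.log 2 := by ring
    linarith
  have huJ : ⌊u * J⌋₊ ≤ J := by
    refine Nat.floor_le_of_le ?_
    calc u * J ≤ 1 * J := mul_le_mul_of_nonneg_right hu.le hJ0
      _ = J := one_mul _
  have huf : ((⌊u * J⌋₊ : ℕ) : ℝ) ≤ u * J := Nat.floor_le (by positivity)
  refine hlb J F A hpA I k ⌊w * J⌋₊ ⌊u * J⌋₊ J P₁ P' e' e₂ J ρ₂ P₂ c V₁ V₂ z₁ z₁' G₁ z₂ z₂' G₂
    (δ / 3 * J) (C₀ * τ * J) (Nat.floor_le_floor (mul_le_mul_of_nonneg_right hwu hJ0)) huJ hρ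
    (by positivity) (by positivity) hTm h₁ h₂ ?_ ?_ ?_ ?_ ?_ ?_ ?_
  · have h3 := hF J hJ1 F A (S.mono (by rw [hτ]; exact min_le_left _ _) hA) (V₁ × V₂)
      (fun x => (z₁ x, z₂ x)) (fun x => (z₁' x, z₂' x)) (fun ω hω => by
        rw [h₁.cls ω hω, h₂.cls ω hω])
    exact h3
  · rw [← hy]
    refine hy1.trans ?_
    rw [Nat.cast_sub huJ]
    calc C * δ * J ≤ (1 - u) * Real.log 2 * J := mul_le_mul_of_nonneg_right hδ2 hJ0
      _ = (J - u * J) * Real.log 2 := by ring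
      _ ≤ ((J : ℝ) - (⌊u * J⌋₊ : ℕ)) * Real.log 2 :=
        mul_le_mul_of_nonneg_right (by linarith) hl2.le
  · rw [← hy]
    exact hc1
  · have : ((P' + c : ℕ) : ℝ) ≤ P₁ := by
      push_cast
      linarith
    exact_mod_cast this
  · have : ((⌊u * J⌋₊ + c + 2 : ℕ) : ℝ) ≤ ((P₁ + e' : ℕ) : ℝ) := by
      push_cast
      linarith
    exact_mod_cast this
  · have : ((⌊u * J⌋₊ + c + 2 : ℕ) : ℝ) ≤ ((P₂ + e' : ℕ) : ℝ) := by
      push_cast
      linarith
    exact_mod_cast this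
  · have : ((e₂ + 1 : ℕ) : ℝ) ≤ (e' : ℝ) := by
      push_cast
      linarith
    exact_mod_cast this

end Pool.GRD
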