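import Pool.Agent.H95.GN.UniL
import Pool.Agent.H71.GEN.Vel
import Pool.Agent.H40.BFL.MKO

/-!
# Gradients and velocities of closed labels

`LbP`: closed labels without velocities and gradients.
`vel_one`: on one half of the event the lines are tangent.
`gr_fam`: the label is compared with another label `Γ` of the same coordinate: if the coordinates
are full in the cells of side `2 ^ (-u)`, the gradient (with the time) is at most
`2 ^ (u - P₁) + 2 ^ (u - P₂)` plus the gradient of `Γ`, on the ball of radius `2 ^ (-u)`.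
`lb_of_p`: closed labels from labels without velocities and gradients.
-/

set_option autoImplicit false

namespace Pool.GRD

open Finset Real MvPolynomial
open Pool.Agent.H49.Ent Pool.Agent.H32.Dense Pool.STK Pool.KA Pool.KSAT Pool.K2S Pool.PB Pool.GEN
open Pool.FLF (Fam.sub)
open Pool.UNJ (ceI Tub)
open Pool.PB.Trl (rt rt_mem t_rt)
open Pool.BFL (Pb)

variable {m J : ℕ}

/-! ### Labels without velocities and gradients -/

/-- **Closed labels without velocities and gradients.** -/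
structure LbP (F : Fam m J) (I : Finset (Fin m)) (k : Fin m) (K r w P : ℕ) (A : F.Ω → Prop)
    {V : Type} (z : PtT F → V) (z' : LnT F → V) (G : V → MvPolynomial (Option (Fin m)) ℝ) :
    Prop where
  deg : ∀ v, (G v).totalDegree ≤ K
  dep : ∀ v, ∀ b b' : Option (Fin m) → ℝ, b none = b' none →
    (∀ i ∈ I, b (some i) = b' (some i)) → eval b (G v) = eval b' (G v)
  cls : ∀ ω, A ω → z (ptr F r ω) = z' (slam F w ω)
  pos : ∀ ω, A ω → |F.x ω k - eval (bt F ω) (G (z' (slam F w ω)))| ≤ 1 / 2 ^ P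

theorem LbP.of {F : Fam m J} {I : Finset (Fin m)} {k : Fin m} {K e r w ρ P : ℕ}
    {A : F.Ω → Prop} {V : Type} {z : PtT F → V} {z' : LnT F → V}
    {G : V → MvPolynomial (Option (Fin m)) ℝ} (h : LbOK F I k K e r w ρ P A z z' G) :
    LbP F I k K r w P A z z' G := ⟨h.deg, h.dep, h.cls, h.pos⟩

theorem LbP.sub {F : Fam m J} {I : Finset (Fin m)} {k : Fin m} {K r w P : ℕ}
    {A B : F.Ω → Prop} {V : Type} {z : PtT F → V} {z' : LnT F → V}
    {G : V → MvPolynomial (Option (Fin m)) ℝ} (h : LbP F I k K r w P A z z' G)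
    (hB : Sub B A) : LbP F I k K r w P B z z' G :=
  ⟨h.deg, h.dep, fun ω hω => h.cls ω (hB ω hω), fun ω hω => h.pos ω (hB ω hω)⟩

theorem LbP.mono {F : Fam m J} {I I' : Finset (Fin m)} {k : Fin m} {K K' r w P P' : ℕ}
    {A : F.Ω → Prop} {V : Type} {z : PtT F → V} {z' : LnT F → V}
    {G : V → MvPolynomial (Option (Fin m)) ℝ} (h : LbP F I k K r w P A z z' G)
    (hI : I ⊆ I') (hK : K ≤ K') (hP : P' ≤ P) : LbP F I' k K' r w P' A z z' G :=
  ⟨fun v => (h.deg v).trans hK, fun v b b' hn hb => h.dep v b b' hn fun i hi => hb i (hI hi),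
    h.cls, fun ω hω => (h.pos ω hω).trans (inv_mono hP)⟩

/-- A label for windows is a label for shorter windows. -/
theorem LbP.win {F : Fam m J} {I : Finset (Fin m)} {k : Fin m} {K r w w' P : ℕ}
    {A : F.Ω → Prop} {V : Type} {z : PtT F → V} {z' : LnT F → V}
    {G : V → MvPolynomial (Option (Fin m)) ℝ} (h : LbP F I k K r w P A z z' G) (hw : w ≤ w')
    (hw' : w' ≤ J) : LbP F I k K r w' P A z
      (fun s => z' (s.1, s.2.1, s.2.2 / 2 ^ (w' - w))) G := by
  have e : ∀ ω, z' ((slam F w' ω).1, (slam F w' ω).2.1, (slam F w' ω).2.2 / 2 ^ (w' - w)) =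
      z' (slam F w ω) := fun ω => by rw [← slam_coarse F hw hw' ω]
  refine ⟨h.deg, h.dep, fun ω hω => (h.cls ω hω).trans (e ω).symm, fun ω hω => ?_⟩
  simp only [e]
  exact h.pos ω hω

/-! ### Markov -/

/-- **Markov, for one variable of a polynomial.** -/
theorem dir_markov (D : ℕ) : ∃ C : ℝ, 1 ≤ C ∧ ∀ (F : MvPolynomial (Option (Fin m)) ℝ)
    (b : Option (Fin m) → ℝ) (o : Option (Fin m)) (δ V : ℝ), F.totalDegree ≤ D → 0 < δ →
    (∀ s : ℝ, |s| ≤ δ → |eval (Function.update b o (b o + s)) F| ≤ V) →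
    |eval b (pderiv o F)| ≤ C * V / δ := by
  classical
  obtain ⟨C, hC, hmk⟩ := Pool.Agent.H40.BFL.unit_markov D
  refine ⟨C, hC, ?_⟩
  intro F b o δ V hF hδ hV
  obtain ⟨a, ha⟩ : ∃ a : Option (Fin m) → ℝ, a = Function.update b o (b o - δ) := ⟨_, rfl⟩
  obtain ⟨v, hvv⟩ : ∃ v : Option (Fin m) → ℝ, v = Function.update (fun _ => (0 : ℝ)) o (2 * δ) :=
    ⟨_, rfl⟩
  obtain ⟨γ, hγ⟩ : ∃ γ : Option (Fin m) → Polynomial ℝ, γ = fun j => Polynomial.C (a j) +
      Polynomial.C (v j) * Polynomial.X := ⟨_, rfl⟩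
  have hpt : ∀ t : ℝ, (fun j => (γ j).eval t) =
      Function.update b o (b o + (2 * t - 1) * δ) := by
    intro t
    funext j
    rw [hγ]
    simp only [Polynomial.eval_add, Polynomial.eval_mul, Polynomial.eval_C, Polynomial.eval_X]
    by_cases hj : j = o
    · subst hj
      rw [ha, hvv, Function.update_self, Function.update_self, Function.update_self]
      ring
    · rw [ha, hvv, Function.update_of_ne hj, Function.update_of_ne hj, Function.update_of_ne hj]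
      ring
  have hfe : ∀ (Q : MvPolynomial (Option (Fin m)) ℝ) (t : ℝ), (aeval γ Q).eval t =
      eval (Function.update b o (b o + (2 * t - 1) * δ)) Q := by
    intro Q t
    rw [Pool.KBX.eval_aeval_poly, hpt]
  have hfd : (aeval γ F).natDegree ≤ D := by
    refine Pool.KBX.natDegree_aeval_le F γ (fun j => ?_) hF
    rw [hγ]
    refine (Polynomial.natDegree_add_le _ _).trans (max_le ?_ ?_)
    · rw [Polynomial.natDegree_C]
      exact Nat.zero_le _
    · exact (Polynomial.natDegree_C_mul_le _ _).trans Polynomial.natDegree_X_le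
  have h1 : ∀ t ∈ Set.Icc (0 : ℝ) 1, |(aeval γ F).eval t| ≤ V := by
    intro t ht
    rw [hfe]
    refine hV _ ?_
    rw [abs_mul, abs_of_pos hδ]
    have : |2 * t - 1| ≤ 1 := by
      rw [abs_le]
      constructor <;> linarith [ht.1, ht.2]
    exact mul_le_of_le_one_left hδ.le this
  have h2 := hmk (aeval γ F) V hfd h1 (1 / 2) (by constructor <;> norm_num)
  have h3 : (Polynomial.derivative (aeval γ F)).eval (1 / 2) =
      2 * δ * eval b (pderiv o F) := by
    rw [der_aevalσ, Polynomial.eval_finsetSum, Finset.sum_eq_single o]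
    · rw [Polynomial.eval_mul, hfe]
      have k5 : Function.update b o (b o + (2 * (1 / 2) - 1) * δ) = b := by
        have : b o + (2 * (1 / 2) - 1) * δ = b o := by ring
        rw [this, Function.update_eq_self]
      rw [k5, hγ]
      simp only [Polynomial.derivative_add, Polynomial.derivative_C, Polynomial.derivative_mul,
        Polynomial.derivative_X, zero_mul, zero_add, mul_one, Polynomial.eval_C]
      rw [hvv, Function.update_self]
      ring
    · intro l _ hl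
      rw [hγ]
      simp only [Polynomial.derivative_add, Polynomial.derivative_C, Polynomial.derivative_mul,
        Polynomial.derivative_X, zero_mul, zero_add, mul_one]
      rw [hvv, Function.update_of_ne hl, Polynomial.C_0, mul_zero, Polynomial.eval_zero]
    · intro h
      exact absurd (Finset.mem_univ _) h
  rw [h3, abs_mul, abs_of_pos (by positivity : (0 : ℝ) < 2 * δ)] at h2
  have hV0 : 0 ≤ V := (abs_nonneg _).trans (hV 0 (by rw [abs_zero]; exact hδ.le))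
  rw [le_div_iff₀ hδ]
  have h4 := abs_nonneg (eval b (pderiv o F))
  nlinarith

/-! ### Velocities -/

/-- **The lines are tangent to the label**, one coordinate. -/
theorem vel_one (m K : ℕ) : ∃ C : ℝ, 1 ≤ C ∧ ∀ (J : ℕ) (F : Fam m J) (A : F.Ω → Prop)
    (hA : 0 < Pe F.p A) (w : ℕ) (G : LnT F → MvPolynomial (Option (Fin m)) ℝ) (k : Fin m)
    (S₀ θ : ℝ), w ≤ J → (∀ s, (G s).totalDegree ≤ K) → 0 < S₀ → 0 ≤ θ →
    (Fam.sub F A hA).Tm θ → C * (θ + 1) ≤ ((J : ℝ) - w) * Real.log 2 →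
    (∀ ω, A ω → |F.x ω k - eval (bt F ω) (G (slam F w ω))| ≤ S₀) →
    ∃ B : F.Ω → Prop, Sub B A ∧ Pe F.p A / 2 ≤ Pe F.p B ∧ ∀ ω, B ω →
      |F.d ω k - ∑ o, bd F ω o * eval (bt F ω) (pderiv o (G (slam F w ω)))| ≤
        Real.exp (C * (θ + 1)) * 2 ^ w * S₀ := by
  classical
  obtain ⟨C₁, hC₁, hrem⟩ := Pool.PZ.Zrt.rem_ev (m := m) (K + 1)
  obtain ⟨C₂, hC₂, hmk⟩ := Pool.Agent.H40.BFL.unit_markov (K + 1)
  have hlog : 0 ≤ Real.log C₂ := Real.log_nonneg hC₂
  refine ⟨C₁ + Real.log C₂, by linarith, ?_⟩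
  intro J F A hA w G k S₀ θ hw hG hS₀ hθ hTm hJ hpos
  obtain ⟨B, hBA, hPB, hB⟩ := hrem J F A hA w (fun s => dv w (fun s _ => G s) k s) S₀ θ hw
    (fun s => natDegree_dv w (fun s _ => hG s) k s) hS₀ hθ hTm (by
      refine le_trans ?_ hJ
      refine mul_le_mul_of_nonneg_right ?_ (by linarith)
      linarith) (by
      intro ω hω
      show |(dv w (fun s _ => G s) k (slam F w ω)).eval (rt F w ω)| ≤ S₀
      rw [eval_dv F hw (fun s _ => G s) ω k]
      exact hpos ω hω)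
  refine ⟨B, hBA, hPB, fun ω hω => ?_⟩
  obtain ⟨E, hE⟩ : ∃ E : ℝ, E = Real.exp (C₁ * (θ + 1)) := ⟨_, rfl⟩
  have h1 : ∀ t ∈ Set.Icc (0 : ℝ) 1,
      |(dv w (fun s _ => G s) k (slam F w ω)).eval t| ≤ E * S₀ := by
    intro t ht
    rw [hE]
    exact hB ω hω t ht
  have h2 := hmk _ _ (natDegree_dv w (fun s _ => hG s) k (slam F w ω)) h1 (rt F w ω)
    (rt_mem F w ω)
  rw [der_dv F hw (fun s _ => G s) ω k, abs_mul,
    abs_of_pos (by positivity : (0 : ℝ) < 1 / 2 ^ w), one_div,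
    inv_mul_le_iff₀ (by positivity)] at h2
  refine h2.trans ?_
  have h3 : Real.exp ((C₁ + Real.log C₂) * (θ + 1)) = E * Real.exp (Real.log C₂ * (θ + 1)) := by
    rw [hE, ← Real.exp_add]
    congr 1
    ring
  have h4 : C₂ ≤ Real.exp (Real.log C₂ * (θ + 1)) := by
    calc C₂ = Real.exp (Real.log C₂) := (Real.exp_log (by linarith)).symm
      _ ≤ _ := Real.exp_le_exp.2 (by nlinarith)
  rw [h3]
  have hE0 : 0 < E := by
    rw [hE]
    exact Real.exp_pos _
  have h5 : 0 ≤ 2 ^ w * (E * S₀) := by positivity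
  calc (2 : ℝ) ^ w * (C₂ * (E * S₀)) = C₂ * (2 ^ w * (E * S₀)) := by ring
    _ ≤ Real.exp (Real.log C₂ * (θ + 1)) * (2 ^ w * (E * S₀)) :=
        mul_le_mul_of_nonneg_right h4 h5
    _ = _ := by ring

/-! ### Gradients -/

theorem Pb_mono_pos {Ω : Type} [Fintype Ω] {p : Ω → ℝ} (hp : ∀ ω, 0 ≤ p ω) {A B : Ω → Prop}
    (h : ∀ ω, 0 < p ω → A ω → B ω) : Pb p A ≤ Pb p B := by
  classical
  unfold Pb
  refine Finset.sum_le_sum fun ω _ => ?_
  by_cases hA : A ω
  · by_cases h0 : 0 < p ω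
    · rw [if_pos hA, if_pos (h ω h0 hA)]
    · have : p ω = 0 := le_antisymm (not_lt.1 h0) (hp ω)
      rw [this]
      simp
  · rw [if_neg hA]
    split_ifs
    · exact hp ω
    · exact le_rfl

/-- **Gradients**, by comparison with another label of the same coordinate, if the coordinates are
full in their cells. -/
theorem gr_fam (m K : ℕ) : ∃ C : ℝ, 1 ≤ C ∧
    ∀ (J : ℕ) (F : Fam m J) (q : F.Ω → ℝ) (I : Finset (Fin m)) (k : Fin m) (w u X : ℕ)
      (A : F.Ω → Prop) (r₁ P₁ e₂ r₂ ρ₂ P₂ : ℕ) (V₁ V₂ : Type)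
      (z₁ : PtT F → V₁) (z₁' : LnT F → V₁) (G₁ : V₁ → MvPolynomial (Option (Fin m)) ℝ)
      (z₂ : PtT F → V₂) (z₂' : LnT F → V₂) (G₂ : V₂ → MvPolynomial (Option (Fin m)) ℝ)
      (θ e η : ℝ), IsLaw q → (∀ ω, 0 < q ω → A ω) →
      (J : ℝ) * Real.log 2 - e ≤ CH q F.T (fun ω => (F.l ω, F.Z ω)) → w + X ≤ J →
      LbP F I k K r₁ w P₁ A z₁ z₁' G₁ → LbOK F I k K e₂ r₂ w ρ₂ P₂ A z₂ z₂' G₂ →
      w ≤ u → ρ₂ ≤ u → 0 ≤ θ → 0 ≤ e → 0 < η → η ≤ 1 →
      I.card * (X * Real.log 2) - θ ≤ CH q (fun ω => ceI I (fun _ => u + X) (F.x ω))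
        (fun ω => (ceI I (fun _ => u) (F.x ω), (z₁' (slam F w ω), z₂' (slam F w ω)), F.W ω)) →
      C * (θ + e + 1) / η ≤ X * Real.log 2 →
      Pb q (fun ω => ¬ ∀ b : Option (Fin m) → ℝ, (∀ o, |b o - bt F ω o| ≤ 1 / 2 ^ u) → ∀ o,
        |eval b (pderiv o (G₁ (z₁' (slam F w ω))))| ≤
          Real.exp (C * (θ + e + 1) / η) * (2 ^ u / 2 ^ P₁ + 2 ^ u / 2 ^ P₂) + 2 ^ e₂) ≤ η := by
  classical
  obtain ⟨C₁, hC₁, hU⟩ := Pool.UNJ.uni_dep m K 4 (by norm_num)
  obtain ⟨C₂, hC₂, hmk⟩ := dir_markov (m := m) K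
  have hlog : 0 ≤ Real.log C₂ := Real.log_nonneg hC₂
  refine ⟨C₁ + Real.log C₂, by linarith, ?_⟩
  intro J F q I k w u X A r₁ P₁ e₂ r₂ ρ₂ P₂ V₁ V₂ z₁ z₁' G₁ z₂ z₂' G₂ θ e η hq hA he hwX
    h₁ h₂ hwu hρ hθ he0 hη hη1 hV hX
  have h0 := hq.nonneg
  have hte : 1 ≤ (θ + e + 1) / η := by
    rw [le_div_iff₀ hη]
    linarith
  obtain ⟨y, hy⟩ : ∃ y, y = (θ + e + 1) / η := ⟨_, rfl⟩
  have ey : ∀ c : ℝ, c * (θ + e + 1) / η = c * y := by
    intro c
    rw [hy]
    ring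
  rw [← hy] at hte
  have key := hU J F q I (fun _ => u) w X (V₁ × V₂)
    (fun ω => (z₁' (slam F w ω), z₂' (slam F w ω)))
    (fun x => G₁ x.1 - G₂ x.2) A (fun _ => 1 / 2 ^ P₁ + 1 / 2 ^ P₂) θ e η hq he hwX
    (fun ω ω' _ _ h => by simp only [h])
    (fun x => (MvPolynomial.totalDegree_sub _ _).trans (max_le (h₁.deg _) (h₂.deg _)))
    (fun x b b' hb hb' => by
      rw [map_sub, map_sub, h₁.dep _ b b' hb hb', h₂.dep _ b b' hb hb']) hθ he0 hη hη1
    (fun _ => by positivity) hV (by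
      have h1 : Pb q (fun ω => ¬ A ω) = 0 := by
        unfold Pb
        refine Finset.sum_eq_zero fun ω _ => ?_
        by_cases hω : A ω
        · rw [if_neg (not_not.2 hω)]
        · rw [if_pos hω]
          by_contra hne
          exact hω (hA ω (lt_of_le_of_ne (h0 ω) (Ne.symm hne)))
      rw [h1]
      positivity) ?_ ?_
  · refine le_trans (Pb_mono_pos h0 fun ω hqω hω => ?_) key
    intro hall
    refine hω fun b hb o => ?_
    have hAω := hA ω hqω
    rw [ey]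
    have hb2 : |eval b (pderiv o (G₂ (z₂' (slam F w ω))))| ≤ 2 ^ e₂ :=
      h₂.lip ω hAω b (fun o' => (hb o').trans (inv_mono hρ)) o
    have hwu' : (1 : ℝ) / 2 ^ u ≤ 1 / 2 ^ w := inv_mono hwu
    have hδ : (0 : ℝ) < 1 / 2 ^ u := by positivity
    have h3 := hmk (G₁ (z₁' (slam F w ω)) - G₂ (z₂' (slam F w ω))) b o (1 / 2 ^ u)
      (Real.exp (C₁ * y) * (1 / 2 ^ P₁ + 1 / 2 ^ P₂))
      ((MvPolynomial.totalDegree_sub _ _).trans (max_le (h₁.deg _) (h₂.deg _))) hδ
      fun s hs => by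
        have hd : ∀ o', |Function.update b o (b o + s) o' - bt F ω o'| ≤ 2 * (1 / 2 ^ u) := by
          intro o'
          have e1 := hb o'
          by_cases ho : o' = o
          · subst ho
            rw [Function.update_self]
            rw [abs_le] at e1 hs ⊢
            constructor <;> linarith [e1.1, e1.2, hs.1, hs.2]
          · rw [Function.update_of_ne ho]
            linarith
        have h4 := hall (Function.update b o (b o + s)) (by
          refine ⟨?_, fun i _ => ?_⟩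
          · have e1 := hd none
            have e2 : bt F ω none = F.t ω := rfl
            rw [e2] at e1
            have e3 : (4 : ℝ) / 2 ^ w = 4 * (1 / 2 ^ w) := by ring
            rw [e3]
            linarith
          · have e1 := hd none
            have e2 := hd (some i)
            have e3 : bt F ω none = F.t ω := rfl
            have e4 : bt F ω (some i) = F.u ω i + F.t ω * F.d ω i := rfl
            rw [e3] at e1
            rw [e4] at e2
            have e5 := F.dir ω i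
            have e6 : |(Function.update b o (b o + s) none - F.t ω) * F.d ω i| ≤
                2 * (1 / 2 ^ u) := by
              rw [abs_mul]
              exact (mul_le_of_le_one_right (abs_nonneg _) e5).trans e1
            have e7 : Function.update b o (b o + s) (some i) -
                (F.u ω i + Function.update b o (b o + s) none * F.d ω i) =
                (Function.update b o (b o + s) (some i) - (F.u ω i + F.t ω * F.d ω i)) -
                (Function.update b o (b o + s) none - F.t ω) * F.d ω i := by ring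
            rw [e7]
            refine (abs_sub _ _).trans ?_
            have e8 : (4 : ℝ) / 2 ^ u = 4 * (1 / 2 ^ u) := by ring
            show _ ≤ (4 : ℝ) / 2 ^ u
            rw [e8]
            linarith)
        rw [ey] at h4
        exact h4
    have h4 : |eval b (pderiv o (G₁ (z₁' (slam F w ω))))| ≤
        C₂ * (Real.exp (C₁ * y) * (1 / 2 ^ P₁ + 1 / 2 ^ P₂)) / (1 / 2 ^ u) + 2 ^ e₂ := by
      rw [map_sub, map_sub] at h3
      rw [abs_le] at h3 hb2 ⊢
      constructor <;> linarith [h3.1, h3.2, hb2.1, hb2.2]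
    refine h4.trans (add_le_add ?_ le_rfl)
    have e1 : C₂ * (Real.exp (C₁ * y) * (1 / 2 ^ P₁ + 1 / 2 ^ P₂)) / (1 / 2 ^ u) =
        C₂ * Real.exp (C₁ * y) * (2 ^ u / 2 ^ P₁ + 2 ^ u / 2 ^ P₂) := by
      field_simp
    rw [e1, add_mul, Real.exp_add]
    refine mul_le_mul_of_nonneg_right ?_ (by positivity)
    rw [mul_comm]
    refine mul_le_mul_of_nonneg_left ?_ (Real.exp_pos _).le
    calc C₂ = Real.exp (Real.log C₂) := (Real.exp_log (by linarith)).symm
      _ ≤ _ := Real.exp_le_exp.2 (by nlinarith)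
  · refine le_trans ?_ hX
    rw [ey, ey]
    refine mul_le_mul_of_nonneg_right (by linarith) (by linarith)
  · intro ω hω
    simp only
    rw [map_sub]
    have h1 := h₁.pos ω hω
    have h2 := h₂.pos ω hω
    have e1 : MvPolynomial.eval (bt F ω) (G₁ (z₁' (slam F w ω))) -
        MvPolynomial.eval (bt F ω) (G₂ (z₂' (slam F w ω))) =
        (F.x ω k - MvPolynomial.eval (bt F ω) (G₂ (z₂' (slam F w ω)))) -
        (F.x ω k - MvPolynomial.eval (bt F ω) (G₁ (z₁' (slam F w ω)))) := by ring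
    rw [e1]
    have h3 := abs_sub (F.x ω k - MvPolynomial.eval (bt F ω) (G₂ (z₂' (slam F w ω))))
      (F.x ω k - MvPolynomial.eval (bt F ω) (G₁ (z₁' (slam F w ω))))
    linarith

/-! ### Labels -/

theorem Pe_minus {Ω : Type} [Fintype Ω] {p : Ω → ℝ} (hp : ∀ ω, 0 ≤ p ω) {A B N : Ω → Prop}
    (hB : ∀ ω, B ω → A ω) : Pe p B - Pe p (fun ω => A ω ∧ N ω) ≤ Pe p (fun ω => B ω ∧ ¬ N ω) := by
  classical
  rw [Pe_eq, Pe_eq, Pe_eq, ← Finset.sum_sub_distrib]
  refine Finset.sum_le_sum fun ω _ => ?_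
  have := hp ω
  by_cases h1 : B ω <;> by_cases h2 : N ω
  · simp [h1, h2, hB ω h1]
  · simp [h1, h2]
  · by_cases h3 : A ω <;> simp [h1, h2, h3, this]
  · by_cases h3 : A ω <;> simp [h1, h2, h3]

/-- **Closed labels from labels without velocities and gradients**, and a second label `Γ` of the
same coordinate with a bounded gradient, if the coordinates are full below the cells of side
`2 ^ (-u)`, given the two labels. -/
theorem lb_of_p (m K : ℕ) : ∃ C : ℝ, 1 ≤ C ∧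
    ∀ (J : ℕ) (F : Fam m J) (A : F.Ω → Prop) (hA : 0 < Pe F.p A) (I : Finset (Fin m))
      (k : Fin m) (w u : ℕ) (r₁ P₁ P' e' e₂ r₂ ρ₂ P₂ c : ℕ) (V₁ V₂ : Type)
      (z₁ : PtT F → V₁) (z₁' : LnT F → V₁) (G₁ : V₁ → MvPolynomial (Option (Fin m)) ℝ)
      (z₂ : PtT F → V₂) (z₂' : LnT F → V₂) (G₂ : V₂ → MvPolynomial (Option (Fin m)) ℝ)
      (θ t : ℝ), w ≤ u → u ≤ J → ρ₂ ≤ u → 0 ≤ θ → 0 ≤ t → (Fam.sub F A hA).Tm t →
      LbP F I k K r₁ w P₁ A z₁ z₁' G₁ → LbOK F I k K e₂ r₂ w ρ₂ P₂ A z₂ z₂' G₂ →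
      I.card * (((J - u : ℕ) : ℝ) * Real.log 2) - θ ≤
        CH (Pool.Agent.H49.Ent.cond F.p A True) (fun ω => ceI I (fun _ => J) (F.x ω))
        (fun ω => (ceI I (fun _ => u) (F.x ω), (z₁' (slam F w ω), z₂' (slam F w ω)), F.W ω)) →
      C * (θ + t + 1) ≤ ((J - u : ℕ) : ℝ) * Real.log 2 →
      Real.exp (C * (θ + t + 1)) ≤ 2 ^ c → P' + c ≤ P₁ → u + c + 2 ≤ P₁ + e' →
      u + c + 2 ≤ P₂ + e' → e₂ + 1 ≤ e' →
      ∃ B : F.Ω → Prop, Sub B A ∧ Pe F.p A / 4 ≤ Pe F.p B ∧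
        LbOK F I k K e' r₁ w u P' B z₁ z₁' G₁ := by
  classical
  obtain ⟨C₁, hC₁, hvel⟩ := vel_one m K
  obtain ⟨C₂, hC₂, hgr⟩ := gr_fam m K
  refine ⟨C₁ + 4 * C₂, by linarith, ?_⟩
  intro J F A hA I k w u r₁ P₁ P' e' e₂ r₂ ρ₂ P₂ c V₁ V₂ z₁ z₁' G₁ z₂ z₂' G₂ θ t hwu huJ hρ hθ
    ht hTm h₁ h₂ hV hX hc hP' hu1 hu2 he2
  have hq := isLaw_cond F.isLaw hA
  have hJu : ((J - u : ℕ) : ℝ) = (J : ℝ) - u := by
    rw [Nat.cast_sub huJ]
  have hl2 : 0 < Real.log 2 := Real.log_pos one_lt_two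
  have hy0 : 0 ≤ θ + t + 1 := by linarith
  -- the velocities
  obtain ⟨B₁, hB₁A, hPB₁, hB₁⟩ := hvel J F A hA w (fun s => G₁ (z₁' s)) k (1 / 2 ^ P₁) t
    (hwu.trans huJ) (fun s => h₁.deg _) (by positivity) ht hTm (by
      have e1 : C₁ * (t + 1) ≤ (C₁ + 4 * C₂) * (θ + t + 1) := by nlinarith
      refine (e1.trans hX).trans ?_
      refine mul_le_mul_of_nonneg_right ?_ hl2.le
      rw [hJu]
      have : (w : ℝ) ≤ u := by exact_mod_cast hwu
      linarith) h₁.pos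
  -- the gradients
  have hgr' := hgr J F (Pool.Agent.H49.Ent.cond F.p A True) I k w u (J - u) A r₁ P₁ e₂ r₂ ρ₂ P₂
    V₁ V₂ z₁ z₁' G₁ z₂ z₂' G₂ θ t (1 / 4) hq
    (fun ω hω => by
      have := ((cond_pos_iff F.isLaw.nonneg A True ω).1 hω).2
      exact of_eq_true this)
    (by
      have h5 : CH (Fam.sub F A hA).p (Fam.sub F A hA).T
        (fun ω => ((Fam.sub F A hA).l ω, (Fam.sub F A hA).Z ω)) =
        CH (Pool.Agent.H49.Ent.cond F.p A True) F.T (fun ω => (F.l ω, F.Z ω)) :=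
        Pool.FLF.sub_CH F.T (fun ω => (F.l ω, F.Z ω))
      have h6 := hTm
      unfold Fam.Tm at h6
      rw [h5] at h6
      exact h6)
    (by omega) h₁ h₂ hwu hρ hθ ht (by norm_num) (by norm_num)
    (by rw [Nat.add_sub_of_le huJ]; exact hV)
    (by
      refine le_trans ?_ hX
      have e1 : C₂ * (θ + t + 1) / (1 / 4) = 4 * C₂ * (θ + t + 1) := by ring
      rw [e1]
      exact mul_le_mul_of_nonneg_right (by linarith) hy0)
  obtain ⟨N, hN⟩ : ∃ N : F.Ω → Prop, N = fun ω => ¬ ∀ b : Option (Fin m) → ℝ,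
      (∀ o, |b o - bt F ω o| ≤ 1 / 2 ^ u) → ∀ o,
        |eval b (pderiv o (G₁ (z₁' (slam F w ω))))| ≤
          Real.exp (C₂ * (θ + t + 1) / (1 / 4)) * (2 ^ u / 2 ^ P₁ + 2 ^ u / 2 ^ P₂) + 2 ^ e₂ :=
    ⟨_, rfl⟩
  rw [← hN, show Pb (Pool.Agent.H49.Ent.cond F.p A True) N =
    Pe (Pool.Agent.H49.Ent.cond F.p A True) N by rw [Pe_eq]; rfl, Pe_cond,
    div_le_iff₀ hA] at hgr'
  have hexp : Real.exp (C₂ * (θ + t + 1) / (1 / 4)) ≤ 2 ^ c := by
    refine le_trans (Real.exp_le_exp.2 ?_) hc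
    have e1 : C₂ * (θ + t + 1) / (1 / 4) = 4 * C₂ * (θ + t + 1) := by ring
    rw [e1]
    exact mul_le_mul_of_nonneg_right (by linarith) hy0
  have hexp1 : Real.exp (C₁ * (t + 1)) ≤ 2 ^ c := by
    refine le_trans (Real.exp_le_exp.2 ?_) hc
    nlinarith
  refine ⟨fun ω => B₁ ω ∧ ¬ N ω, fun ω hω => hB₁A ω hω.1, ?_, h₁.deg, h₁.dep,
    fun ω hω => h₁.cls ω (hB₁A ω hω.1), fun ω hω => ?_, fun ω hω => ?_, fun ω hω b hb o => ?_⟩
  · have h3 := Pe_minus (A := A) (B := B₁) (N := N) F.isLaw.nonneg hB₁A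
    linarith
  · exact (h₁.pos ω (hB₁A ω hω.1)).trans (inv_mono (by omega))
  · refine (hB₁ ω hω.1).trans ?_
    have e1 : Real.exp (C₁ * (t + 1)) * 2 ^ w * (1 / 2 ^ P₁) ≤ 2 ^ c * 2 ^ w * (1 / 2 ^ P₁) :=
      mul_le_mul_of_nonneg_right (mul_le_mul_of_nonneg_right hexp1 (by positivity))
        (by positivity)
    refine e1.trans ?_
    have e2 : (2 : ℝ) ^ c * 2 ^ w * (1 / 2 ^ P₁) = 2 ^ w * (2 ^ c / 2 ^ P₁) := by ring
    have e3 : (2 : ℝ) ^ w / 2 ^ P' = 2 ^ w * (1 / 2 ^ P') := by ring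
    rw [e2, e3]
    refine mul_le_mul_of_nonneg_left ?_ (by positivity)
    rw [div_le_div_iff₀ (by positivity) (by positivity), one_mul, ← pow_add]
    exact pow_le_pow_right₀ (by norm_num) (by omega)
  · have h3 := hω.2
    rw [hN] at h3
    have h4 := not_not.1 h3 b hb o
    refine h4.trans ?_
    have p1 : (2 : ℝ) ^ u / 2 ^ P₁ * 2 ^ c ≤ 2 ^ e' / 4 := by
      have e1 : (4 : ℝ) = 2 ^ 2 := by norm_num
      rw [div_mul_eq_mul_div, e1, div_le_div_iff₀ (by positivity) (by positivity), ← pow_add,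
        ← pow_add, ← pow_add]
      exact pow_le_pow_right₀ (by norm_num) (by omega)
    have p2 : (2 : ℝ) ^ u / 2 ^ P₂ * 2 ^ c ≤ 2 ^ e' / 4 := by
      have e1 : (4 : ℝ) = 2 ^ 2 := by norm_num
      rw [div_mul_eq_mul_div, e1, div_le_div_iff₀ (by positivity) (by positivity), ← pow_add,
        ← pow_add, ← pow_add]
      exact pow_le_pow_right₀ (by norm_num) (by omega)
    have p3 : (2 : ℝ) ^ e₂ ≤ 2 ^ e' / 2 := by
      rw [le_div_iff₀ (by norm_num), ← pow_succ]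
      exact pow_le_pow_right₀ (by norm_num) he2
    have p4 : Real.exp (C₂ * (θ + t + 1) / (1 / 4)) * (2 ^ u / 2 ^ P₁ + 2 ^ u / 2 ^ P₂) ≤
        2 ^ c * (2 ^ u / 2 ^ P₁ + 2 ^ u / 2 ^ P₂) :=
      mul_le_mul_of_nonneg_right hexp (by positivity)
    have p5 : (2 : ℝ) ^ c * (2 ^ u / 2 ^ P₁ + 2 ^ u / 2 ^ P₂) =
        2 ^ u / 2 ^ P₁ * 2 ^ c + 2 ^ u / 2 ^ P₂ * 2 ^ c := by ring
    linarith

end Pool.GRD
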