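import Mathlib.MeasureTheory.Integral.IntervalIntegral.AbsolutelyContinuousFun
import Mathlib.Analysis.Calculus.Monotone
import Mathlib.Analysis.Calculus.FDeriv.Measurable

/-!
# Superadditive interval functions

Let `0 ≤ N q q' ≤ K (q' - q)` and `N q q' + N q' q'' ≤ N q q''` on `[0, 1]`. Then
`N q (q + g) / g` has a limit `b q` for almost all `q`, and the sums of `|N q_i q_(i+1) - ∫ b|` over
fine chains are small.
-/

set_option autoImplicit false

namespace Pool.SUPA

open Finset Filter MeasureTheory Set Topology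

/-- A superadditive interval function on `[0, 1]`. -/
structure SA (N : ℝ → ℝ → ℝ) (K : ℝ) : Prop where
  nn : ∀ q q', 0 ≤ q → q ≤ q' → q' ≤ 1 → 0 ≤ N q q'
  le : ∀ q q', 0 ≤ q → q ≤ q' → q' ≤ 1 → N q q' ≤ K * (q' - q)
  sup : ∀ q q' q'', 0 ≤ q → q ≤ q' → q' ≤ q'' → q'' ≤ 1 → N q q' + N q' q'' ≤ N q q''

variable {N : ℝ → ℝ → ℝ} {K : ℝ}

theorem SA.K_nonneg (h : SA N K) : 0 ≤ K := by
  have h1 := h.nn 0 1 le_rfl zero_le_one le_rfl
  have h2 := h.le 0 1 le_rfl zero_le_one le_rfl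
  linarith

theorem SA.self (h : SA N K) {q : ℝ} (h0 : 0 ≤ q) (h1 : q ≤ 1) : N q q = 0 := by
  have a := h.nn q q h0 le_rfl h1
  have b := h.le q q h0 le_rfl h1
  rw [sub_self, mul_zero] at b
  exact le_antisymm b a

theorem SA.mono_right (h : SA N K) {a q q' : ℝ} (h0 : 0 ≤ a) (h1 : a ≤ q) (h2 : q ≤ q')
    (h3 : q' ≤ 1) : N a q ≤ N a q' := by
  have a1 := h.sup a q q' h0 h1 h2 h3
  have a2 := h.nn q q' (h0.trans h1) h2 h3
  linarith

/-- Chains. -/
theorem SA.chain (h : SA N K) (z : ℕ → ℝ) (hz : Monotone z) (h0 : 0 ≤ z 0) (m : ℕ)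
    (hm : z m ≤ 1) : ∑ i ∈ range m, N (z i) (z (i + 1)) ≤ N (z 0) (z m) := by
  induction m with
  | zero =>
    rw [Finset.sum_range_zero]
    exact h.nn _ _ h0 le_rfl hm
  | succ m ih =>
    rw [Finset.sum_range_succ]
    have h1 := ih ((hz (Nat.le_succ m)).trans hm)
    have h2 := h.sup (z 0) (z m) (z (m + 1)) h0 (hz (Nat.zero_le _)) (hz (Nat.le_succ m)) hm
    linarith

/-! ### Dyadic partitions -/

/-- The dyadic points. -/
noncomputable def dy (n i : ℕ) : ℝ := (i : ℝ) / 2 ^ n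

/-- The projection to a dyadic interval. -/
noncomputable def pr (n i : ℕ) (t : ℝ) : ℝ := max (dy n i) (min t (dy n (i + 1)))

/-- The cumulative function. -/
noncomputable def cum (N : ℝ → ℝ → ℝ) (n : ℕ) (t : ℝ) : ℝ :=
  ∑ i ∈ range (2 ^ n), N (dy n i) (pr n i t)

theorem dy_nonneg (n i : ℕ) : 0 ≤ dy n i := by unfold dy; positivity

theorem dy_succ (n i : ℕ) : dy n (i + 1) = dy n i + 1 / 2 ^ n := by
  unfold dy
  push_cast
  ring

theorem dy_le_succ (n i : ℕ) : dy n i ≤ dy n (i + 1) := by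
  rw [dy_succ]
  have : (0 : ℝ) ≤ 1 / 2 ^ n := by positivity
  linarith

theorem dy_mono (n : ℕ) : Monotone (dy n) := monotone_nat_of_le_succ (dy_le_succ n)

theorem dy_top (n : ℕ) : dy n (2 ^ n) = 1 := by
  unfold dy
  push_cast
  exact div_self (by positivity)

theorem dy_le_one {n i : ℕ} (h : i ≤ 2 ^ n) : dy n i ≤ 1 := by
  rw [← dy_top n]
  exact dy_mono n h

theorem pr_ge (n i : ℕ) (t : ℝ) : dy n i ≤ pr n i t := le_max_left _ _

theorem pr_le (n i : ℕ) (t : ℝ) : pr n i t ≤ dy n (i + 1) :=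
  max_le (dy_le_succ n i) (min_le_right _ _)

theorem pr_le_one {n i : ℕ} (h : i < 2 ^ n) (t : ℝ) : pr n i t ≤ 1 :=
  (pr_le n i t).trans (dy_le_one h)

theorem pr_mono (n i : ℕ) : Monotone (pr n i) := fun _ _ h =>
  max_le_max le_rfl (min_le_min h le_rfl)

theorem pr_of_le {n i : ℕ} {t : ℝ} (h : t ≤ dy n i) : pr n i t = dy n i :=
  max_eq_left ((min_le_left _ _).trans h)

theorem pr_of_ge {n i : ℕ} {t : ℝ} (h : dy n (i + 1) ≤ t) : pr n i t = dy n (i + 1) := by
  unfold pr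
  rw [min_eq_right h, max_eq_right (dy_le_succ n i)]

theorem pr_of_mem {n i : ℕ} {t : ℝ} (h : dy n i ≤ t) (h' : t ≤ dy n (i + 1)) : pr n i t = t := by
  unfold pr
  rw [min_eq_left h', max_eq_right h]

theorem cum_nonneg (h : SA N K) (n : ℕ) (t : ℝ) : 0 ≤ cum N n t :=
  Finset.sum_nonneg fun i hi => h.nn _ _ (dy_nonneg n i) (pr_ge n i t)
    (pr_le_one (Finset.mem_range.1 hi) t)

theorem cum_mono (h : SA N K) (n : ℕ) : Monotone (cum N n) := fun _ _ hst =>
  Finset.sum_le_sum fun i hi => h.mono_right (dy_nonneg n i) (pr_ge n i _) (pr_mono n i hst)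
    (pr_le_one (Finset.mem_range.1 hi) _)

theorem cum_one (n : ℕ) : cum N n 1 = ∑ i ∈ range (2 ^ n), N (dy n i) (dy n (i + 1)) :=
  Finset.sum_congr rfl fun i hi => by
    rw [pr_of_ge (dy_le_one (Finset.mem_range.1 hi))]

theorem cum_zero (h : SA N K) (n : ℕ) : cum N n 0 = 0 :=
  Finset.sum_eq_zero fun i hi => by
    rw [pr_of_le (dy_nonneg n i)]
    exact h.self (dy_nonneg n i) (dy_le_one (Finset.mem_range.1 hi).le)

theorem cum_clamp (n : ℕ) (t : ℝ) : cum N n t = cum N n (max 0 (min t 1)) := by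
  refine Finset.sum_congr rfl fun i hi => ?_
  congr 1
  have h1 := dy_nonneg n i
  have h2 := dy_le_one (Finset.mem_range.1 hi : i + 1 ≤ 2 ^ n)
  have h3 := dy_le_succ n i
  unfold pr
  rcases le_total t 0 with ht | ht
  · rw [min_eq_left (ht.trans zero_le_one), max_eq_left ht, min_eq_left (ht.trans (h1.trans h3)),
      max_eq_left (ht.trans h1), min_eq_left (h1.trans h3), max_eq_left h1]
  · rcases le_total t 1 with ht' | ht'
    · rw [min_eq_left ht', max_eq_right ht]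
    · rw [min_eq_right ht', max_eq_right zero_le_one, min_eq_right (h2.trans ht'),
        min_eq_right h2]

/-- Sums over even and odd numbers. -/
theorem sum_two (f : ℕ → ℝ) (m : ℕ) :
    ∑ i ∈ range (m * 2), f i = ∑ i ∈ range m, (f (2 * i) + f (2 * i + 1)) := by
  induction m with
  | zero => simp
  | succ m ih =>
    rw [show (m + 1) * 2 = m * 2 + 1 + 1 by ring, Finset.sum_range_succ, Finset.sum_range_succ, ih,
      Finset.sum_range_succ _ m, show m * 2 = 2 * m by ring]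
    ring

theorem dy_even (n i : ℕ) : dy (n + 1) (2 * i) = dy n i := by
  unfold dy
  push_cast
  rw [pow_succ]
  field_simp

/-- Refinement. -/
theorem cum_anti (h : SA N K) (t : ℝ) : Antitone fun n => cum N n t := by
  refine antitone_nat_of_succ_le fun n => ?_
  unfold cum
  rw [pow_succ, sum_two]
  refine Finset.sum_le_sum fun i hi => ?_
  have hi' := Finset.mem_range.1 hi
  have e1 : dy (n + 1) (2 * i) = dy n i := dy_even n i
  have e2 : dy (n + 1) (2 * i + 1 + 1) = dy n (i + 1) := by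
    rw [show 2 * i + 1 + 1 = 2 * (i + 1) by ring, dy_even]
  have m1 := dy_le_succ (n + 1) (2 * i)
  have m2 := dy_le_succ (n + 1) (2 * i + 1)
  rw [e1] at m1
  rw [e2] at m2
  have h1 : dy n (i + 1) ≤ 1 := dy_le_one hi'
  have h0 := dy_nonneg n i
  rcases le_total t (dy (n + 1) (2 * i + 1)) with ht | ht
  · -- `t` is left of the middle point
    have a1 : pr (n + 1) (2 * i + 1) t = dy (n + 1) (2 * i + 1) := pr_of_le ht
    have a2 : pr (n + 1) (2 * i) t = pr n i t := by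
      unfold pr
      rw [e1, min_eq_left ht, min_eq_left (ht.trans m2)]
    rw [a1, a2, e1, h.self (h0.trans m1) (m2.trans h1), add_zero]
  · have a1 : pr (n + 1) (2 * i) t = dy (n + 1) (2 * i + 1) := pr_of_ge ht
    have a2 : pr (n + 1) (2 * i + 1) t = pr n i t := by
      unfold pr
      rw [e2, max_eq_right (le_min ht m2), max_eq_right (le_min (m1.trans ht) (m1.trans m2))]
    rw [a1, a2, e1]
    refine h.sup _ _ _ h0 m1 ?_ ((pr_le n i t).trans h1)
    rw [← a2]
    exact pr_ge _ _ _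

/-- The increment in a cell. -/
theorem cum_cell (h : SA N K) {n j : ℕ} (hj : j < 2 ^ n) {q q' : ℝ} (h1 : dy n j ≤ q)
    (h2 : q ≤ q') (h3 : q' ≤ dy n (j + 1)) : N q q' ≤ cum N n q' - cum N n q := by
  unfold cum
  rw [← Finset.sum_sub_distrib]
  have key : N (dy n j) (pr n j q') - N (dy n j) (pr n j q) ≤
      ∑ i ∈ range (2 ^ n), (N (dy n i) (pr n i q') - N (dy n i) (pr n i q)) := by
    refine Finset.single_le_sum (f := fun i => N (dy n i) (pr n i q') - N (dy n i) (pr n i q))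
      (fun i hi => ?_) (Finset.mem_range.2 hj)
    have := h.mono_right (dy_nonneg n i) (pr_ge n i q) (pr_mono n i h2)
      (pr_le_one (Finset.mem_range.1 hi) q')
    linarith
  refine le_trans ?_ key
  rw [pr_of_mem h1 (h2.trans h3), pr_of_mem (h1.trans h2) h3]
  have := h.sup (dy n j) q q' (dy_nonneg n j) h1 h2 (h3.trans (dy_le_one hj))
  linarith

/-- The increment in general. -/
theorem cum_gen (h : SA N K) (n : ℕ) {q q' : ℝ} (h0 : 0 ≤ q) (h1 : q ≤ q') (h2 : q' ≤ 1) :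
    N q q' ≤ cum N n q' - cum N n q +
      K * (q' - q) * ((⌈(2 : ℝ) ^ n * q'⌉ : ℝ) - ⌈(2 : ℝ) ^ n * q⌉) := by
  have hK := h.K_nonneg
  have hc : (0 : ℝ) ≤ (⌈(2 : ℝ) ^ n * q'⌉ : ℝ) - ⌈(2 : ℝ) ^ n * q⌉ := by
    have : ⌈(2 : ℝ) ^ n * q⌉ ≤ ⌈(2 : ℝ) ^ n * q'⌉ :=
      Int.ceil_le_ceil (mul_le_mul_of_nonneg_left h1 (by positivity))
    have h3 : (⌈(2 : ℝ) ^ n * q⌉ : ℝ) ≤ ⌈(2 : ℝ) ^ n * q'⌉ := by exact_mod_cast this
    linarith
  have hp : 0 ≤ K * (q' - q) * ((⌈(2 : ℝ) ^ n * q'⌉ : ℝ) - ⌈(2 : ℝ) ^ n * q⌉) :=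
    mul_nonneg (mul_nonneg hK (by linarith)) hc
  set j := ⌊(2 : ℝ) ^ n * q⌋₊ with hj
  have hpow : (0 : ℝ) < 2 ^ n := by positivity
  have hj1 : dy n j ≤ q := by
    unfold dy
    rw [div_le_iff₀ hpow, mul_comm]
    exact Nat.floor_le (by positivity)
  have hj2 : q < dy n (j + 1) := by
    unfold dy
    rw [lt_div_iff₀ hpow, mul_comm]
    push_cast
    exact Nat.lt_floor_add_one _
  rcases le_or_gt q' (dy n (j + 1)) with h3 | h3
  · by_cases hq : q = 1
    · have : q' = 1 := le_antisymm h2 (hq ▸ h1)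
      rw [this, hq, h.self zero_le_one le_rfl, sub_self, sub_self, mul_zero, zero_mul, add_zero]
    · have hq1 : q < 1 := lt_of_le_of_ne (h1.trans h2) hq
      have hj3 : j < 2 ^ n := by
        have a1 : (j : ℝ) < 2 ^ n := by
          have a2 : (j : ℝ) ≤ 2 ^ n * q := Nat.floor_le (by positivity)
          nlinarith
        exact_mod_cast a1
      have := cum_cell h hj3 hj1 h1 h3
      linarith
  · have a1 := h.le q q' h0 h1 h2
    have a2 := cum_mono h n h1
    have a3 : (1 : ℝ) ≤ (⌈(2 : ℝ) ^ n * q'⌉ : ℝ) - ⌈(2 : ℝ) ^ n * q⌉ := by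
      have b1 : ⌈(2 : ℝ) ^ n * q⌉ ≤ (j : ℤ) + 1 := by
        rw [Int.ceil_le]
        push_cast
        exact (Nat.lt_floor_add_one _).le
      have b2 : (j : ℤ) + 1 < ⌈(2 : ℝ) ^ n * q'⌉ := by
        rw [Int.lt_ceil]
        push_cast
        unfold dy at h3
        rw [div_lt_iff₀ hpow] at h3
        push_cast at h3
        linarith
      have b3 : ⌈(2 : ℝ) ^ n * q⌉ + 1 ≤ ⌈(2 : ℝ) ^ n * q'⌉ := by omega
      have b4 : (⌈(2 : ℝ) ^ n * q⌉ : ℝ) + 1 ≤ ⌈(2 : ℝ) ^ n * q'⌉ := by exact_mod_cast b3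
      linarith
    have a4 : 0 ≤ K * (q' - q) := mul_nonneg hK (by linarith)
    nlinarith

/-! ### The limit function -/

/-- The cut points. -/
noncomputable def zz (x y : ℝ) (n i : ℕ) : ℝ := max x (min y (dy n i))

theorem zz_mono (x y : ℝ) (n : ℕ) : Monotone (zz x y n) := fun _ _ h =>
  max_le_max le_rfl (min_le_min le_rfl (dy_mono n h))

/-- The increment of the cumulative function is at most `N x y` up to one cell. -/
theorem cum_le (h : SA N K) (n : ℕ) {x y : ℝ} (h0 : 0 ≤ x) (h1 : x ≤ y) (h2 : y ≤ 1) :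
    cum N n y - cum N n x ≤ N x y + K / 2 ^ n := by
  have hK := h.K_nonneg
  set j := ⌊(2 : ℝ) ^ n * x⌋₊ with hj
  have hpow : (0 : ℝ) < 2 ^ n := by positivity
  have hKn : 0 ≤ K / 2 ^ n := by positivity
  have z0 : zz x y n 0 = x := by
    unfold zz
    rw [show dy n 0 = 0 by unfold dy; simp, min_eq_right (h0.trans h1), max_eq_left h0]
  have z1 : zz x y n (2 ^ n) = y := by
    unfold zz
    rw [dy_top, min_eq_left h2, max_eq_right h1]
  have zr : ∀ i, 0 ≤ zz x y n i := fun i => h0.trans (le_max_left _ _)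
  have zl : ∀ i, zz x y n i ≤ 1 := fun i =>
    max_le (h1.trans h2) ((min_le_left _ _).trans h2)
  have term : ∀ i ∈ range (2 ^ n), N (dy n i) (pr n i y) - N (dy n i) (pr n i x) ≤
      N (zz x y n i) (zz x y n (i + 1)) + if i = j then K / 2 ^ n else 0 := by
    intro i hi
    have hi' := Finset.mem_range.1 hi
    have d1 : dy n (i + 1) ≤ 1 := dy_le_one hi'
    have d0 := dy_nonneg n i
    have dm := dy_le_succ n i
    have nz : 0 ≤ N (zz x y n i) (zz x y n (i + 1)) :=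
      h.nn _ _ (zr i) (zz_mono x y n (Nat.le_succ i)) (zl _)
    have ni : (0 : ℝ) ≤ if i = j then K / 2 ^ n else 0 := by split_ifs <;> [exact hKn; exact le_rfl]
    rcases le_or_gt x (dy n i) with hx | hx
    · rw [pr_of_le hx, h.self d0 (dm.trans d1), sub_zero]
      rcases le_or_gt (dy n i) y with hy | hy
      · have e1 : zz x y n i = dy n i := by
          unfold zz
          rw [min_eq_right hy, max_eq_right hx]
        have e2 : zz x y n (i + 1) = pr n i y := by
          unfold zz pr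
          rw [max_eq_right (le_min h1 (hx.trans dm)), max_eq_right (le_min hy dm)]
        rw [e1, e2]
        linarith
      · rw [pr_of_le hy.le, h.self d0 (dm.trans d1)]
        exact add_nonneg nz ni
    · rcases le_or_gt (dy n (i + 1)) x with hx' | hx'
      · rw [pr_of_ge hx', pr_of_ge (hx'.trans h1), sub_self]
        exact add_nonneg nz ni
      · have hij : i = j := by
          refine (Nat.floor_eq_iff (by positivity)).2 ⟨?_, ?_⟩ |>.symm
          · unfold dy at hx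
            rw [div_lt_iff₀ hpow] at hx
            linarith
          · unfold dy at hx'
            rw [lt_div_iff₀ hpow] at hx'
            push_cast at hx'
            linarith
        rw [if_pos hij]
        have a1 := h.le (dy n i) (pr n i y) d0 (pr_ge n i y) (pr_le_one hi' y)
        have a2 := h.nn (dy n i) (pr n i x) d0 (pr_ge n i x) (pr_le_one hi' x)
        have a3 : K * (pr n i y - dy n i) ≤ K / 2 ^ n := by
          have a4 := pr_le n i y
          rw [dy_succ] at a4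
          have a5 : pr n i y - dy n i ≤ 1 / 2 ^ n := by linarith
          calc K * (pr n i y - dy n i) ≤ K * (1 / 2 ^ n) := mul_le_mul_of_nonneg_left a5 hK
            _ = K / 2 ^ n := by ring
        linarith
  have s1 : cum N n y - cum N n x = ∑ i ∈ range (2 ^ n),
      (N (dy n i) (pr n i y) - N (dy n i) (pr n i x)) := by
    unfold cum
    rw [← Finset.sum_sub_distrib]
  have s2 := Finset.sum_le_sum term
  rw [Finset.sum_add_distrib] at s2
  have s3 := h.chain (zz x y n) (zz_mono x y n) (zr 0) (2 ^ n) (zl _)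
  rw [z0, z1] at s3
  have s4 : (∑ i ∈ range (2 ^ n), if i = j then K / 2 ^ n else 0) ≤ K / 2 ^ n := by
    rw [Finset.sum_ite_eq' (range (2 ^ n)) j fun _ => K / 2 ^ n]
    split_ifs <;> [exact le_rfl; exact hKn]
  linarith

/-- The limit of the cumulative functions. -/
noncomputable def FF (N : ℝ → ℝ → ℝ) (t : ℝ) : ℝ := ⨅ n, cum N n t

theorem FF_tendsto (h : SA N K) (t : ℝ) : Tendsto (fun n => cum N n t) atTop (𝓝 (FF N t)) :=
  tendsto_atTop_ciInf (cum_anti h t) ⟨0, by rintro _ ⟨n, rfl⟩; exact cum_nonneg h n t⟩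

theorem FF_mono (h : SA N K) : Monotone (FF N) := fun s t hst =>
  le_of_tendsto_of_tendsto' (FF_tendsto h s) (FF_tendsto h t) fun n => cum_mono h n hst

theorem FF_zero (h : SA N K) : FF N 0 = 0 := by
  refine tendsto_nhds_unique (FF_tendsto h 0) ?_
  simp_rw [cum_zero h]
  exact tendsto_const_nhds

theorem FF_clamp (t : ℝ) : FF N t = FF N (max 0 (min t 1)) := by
  unfold FF
  exact iInf_congr fun n => cum_clamp n t

theorem FF_le (h : SA N K) {x y : ℝ} (h0 : 0 ≤ x) (h1 : x ≤ y) (h2 : y ≤ 1) :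
    FF N y - FF N x ≤ N x y := by
  have a1 := (FF_tendsto h y).sub (FF_tendsto h x)
  have a2 : Tendsto (fun n : ℕ => N x y + K / 2 ^ n) atTop (𝓝 (N x y + 0)) := by
    refine tendsto_const_nhds.add ?_
    have := (tendsto_pow_atTop_nhds_zero_of_lt_one (r := (1 / 2 : ℝ)) (by norm_num)
      (by norm_num)).const_mul K
    rw [mul_zero] at this
    refine this.congr fun n => ?_
    rw [one_div, inv_pow]
    rfl
  rw [add_zero] at a2
  exact le_of_tendsto_of_tendsto' a1 a2 fun n => cum_le h n h0 h1 h2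

theorem FF_sub_le (h : SA N K) {x y : ℝ} (h1 : x ≤ y) : FF N y - FF N x ≤ K * (y - x) := by
  have hK := h.K_nonneg
  rw [FF_clamp y, FF_clamp x]
  have c1 : max 0 (min x 1) ≤ max 0 (min y 1) := max_le_max le_rfl (min_le_min h1 le_rfl)
  have c2 : max 0 (min y 1) ≤ 1 := max_le zero_le_one (min_le_right _ _)
  have c3 : max 0 (min y 1) - max 0 (min x 1) ≤ y - x := by
    rcases le_total y 0 with hy | hy
    · rw [max_eq_left ((min_le_left _ _).trans hy),
        max_eq_left ((min_le_left _ _).trans (h1.trans hy))]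
      linarith
    · rw [max_eq_right (le_min hy zero_le_one)]
      rcases le_total x 1 with hx | hx
      · rw [min_eq_left hx]
        have e1 := min_le_left y 1
        have e2 := le_max_right 0 x
        linarith
      · rw [min_eq_right hx, max_eq_right zero_le_one]
        have e1 := min_le_right y 1
        linarith
  have a1 := FF_le h (le_max_left _ _) c1 c2
  have a2 := h.le _ _ (le_max_left _ _) c1 c2
  have a3 := mul_le_mul_of_nonneg_left c3 hK
  linarith

theorem FF_lip (h : SA N K) : LipschitzWith K.toNNReal (FF N) := by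
  refine LipschitzWith.of_le_add_mul _ fun x y => ?_
  rw [Real.coe_toNNReal K h.K_nonneg, Real.dist_eq]
  rcases le_total x y with hxy | hxy
  · have a1 := FF_mono h hxy
    have a2 : 0 ≤ K * |x - y| := mul_nonneg h.K_nonneg (abs_nonneg _)
    linarith
  · have a1 := FF_sub_le h hxy
    rw [abs_of_nonneg (sub_nonneg.2 hxy)]
    linarith

/-! ### The remainder -/

/-- The remainder. -/
noncomputable def rem (N : ℝ → ℝ → ℝ) (x y : ℝ) : ℝ := N x y - (FF N y - FF N x)

theorem rem_SA (h : SA N K) : SA (rem N) K where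
  nn q q' h0 h1 h2 := by
    have := FF_le h h0 h1 h2
    unfold rem
    linarith
  le q q' h0 h1 h2 := by
    have a1 := h.le q q' h0 h1 h2
    have a2 := FF_mono h h1
    unfold rem
    linarith
  sup q q' q'' h0 h1 h2 h3 := by
    have := h.sup q q' q'' h0 h1 h2 h3
    unfold rem
    linarith

theorem rem_cum_one (h : SA N K) (n : ℕ) : cum (rem N) n 1 = cum N n 1 - FF N 1 := by
  rw [cum_one, cum_one]
  unfold rem
  rw [Finset.sum_sub_distrib, Finset.sum_range_sub (fun i => FF N (dy n i)), dy_top,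
    show dy n 0 = 0 by unfold dy; simp, FF_zero h, sub_zero]

theorem rem_tendsto (h : SA N K) : Tendsto (fun n => cum (rem N) n 1) atTop (𝓝 0) := by
  have := (FF_tendsto h 1).sub_const (FF N 1)
  rw [sub_self] at this
  exact this.congr fun n => (rem_cum_one h n).symm

/-- Fine chains. -/
theorem rem_chain (h : SA N K) {eps : ℝ} (he : 0 < eps) : ∃ del > 0, ∀ (M : ℕ) (x : ℕ → ℝ),
    Monotone x → 0 ≤ x 0 → x M ≤ 1 → (∀ i < M, x (i + 1) - x i ≤ del) →
      ∑ i ∈ range M, rem N (x i) (x (i + 1)) ≤ eps := by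
  have hK := h.K_nonneg
  have hS := rem_SA h
  obtain ⟨n, hn⟩ := ((rem_tendsto h).eventually (gt_mem_nhds (half_pos he))).exists
  have hpow : (0 : ℝ) < 2 ^ n := by positivity
  refine ⟨eps / (2 * (K + 1) * 2 ^ n), by positivity, fun M x hx h0 h1 hd => ?_⟩
  set del := eps / (2 * (K + 1) * 2 ^ n) with hdel
  have hd0 : 0 < del := by positivity
  have x0 : ∀ i, 0 ≤ x i := fun i => h0.trans (hx (Nat.zero_le i))
  have x1 : ∀ i ≤ M, x i ≤ 1 := fun i hi => (hx hi).trans h1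
  have a1 : ∑ i ∈ range M, rem N (x i) (x (i + 1)) ≤ ∑ i ∈ range M,
      ((cum (rem N) n (x (i + 1)) + K * del * ⌈(2 : ℝ) ^ n * x (i + 1)⌉) -
        (cum (rem N) n (x i) + K * del * ⌈(2 : ℝ) ^ n * x i⌉)) := by
    refine Finset.sum_le_sum fun i hi => ?_
    have hi' := Finset.mem_range.1 hi
    have b1 := cum_gen hS n (x0 i) (hx (Nat.le_succ i)) (x1 (i + 1) hi')
    have b2 : K * (x (i + 1) - x i) ≤ K * del := mul_le_mul_of_nonneg_left (hd i hi') hK
    have b3 : (0 : ℝ) ≤ (⌈(2 : ℝ) ^ n * x (i + 1)⌉ : ℝ) - ⌈(2 : ℝ) ^ n * x i⌉ := by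
      have : ⌈(2 : ℝ) ^ n * x i⌉ ≤ ⌈(2 : ℝ) ^ n * x (i + 1)⌉ :=
        Int.ceil_le_ceil (mul_le_mul_of_nonneg_left (hx (Nat.le_succ i)) (by positivity))
      have h3 : (⌈(2 : ℝ) ^ n * x i⌉ : ℝ) ≤ ⌈(2 : ℝ) ^ n * x (i + 1)⌉ := by exact_mod_cast this
      linarith
    have b4 := mul_le_mul_of_nonneg_right b2 b3
    change rem N (x i) (x (i + 1)) ≤ _ at b1
    have b5 : rem N (x i) (x (i + 1)) ≤ cum (rem N) n (x (i + 1)) - cum (rem N) n (x i) +
      K * del * ((⌈(2 : ℝ) ^ n * x (i + 1)⌉ : ℝ) - ⌈(2 : ℝ) ^ n * x i⌉) := b1.trans (by linarith)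
    linarith
  rw [Finset.sum_range_sub (fun i => cum (rem N) n (x i) + K * del * ⌈(2 : ℝ) ^ n * x i⌉)] at a1
  have a2 : cum (rem N) n (x M) ≤ cum (rem N) n 1 := cum_mono hS n h1
  have a3 := cum_nonneg hS n (x 0)
  have a4 : (⌈(2 : ℝ) ^ n * x M⌉ : ℝ) ≤ 2 ^ n := by
    have : ⌈(2 : ℝ) ^ n * x M⌉ ≤ (2 : ℤ) ^ n := by
      rw [Int.ceil_le]
      push_cast
      nlinarith
    exact_mod_cast this
  have a5 : (0 : ℝ) ≤ ⌈(2 : ℝ) ^ n * x 0⌉ := by
    have : 0 ≤ ⌈(2 : ℝ) ^ n * x 0⌉ := Int.ceil_nonneg (mul_nonneg hpow.le h0)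
    exact_mod_cast this
  have a6 : K * del * ⌈(2 : ℝ) ^ n * x M⌉ ≤ K * del * 2 ^ n :=
    mul_le_mul_of_nonneg_left a4 (mul_nonneg hK hd0.le)
  have a7 : 0 ≤ K * del * ⌈(2 : ℝ) ^ n * x 0⌉ := mul_nonneg (mul_nonneg hK hd0.le) a5
  have a8 : K * del * 2 ^ n ≤ eps / 2 := by
    have e1 : K * del * 2 ^ n = (K / (K + 1)) * (eps / 2) := by
      rw [hdel]
      field_simp
    rw [e1]
    have e2 : K / (K + 1) ≤ 1 := (div_le_one (by linarith)).2 (by linarith)
    have e3 : 0 < eps / 2 := by linarith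
    nlinarith
  linarith

/-! ### The pointwise statement -/

theorem cum_le_one (h : SA N K) (n : ℕ) (t : ℝ) : cum N n t ≤ cum N n 1 := by
  rw [cum_clamp n t]
  exact cum_mono h n (max_le zero_le_one (min_le_right _ _))

/-- The gauge. -/
theorem gauge (h : SA N K) : ∃ (nk : ℕ → ℕ) (H : ℝ → ℝ), Monotone H ∧ ∀ k x y, x ≤ y →
    2 ^ k * (cum (rem N) (nk k) y - cum (rem N) (nk k) x) ≤ H y - H x := by
  have hS := rem_SA h
  have ex : ∀ k : ℕ, ∃ n, cum (rem N) n 1 < (1 / 4 : ℝ) ^ k := fun k =>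
    ((rem_tendsto h).eventually (gt_mem_nhds (by positivity))).exists
  choose nk hnk using ex
  have sm : ∀ t, Summable fun k : ℕ => 2 ^ k * cum (rem N) (nk k) t := fun t => by
    refine Summable.of_nonneg_of_le (fun k => mul_nonneg (by positivity) (cum_nonneg hS _ t))
      (fun k => ?_) (summable_geometric_two)
    calc 2 ^ k * cum (rem N) (nk k) t ≤ 2 ^ k * (1 / 4 : ℝ) ^ k :=
          mul_le_mul_of_nonneg_left ((cum_le_one hS _ t).trans (hnk k).le) (by positivity)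
      _ = (1 / 2 : ℝ) ^ k := by
          rw [← mul_pow]
          norm_num
  refine ⟨nk, fun t => ∑' k, 2 ^ k * cum (rem N) (nk k) t, fun s t hst => ?_, fun k x y hxy => ?_⟩
  · exact (sm s).tsum_le_tsum (fun k => mul_le_mul_of_nonneg_left (cum_mono hS _ hst)
      (by positivity)) (sm t)
  · have e := ((sm y).tsum_sub (sm x)).symm
    rw [e]
    have s1 := (sm y).sub (sm x)
    have := s1.le_tsum k (fun j _ => by
      have a1 : 2 ^ j * cum (rem N) (nk j) x ≤ 2 ^ j * cum (rem N) (nk j) y :=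
        mul_le_mul_of_nonneg_left (cum_mono hS _ hxy) (by positivity)
      linarith)
    rw [mul_sub]
    exact this

/-- The pointwise form of differentiability of an interval function. -/
def Dat (N : ℝ → ℝ → ℝ) (b q : ℝ) : Prop := ∀ eps > 0, ∃ del > 0, ∀ x y, 0 ≤ x → x ≤ q → q ≤ y →
  y ≤ 1 → y - x ≤ del → |N x y - b * (y - x)| ≤ eps * (y - x)

theorem point (h : SA N K) : ∀ᵐ q, q ∈ Ioo (0 : ℝ) 1 →
    HasDerivAt (FF N) (deriv (FF N) q) q ∧ Dat N (deriv (FF N) q) q := by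
  have hS := rem_SA h
  obtain ⟨nk, H, Hm, Hk⟩ := gauge h
  have hdy : (Set.range fun p : ℕ × ℕ => dy p.1 p.2).Countable := Set.countable_range _
  filter_upwards [(FF_mono h).ae_differentiableAt, Hm.ae_differentiableAt,
    hdy.ae_notMem volume] with q hF hH hq hq01
  refine ⟨hF.hasDerivAt, fun eps he => ?_⟩
  have b0 := (Hm.deriv_nonneg : 0 ≤ deriv H q)
  obtain ⟨k, hk⟩ : ∃ k : ℕ, (1 / 2 : ℝ) ^ k < eps / 2 / (deriv H q + 1) :=
    exists_pow_lt_of_lt_one (by positivity) (by norm_num)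
  set n := nk k with hn
  set j := ⌊(2 : ℝ) ^ n * q⌋₊ with hj
  have hpow : (0 : ℝ) < 2 ^ n := by positivity
  have hne : ∀ i, dy n i ≠ q := fun i e => hq ⟨(n, i), e⟩
  have hj1 : dy n j < q := by
    refine lt_of_le_of_ne ?_ (hne j)
    unfold dy
    rw [div_le_iff₀ hpow, mul_comm]
    exact Nat.floor_le (mul_nonneg hpow.le hq01.1.le)
  have hj2 : q < dy n (j + 1) := by
    unfold dy
    rw [lt_div_iff₀ hpow, mul_comm]
    push_cast
    exact Nat.lt_floor_add_one _
  have hj3 : j < 2 ^ n := by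
    have a1 : (j : ℝ) < 2 ^ n := by
      have a2 : (j : ℝ) ≤ 2 ^ n * q := Nat.floor_le (mul_nonneg hpow.le hq01.1.le)
      have a3 : (2 : ℝ) ^ n * q < 2 ^ n * 1 := mul_lt_mul_of_pos_left hq01.2 hpow
      linarith
    exact_mod_cast a1
  have ev1 := (hF.hasDerivAt.isLittleO).def (half_pos he)
  have ev2 := (hH.hasDerivAt.isLittleO).def one_pos
  have ev3 : ∀ᶠ y in 𝓝 q, dy n j < y := lt_mem_nhds hj1
  have ev4 : ∀ᶠ y in 𝓝 q, y < dy n (j + 1) := gt_mem_nhds hj2
  obtain ⟨del, hdel, hall⟩ := Metric.eventually_nhds_iff.1 ((ev1.and ev2).and (ev3.and ev4))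
  refine ⟨del / 2, half_pos hdel, fun x y x0 xq qy y1 hxy => ?_⟩
  have dx : dist x q < del := by
    rw [Real.dist_eq, abs_of_nonpos (by linarith)]
    linarith
  have dyy : dist y q < del := by
    rw [Real.dist_eq, abs_of_nonneg (by linarith)]
    linarith
  obtain ⟨⟨f1, h1⟩, c1, -⟩ := hall dx
  obtain ⟨⟨f2, h2⟩, -, c2⟩ := hall dyy
  simp only [Real.norm_eq_abs, smul_eq_mul] at f1 h1 f2 h2
  rw [abs_of_nonpos (sub_nonpos.2 xq : x - q ≤ 0)] at f1 h1
  rw [abs_of_nonneg (sub_nonneg.2 qy : 0 ≤ y - q)] at f2 h2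
  have r0 := hS.nn x y x0 (xq.trans qy) y1
  have r1 := cum_cell hS hj3 c1.le (xq.trans qy) c2.le
  have r2 := Hk k x y (xq.trans qy)
  have r3 : H y - H x ≤ (deriv H q + 1) * (y - x) := by
    have a1 := (abs_le.1 h1).1
    have a2 := (abs_le.1 h2).2
    nlinarith
  have r4 : rem N x y ≤ eps / 2 * (y - x) := by
    have p2 : (0 : ℝ) < 2 ^ k := by positivity
    have a1 : 2 ^ k * rem N x y ≤ (deriv H q + 1) * (y - x) := by
      have := mul_le_mul_of_nonneg_left r1 p2.le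
      linarith
    have a2 : rem N x y = (1 / 2 : ℝ) ^ k * (2 ^ k * rem N x y) := by
      rw [← mul_assoc, ← mul_pow]
      norm_num
    have a3 : (1 / 2 : ℝ) ^ k * (deriv H q + 1) ≤ eps / 2 := by
      rw [lt_div_iff₀ (by linarith)] at hk
      exact hk.le
    calc rem N x y = (1 / 2 : ℝ) ^ k * (2 ^ k * rem N x y) := a2
      _ ≤ (1 / 2 : ℝ) ^ k * ((deriv H q + 1) * (y - x)) :=
          mul_le_mul_of_nonneg_left a1 (by positivity)
      _ = ((1 / 2 : ℝ) ^ k * (deriv H q + 1)) * (y - x) := by ring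
      _ ≤ eps / 2 * (y - x) := mul_le_mul_of_nonneg_right a3 (by linarith)
  have e1 : N x y - deriv (FF N) q * (y - x) = rem N x y +
      ((FF N y - FF N q - (y - q) * deriv (FF N) q) -
        (FF N x - FF N q - (x - q) * deriv (FF N) q)) := by
    unfold rem
    ring
  rw [e1]
  obtain ⟨f11, f12⟩ := abs_le.1 f1
  obtain ⟨f21, f22⟩ := abs_le.1 f2
  rw [abs_le]
  constructor <;> nlinarith

/-! ### The theorem -/

theorem deriv_le (h : SA N K) (q : ℝ) : deriv (FF N) q ≤ K := by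
  have := norm_deriv_le_of_lipschitz (x₀ := q) (FF_lip h)
  rw [Real.coe_toNNReal K h.K_nonneg] at this
  exact (le_abs_self _).trans this

theorem integral_deriv (h : SA N K) (x y : ℝ) :
    ∫ t in x..y, deriv (FF N) t = FF N y - FF N x :=
  ((FF_lip h).lipschitzOnWith).absolutelyContinuousOnInterval.integral_deriv_eq_sub

/-- **Superadditive interval functions.** -/
theorem main (h : SA N K) : ∃ F b : ℝ → ℝ, Monotone F ∧ F 0 = 0 ∧ LipschitzWith K.toNNReal F ∧
    Measurable b ∧ (∀ q, 0 ≤ b q) ∧ (∀ q, b q ≤ K) ∧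
    (∀ x y, ∫ t in x..y, b t = F y - F x) ∧
    (∀ x y, 0 ≤ x → x ≤ y → y ≤ 1 → F y - F x ≤ N x y) ∧
    (∀ᵐ q, q ∈ Ioo (0 : ℝ) 1 → HasDerivAt F (b q) q ∧ Dat N (b q) q) ∧
    (∀ eps > 0, ∃ del > 0, ∀ (M : ℕ) (x : ℕ → ℝ), Monotone x → 0 ≤ x 0 → x M ≤ 1 →
      (∀ i < M, x (i + 1) - x i ≤ del) →
        ∑ i ∈ range M, |N (x i) (x (i + 1)) - (F (x (i + 1)) - F (x i))| ≤ eps) := by
  refine ⟨FF N, deriv (FF N), FF_mono h, FF_zero h, FF_lip h, measurable_deriv _,
    fun q => (FF_mono h).deriv_nonneg, deriv_le h, integral_deriv h,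
    fun x y h0 h1 h2 => FF_le h h0 h1 h2, point h, fun eps he => ?_⟩
  obtain ⟨del, hd, H⟩ := rem_chain h he
  refine ⟨del, hd, fun M x hx h0 h1 hm => ?_⟩
  refine le_trans (le_of_eq ?_) (H M x hx h0 h1 hm)
  refine Finset.sum_congr rfl fun i hi => ?_
  have := (rem_SA h).nn (x i) (x (i + 1)) (h0.trans (hx (Nat.zero_le i))) (hx (Nat.le_succ i))
    ((hx (Finset.mem_range.1 hi)).trans h1)
  exact abs_of_nonneg this

end Pool.SUPA
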