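import Pool.Agent.H39.GEN.Strip

/-!
# Almost every row corresponds to a good radius

`f Q = Lv P (Q, 0)` is the radius at which the diagonal threshold reaches the row `Q`. For almost
every `Q` with `f' Q ≠ 0` the radius `a = f Q` is outside a given null set, the diagonal threshold
`P a a` has the value `Q` and the derivative `1 / f' Q` at `a`, and the diagonal levels of the other
coordinates are differentiable at `a`.
-/

set_option autoImplicit false

namespace Pool.STR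

open MeasureTheory Set Filter Topology Pool.LEV
open scoped ENNReal

/-- Null sets of values pull back to null sets, where the derivative is positive. -/
theorem null_pull {f : ℝ → ℝ} (hf : Monotone f) {Z : Set ℝ} (hZ : volume Z = 0) :
    ∀ᵐ Q : ℝ, DifferentiableAt ℝ f Q → 0 < deriv f Q → f Q ∉ Z := by
  classical
  obtain ⟨W, hW⟩ : ∃ W : Set ℝ, W = toMeasurable volume Z := ⟨_, rfl⟩
  have hWm : MeasurableSet W := by rw [hW]; exact measurableSet_toMeasurable _ _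
  have hW0 : volume W = 0 := by rw [hW, measure_toMeasurable]; exact hZ
  have hZW : Z ⊆ W := by rw [hW]; exact subset_toMeasurable _ _
  have hn : ∀ n : ℕ, ∀ᵐ Q : ℝ, Q ∈ {x | DifferentiableAt ℝ f x ∧ 1 / ((n : ℝ) + 1) < deriv f x} →
      f Q ∉ W := by
    intro n
    have he : (0 : ℝ) < 1 / ((n : ℝ) + 1) := by positivity
    have h1 := rows_le hf he (W.indicator fun _ => (1 : ℝ≥0∞))
    have h2 : ∫⁻ a, W.indicator (fun _ => (1 : ℝ≥0∞)) a = 0 := by
      have : (W.indicator fun _ => (1 : ℝ≥0∞)) = W.indicator 1 := rfl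
      rw [this, lintegral_indicator_one hWm, hW0]
    rw [h2, nonpos_iff_eq_zero, mul_eq_zero] at h1
    rcases h1 with h1 | h1
    · rw [ENNReal.ofReal_eq_zero] at h1
      exact absurd he (not_lt.2 h1)
    have hmf : Measurable fun x => W.indicator (fun _ => (1 : ℝ≥0∞)) (f x) :=
      (measurable_const.indicator hWm).comp hf.measurable
    rw [lintegral_eq_zero_iff hmf, Filter.EventuallyEq, ae_restrict_iff' (meas_pos f _)] at h1
    filter_upwards [h1] with Q hQ hQm hc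
    have := hQ hQm
    rw [indicator_of_mem hc] at this
    exact one_ne_zero this
  filter_upwards [ae_all_iff.2 hn] with Q hQ hd h0 hc
  obtain ⟨n, hn⟩ := exists_nat_one_div_lt h0
  exact hQ n ⟨hd, hn⟩ (hZW hc)

variable {P : ℝ → ℝ → ℝ}

/-- The diagonal threshold is the inverse of `f`. -/
theorem diag_ge (h : Law P) {Q a : ℝ} (h0 : 0 ≤ Q) (h1 : Q ≤ 1) (h2 : Lv P (Q, 0) < a)
    (h3 : a ≤ 1) : Q ≤ P a a := by
  rw [Lv_eq le_rfl zero_le_one h0 h1] at h2
  have := le_of_lev_lt h le_rfl zero_le_one h2 h3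
  rwa [sub_zero] at this

theorem diag_lt {Q a : ℝ} (h0 : 0 ≤ Q) (h1 : Q ≤ 1) (h2 : a < Lv P (Q, 0))
    (h3 : 0 ≤ a) : P a a < Q := by
  rw [Lv_eq le_rfl zero_le_one h0 h1] at h2
  have := lt_of_lt_lev zero_le_one h3 h2
  rwa [sub_zero] at this

/-- The radius of a row is at most one. -/
theorem Lv_le_one (Q : ℝ) {q : ℝ} : Lv P (Q, q) ≤ 1 := by
  unfold Lv
  exact lev_le_one (cl_le_one _)

/-- **The diagonal threshold at the radius of a row.** -/
theorem diag_deriv (h : Law P) {Q : ℝ} (h0 : 0 < Q) (h1 : Q < 1) (ha : 0 < Lv P (Q, 0))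
    (hd : DifferentiableAt ℝ (fun Q => Lv P (Q, 0)) Q)
    (hc : 0 < deriv (fun Q => Lv P (Q, 0)) Q) :
    Lv P (Q, 0) < 1 ∧ P (Lv P (Q, 0)) (Lv P (Q, 0)) = Q ∧
      HasDerivAt (fun a => P a a) (deriv (fun Q => Lv P (Q, 0)) Q)⁻¹ (Lv P (Q, 0)) := by
  set c := deriv (fun Q => Lv P (Q, 0)) Q with hcdef
  set a := Lv P (Q, 0) with hadef
  have ha1 : a < 1 := by
    refine lt_of_le_of_ne (Lv_le_one Q) fun hcon => ?_
    have hmax : IsLocalMax (fun Q => Lv P (Q, 0)) Q :=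
      Filter.Eventually.of_forall fun Q' => by
        show Lv P (Q', 0) ≤ Lv P (Q, 0)
        rw [← hadef, hcon]
        exact Lv_le_one Q'
    exact hc.ne' hmax.deriv_eq_zero
  -- the key estimate
  have key : ∀ η > 0, ∃ δ > 0, ∀ v s : ℝ, 0 ≤ s → |v| ≤ s → 0 < s → s < δ →
      Q + v / c - η * s ≤ P (a + v) (a + v) ∧ P (a + v) (a + v) ≤ Q + v / c + η * s := by
    intro η hη
    have hck : 0 < 1 / c + η := by positivity
    have he : 0 < c * η / (2 * (1 / c + η)) := by positivity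
    obtain ⟨d1, hd1, hf⟩ := Metric.eventually_nhds_iff.1
      ((hd.hasDerivAt.isLittleO).def he)
    have hm : 0 < min (min d1 (min Q (1 - Q)) / (1 / c + η)) (min a (1 - a)) :=
      lt_min (div_pos (lt_min hd1 (lt_min h0 (by linarith))) hck) (lt_min ha (by linarith))
    refine ⟨_, hm, fun v s _ hv hs hsd => ?_⟩
    have b1 : s * (1 / c + η) < min d1 (min Q (1 - Q)) := by
      have := lt_of_lt_of_le hsd (min_le_left _ _)
      rwa [lt_div_iff₀ hck] at this
    have b2 : s < min a (1 - a) := lt_of_lt_of_le hsd (min_le_right _ _)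
    have c1 : s * (1 / c + η) < d1 := lt_of_lt_of_le b1 (min_le_left _ _)
    have c2 : s * (1 / c + η) < Q := lt_of_lt_of_le b1 ((min_le_right _ _).trans (min_le_left _ _))
    have c3 : s * (1 / c + η) < 1 - Q :=
      lt_of_lt_of_le b1 ((min_le_right _ _).trans (min_le_right _ _))
    have c4 : s < a := lt_of_lt_of_le b2 (min_le_left _ _)
    have c5 : s < 1 - a := lt_of_lt_of_le b2 (min_le_right _ _)
    obtain ⟨v1, v2⟩ := abs_le.1 hv
    -- the bound for `f`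
    have hft : ∀ t : ℝ, |t| ≤ s * (1 / c + η) →
        |Lv P (Q + t, 0) - a - t * c| ≤ c * η * s / 2 := by
      intro t ht
      have hdist : dist (Q + t) Q < d1 := by
        rw [Real.dist_eq, add_sub_cancel_left]
        exact lt_of_le_of_lt ht c1
      have := hf hdist
      rw [Real.norm_eq_abs, Real.norm_eq_abs, add_sub_cancel_left, smul_eq_mul] at this
      refine this.trans ?_
      calc c * η / (2 * (1 / c + η)) * |t| ≤ c * η / (2 * (1 / c + η)) * (s * (1 / c + η)) :=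
            mul_le_mul_of_nonneg_left ht he.le
        _ = c * η * s / 2 := by
            field_simp
    have hvc : |v / c| ≤ s * (1 / c) := by
      rw [abs_div, abs_of_pos hc, div_eq_mul_one_div]
      exact mul_le_mul_of_nonneg_right hv (by positivity)
    obtain ⟨w1, w2⟩ := abs_le.1 hvc
    have hηs : 0 < η * s := mul_pos hη hs
    have hcηs : 0 < c * η * s := mul_pos (mul_pos hc hη) hs
    have hvcc : v / c * c = v := div_mul_cancel₀ v hc.ne'
    constructor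
    · -- lower bound
      have ht : |v / c - η * s| ≤ s * (1 / c + η) := by
        rw [abs_le]
        constructor <;> nlinarith
      obtain ⟨t1, t2⟩ := abs_le.1 ht
      have e1 := (abs_le.1 (hft _ ht)).2
      have e2 : (v / c - η * s) * c = v - c * η * s := by
        rw [sub_mul, hvcc]
        ring
      have e3 : Lv P (Q + (v / c - η * s), 0) < a + v := by
        rw [e2] at e1
        linarith
      have := diag_ge h (by linarith) (by linarith) e3 (by linarith)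
      linarith
    · have ht : |v / c + η * s| ≤ s * (1 / c + η) := by
        rw [abs_le]
        constructor <;> nlinarith
      obtain ⟨t1, t2⟩ := abs_le.1 ht
      have e1 := (abs_le.1 (hft _ ht)).1
      have e2 : (v / c + η * s) * c = v + c * η * s := by
        rw [add_mul, hvcc]
        ring
      have e3 : a + v < Lv P (Q + (v / c + η * s), 0) := by
        rw [e2] at e1
        linarith
      have := diag_lt (P := P) (by linarith) (by linarith) e3 (by linarith)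
      linarith
  have hval : P a a = Q := by
    have h2 : ∀ e > 0, |P a a - Q| ≤ e := by
      intro e he
      obtain ⟨δ, hδ, hk⟩ := key 1 one_pos
      have hs : 0 < min e (δ / 2) := lt_min he (half_pos hδ)
      have := hk 0 (min e (δ / 2)) hs.le (by rw [abs_zero]; exact hs.le) hs
        (lt_of_le_of_lt (min_le_right _ _) (half_lt_self hδ))
      rw [add_zero, zero_div, add_zero, one_mul] at this
      have h3 := min_le_left e (δ / 2)
      rw [abs_le]
      constructor <;> linarith [this.1, this.2]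
    have h3 : |P a a - Q| ≤ 0 := le_of_forall_pos_le_add fun e he => by
      rw [zero_add]
      exact h2 e he
    have h4 := abs_nonpos_iff.1 h3
    linarith
  refine ⟨ha1, hval, ?_⟩
  rw [hasDerivAt_iff_isLittleO, Asymptotics.isLittleO_iff]
  intro η hη
  obtain ⟨δ, hδ, hk⟩ := key η hη
  rw [Metric.eventually_nhds_iff]
  refine ⟨δ, hδ, fun x hx => ?_⟩
  rw [Real.dist_eq] at hx
  rw [Real.norm_eq_abs, Real.norm_eq_abs, smul_eq_mul]
  show |P x x - P a a - (x - a) * c⁻¹| ≤ η * |x - a|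
  rcases eq_or_ne x a with rfl | hne
  · simp
  have hpos : 0 < |x - a| := abs_pos.2 (sub_ne_zero.2 hne)
  obtain ⟨k1, k2⟩ := hk (x - a) |x - a| hpos.le le_rfl hpos hx
  rw [add_sub_cancel] at k1 k2
  rw [hval, ← div_eq_mul_inv, abs_le]
  constructor <;> linarith

/-- Window free rows: the threshold on long windows. -/
theorem wf_pt (h : Law P) {Q : ℝ} (h0 : 0 < Q) (h1 : Q < 1) (ha1 : Lv P (Q, 0) < 1)
    (hw : WfN P Q) {ε : ℝ} (hε : 0 < ε) : ∃ q₁ : ℝ, 0 < q₁ ∧ ∀ q : ℝ, 0 < q → q < q₁ →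
      Q ≤ P (Lv P (Q, 0) + ε * q) (Lv P (Q, 0) - q) := by
  obtain ⟨q₁, hq₁, H⟩ := hw (ε / (2 * (1 + ε))) (by positivity)
  have hm : 0 < min (min q₁ 1 / (1 + ε)) ((1 - Lv P (Q, 0)) / ε) :=
    lt_min (div_pos (lt_min hq₁ one_pos) (by linarith)) (div_pos (by linarith) hε)
  refine ⟨_, hm, fun q hq hlt => ?_⟩
  have b1 : (1 + ε) * q < min q₁ 1 := by
    have := lt_of_lt_of_le hlt (min_le_left _ _)
    rw [lt_div_iff₀ (by linarith)] at this
    linarith
  have b2 : ε * q < 1 - Lv P (Q, 0) := by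
    have := lt_of_lt_of_le hlt (min_le_right _ _)
    rw [lt_div_iff₀ hε] at this
    linarith
  have c1 := lt_of_lt_of_le b1 (min_le_left _ _)
  have c2 := lt_of_lt_of_le b1 (min_le_right _ _)
  have c0 : 0 < (1 + ε) * q := by positivity
  have hH := H ((1 + ε) * q) c0 c1
  have e1 : ε / (2 * (1 + ε)) * ((1 + ε) * q) = ε * q / 2 := by
    field_simp
  rw [e1] at hH
  have hεq : 0 < ε * q := mul_pos hε hq
  have hlt2 : Lv P (Q, (1 + ε) * q) < Lv P (Q, 0) + ε * q := by linarith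
  rw [Lv_eq c0.le c2.le h0.le h1.le] at hlt2
  have := le_of_lev_lt h c0.le c2.le hlt2 (by linarith)
  have e2 : Lv P (Q, 0) + ε * q - (1 + ε) * q = Lv P (Q, 0) - q := by ring
  rwa [e2] at this

/-- The diagonal level, extended. -/
theorem diag_mono {L : ℝ → ℝ → ℝ} (h : Law L) : Monotone fun a => L (cl a) (cl a) := fun _ _ hxy =>
  h.mono (cl_nonneg _) le_rfl (cl_mono hxy) (cl_mono hxy) le_rfl (cl_le_one _)

/-- Diagonal levels are differentiable almost everywhere. -/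
theorem diag_ae {L : ℝ → ℝ → ℝ} (h : Law L) : ∀ᵐ a : ℝ, 0 < a → a < 1 →
    DifferentiableAt ℝ (fun a => L a a) a := by
  filter_upwards [(diag_mono h).ae_differentiableAt] with a ha h0 h1
  refine ha.congr_of_eventuallyEq ?_
  filter_upwards [Ioo_mem_nhds h0 h1] with x hx
  rw [cl_of_mem hx.1.le hx.2.le]

/-- The slope of a diagonal level which is not saturated. -/
theorem diag_slope {L : ℝ → ℝ → ℝ} (h : Law L) {a s : ℝ} (h0 : 0 < a) (h1 : a < 1)
    (hd : HasDerivAt (fun a => L a a) s a) (hl : L a a < 1) : 1 ≤ s := by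
  have h2 : Tendsto (fun v : ℝ => v⁻¹ • (L (a + v) (a + v) - L a a)) (𝓝[>] 0) (𝓝 s) :=
    (hasDerivAt_iff_tendsto_slope_zero.1 hd).mono_left
      (nhdsWithin_mono _ fun x hx => ne_of_gt hx)
  refine ge_of_tendsto h2 ?_
  have hm : 0 < min (1 - a) (1 - L a a) := lt_min (by linarith) (by linarith)
  filter_upwards [Ioo_mem_nhdsGT hm] with v hv
  have v1 := lt_of_lt_of_le hv.2 (min_le_left _ _)
  have v2 := lt_of_lt_of_le hv.2 (min_le_right _ _)
  have e1 := h.slope a a v h0.le le_rfl hv.1.le (by linarith)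
  rw [min_eq_right (by linarith)] at e1
  have e2 := h.mono_w (a + v) a (a + v) h0.le (by linarith [hv.1]) le_rfl (by linarith)
  rw [smul_eq_mul, ← div_eq_inv_mul, le_div_iff₀ hv.1]
  linarith

/-! ### Density points -/

/-- Almost every point of a set is a density point: small intervals near it meet the set. -/
theorem dens (W : Set ℝ) : ∀ᵐ Q : ℝ, Q ∈ W → ∀ A κ : ℝ, 0 < κ → ∃ r₁ : ℝ, 0 < r₁ ∧
    ∀ r : ℝ, 0 < r → r < r₁ → ∀ Q' : ℝ, |Q' - Q| ≤ A * r → ∃ Q'' ∈ W, |Q'' - Q'| ≤ κ * r := by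
  have h1 : ∀ K : ℕ, ∀ᵐ Q : ℝ, Q ∈ W → ∀ (w δ : ℕ → ℝ), Tendsto δ atTop (𝓝[>] 0) →
      (∀ᶠ j in atTop, Q ∈ Metric.closedBall (w j) (K * δ j)) →
      Tendsto (fun j => volume (W ∩ Metric.closedBall (w j) (δ j)) /
        volume (Metric.closedBall (w j) (δ j))) atTop (𝓝 1) := by
    intro K
    refine ae_imp_of_ae_restrict ?_
    filter_upwards [IsUnifLocDoublingMeasure.ae_tendsto_measure_inter_div (μ := volume) W (K : ℝ)]
      with Q hQ w δ h1 h2
    exact hQ w δ h1 h2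
  filter_upwards [ae_all_iff.2 h1] with Q hQ hW A κ hκ
  by_contra hcon
  push Not at hcon
  have h2 : ∀ n : ℕ, ∃ r : ℝ, 0 < r ∧ r < 1 / ((n : ℝ) + 1) ∧ ∃ Q' : ℝ, |Q' - Q| ≤ A * r ∧
      ∀ Q'' ∈ W, κ * r < |Q'' - Q'| := fun n => hcon _ (by positivity)
  choose r hr0 hr1 w hw hno using h2
  obtain ⟨K, hK⟩ := exists_nat_ge (A / κ)
  have hδ : Tendsto (fun n => κ * r n) atTop (𝓝[>] 0) := by
    rw [tendsto_nhdsWithin_iff]
    refine ⟨?_, Eventually.of_forall fun n => mul_pos hκ (hr0 n)⟩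
    have h3 : Tendsto (fun n : ℕ => κ * (1 / ((n : ℝ) + 1))) atTop (𝓝 (κ * 0)) :=
      tendsto_one_div_add_atTop_nhds_zero_nat.const_mul κ
    rw [mul_zero] at h3
    exact squeeze_zero (fun n => (mul_pos hκ (hr0 n)).le)
      (fun n => mul_le_mul_of_nonneg_left (hr1 n).le hκ.le) h3
  have h4 := hQ K hW w (fun n => κ * r n) hδ (Eventually.of_forall fun n => by
    rw [Metric.mem_closedBall, Real.dist_eq, abs_sub_comm]
    refine (hw n).trans ?_
    have h5 : A ≤ K * κ := by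
      rwa [div_le_iff₀ hκ] at hK
    calc A * r n ≤ K * κ * r n := mul_le_mul_of_nonneg_right h5 (hr0 n).le
      _ = K * (κ * r n) := by ring)
  have h6 : ∀ n, W ∩ Metric.closedBall (w n) (κ * r n) = ∅ := by
    intro n
    rw [Set.eq_empty_iff_forall_notMem]
    rintro x ⟨hx1, hx2⟩
    rw [Metric.mem_closedBall, Real.dist_eq] at hx2
    exact absurd hx2 (not_le.2 (hno n x hx1))
  have h7 : (fun n => volume (W ∩ Metric.closedBall (w n) (κ * r n)) /
      volume (Metric.closedBall (w n) (κ * r n))) = fun _ => 0 := by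
    funext n
    rw [h6 n, measure_empty, ENNReal.zero_div]
  rw [h7] at h4
  exact zero_ne_one (tendsto_nhds_unique tendsto_const_nhds h4)

/-- The rows near `Q` are window free, uniformly. -/
def WfA (P : ℝ → ℝ → ℝ) (Q : ℝ) : Prop := ∀ A ε : ℝ, 0 < A → 0 < ε → ∃ r₁ : ℝ, 0 < r₁ ∧
  ∀ r : ℝ, 0 < r → r < r₁ → ∀ Q' q' : ℝ, |Q' - Q| ≤ A * r → 0 ≤ q' → q' ≤ A * r →
    Lv P (Q', q') - Lv P (Q', 0) ≤ ε * r

/-- **Almost every window free row is uniformly window free.** -/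
theorem wfa_ae (h : Law P) : ∀ᵐ Q : ℝ, WfN P Q → WfA P Q := by
  obtain ⟨W, hW⟩ : ∃ W : ℕ → ℕ → Set ℝ, W = fun (k n : ℕ) => {Q | ∀ q, 0 < q → q < 1 / ((n : ℝ) + 1) →
      Lv P (Q, q) - Lv P (Q, 0) ≤ 1 / ((k : ℝ) + 1) * q} := ⟨_, rfl⟩
  have h1 : ∀ᵐ Q : ℝ, ∀ k n, Q ∈ W k n → ∀ A κ : ℝ, 0 < κ → ∃ r₁ : ℝ, 0 < r₁ ∧
      ∀ r : ℝ, 0 < r → r < r₁ → ∀ Q' : ℝ, |Q' - Q| ≤ A * r →
        ∃ Q'' ∈ W k n, |Q'' - Q'| ≤ κ * r :=
    ae_all_iff.2 fun k => ae_all_iff.2 fun n => dens (W k n)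
  filter_upwards [h1] with Q hQ hwf A ε hA hε
  obtain ⟨k, hk⟩ := exists_nat_one_div_lt (show (0 : ℝ) < ε / (3 * A) by positivity)
  obtain ⟨q₁, hq₁, hwf'⟩ := hwf (1 / ((k : ℝ) + 1)) (by positivity)
  obtain ⟨n, hn⟩ := exists_nat_one_div_lt hq₁
  have hmem : Q ∈ W k n := by
    rw [hW]
    exact fun q hq hq' => hwf' q hq (hq'.trans hn)
  obtain ⟨r₁, hr₁, hd⟩ := hQ k n hmem A (ε / 3) (by positivity)
  refine ⟨min r₁ (1 / ((n : ℝ) + 1) / A), lt_min hr₁ (by positivity),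
    fun r hr hrr Q' q' hQ' hq0 hqA => ?_⟩
  obtain ⟨Q'', hQ'', hdist⟩ := hd r hr (hrr.trans_le (min_le_left _ _)) Q' hQ'
  have hAr : A * r < 1 / ((n : ℝ) + 1) := by
    have := hrr.trans_le (min_le_right _ _)
    rw [lt_div_iff₀ hA] at this
    linarith
  have e1 : Lv P (Q'', q') - Lv P (Q'', 0) ≤ ε / 3 * r := by
    rcases hq0.eq_or_lt with h0 | h0
    · rw [← h0, sub_self]
      positivity
    · rw [hW] at hQ''
      refine (hQ'' q' h0 (hqA.trans_lt hAr)).trans ?_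
      calc 1 / ((k : ℝ) + 1) * q' ≤ ε / (3 * A) * (A * r) :=
            mul_le_mul hk.le hqA hq0 (by positivity)
        _ = ε / 3 * r := by
            field_simp
  have l1 := (Lv_lip h).dist_le_mul (Q', q') (Q'', q')
  have l2 := (Lv_lip h).dist_le_mul (Q', (0 : ℝ)) (Q'', 0)
  rw [Real.dist_eq, Prod.dist_eq, NNReal.coe_one, one_mul] at l1 l2
  simp only [Real.dist_eq, sub_self, abs_zero] at l1 l2
  rw [max_eq_left (abs_nonneg _)] at l1 l2
  rw [abs_sub_comm Q' Q''] at l1 l2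
  have l3 := (abs_le.1 l1).2
  have l4 := (abs_le.1 l2).1
  linarith

/-- The threshold is window free in the whole triangle. -/
theorem tri_pt (h : Law P) {Q a s : ℝ} (h0 : 0 < Q) (h1 : Q < 1) (a0 : 0 < a) (a1 : a < 1)
    (hv : P a a = Q) (hs : 0 ≤ s) (hd : HasDerivAt (fun a => P a a) s a) (hw : WfA P Q)
    {A ε : ℝ} (hA : 0 < A) (hε : 0 < ε) : ∃ r₁ : ℝ, 0 < r₁ ∧ ∀ r : ℝ, 0 < r → r < r₁ →
      ∀ a' w', a - A * r ≤ w' → w' ≤ a' → a' ≤ a + A * r → P a' a' - ε * r ≤ P a' w' := by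
  -- the constants
  obtain ⟨θ, hθ⟩ : ∃ θ : ℝ, θ = min 1 (ε / (4 * (s + 1))) := ⟨_, rfl⟩
  have θ0 : 0 < θ := by
    rw [hθ]
    exact lt_min one_pos (by positivity)
  have θ1 : θ ≤ 1 := by
    rw [hθ]
    exact min_le_left _ _
  have θs : s * θ ≤ ε / 4 := by
    have e1 : θ ≤ ε / (4 * (s + 1)) := by
      rw [hθ]
      exact min_le_right _ _
    have e2 : (s + 1) * (ε / (4 * (s + 1))) = ε / 4 := by
      field_simp
    nlinarith
  obtain ⟨η, hη⟩ : ∃ η : ℝ, η = min 1 (ε / (4 * (A + 1))) := ⟨_, rfl⟩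
  have η0 : 0 < η := by
    rw [hη]
    exact lt_min one_pos (by positivity)
  have η1 : η ≤ 1 := by
    rw [hη]
    exact min_le_left _ _
  have ηA : η * (A + 1) ≤ ε / 4 := by
    have e1 : η ≤ ε / (4 * (A + 1)) := by
      rw [hη]
      exact min_le_right _ _
    have e2 : ε / (4 * (A + 1)) * (A + 1) = ε / 4 := by
      field_simp
    nlinarith
  have hB : 0 < 2 * A + (s + 1) * (A + 1) + 2 * ε := by positivity
  obtain ⟨B, hBd⟩ : ∃ B : ℝ, B = 2 * A + (s + 1) * (A + 1) + 2 * ε := ⟨_, rfl⟩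
  rw [← hBd] at hB
  obtain ⟨r₂, hr₂, hwf⟩ := hw B (θ / 2) hB (by positivity)
  obtain ⟨d, hd0, hdd⟩ := Metric.eventually_nhds_iff.1 ((hd.isLittleO).def η0)
  have hm : 0 < min r₂ (min (d / (A + 1)) (min (min a (1 - a) / (A + 1))
      (min Q (1 - Q) / B))) := by
    refine lt_min hr₂ (lt_min (by positivity) (lt_min (div_pos (lt_min a0 (by linarith))
      (by linarith)) (div_pos (lt_min h0 (by linarith)) hB)))
  refine ⟨_, hm, fun r hr hrr a' w' hw1 hw2 hw3 => ?_⟩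
  have r1 := hrr.trans_le (min_le_left _ _)
  have r2 := (hrr.trans_le (min_le_right _ _)).trans_le (min_le_left _ _)
  have r3 := ((hrr.trans_le (min_le_right _ _)).trans_le (min_le_right _ _)).trans_le
    (min_le_left _ _)
  have r4 := ((hrr.trans_le (min_le_right _ _)).trans_le (min_le_right _ _)).trans_le
    (min_le_right _ _)
  rw [lt_div_iff₀ (by linarith)] at r2 r3
  rw [lt_div_iff₀ hB] at r4
  have r31 := r3.trans_le (min_le_left _ _)
  have r32 := r3.trans_le (min_le_right _ _)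
  have r41 := r4.trans_le (min_le_left _ _)
  have r42 := r4.trans_le (min_le_right _ _)
  have hAr : 0 < A * r := mul_pos hA hr
  have hθr : 0 < θ * r := mul_pos θ0 hr
  have hθr1 : θ * r ≤ r := by nlinarith
  -- the diagonal near `a`
  have diag : ∀ x, |x - a| ≤ (A + 1) * r → |P x x - Q - (x - a) * s| ≤ ε / 4 * r := by
    intro x hx
    have := hdd (show dist x a < d by
      rw [Real.dist_eq]
      linarith)
    rw [Real.norm_eq_abs, Real.norm_eq_abs, smul_eq_mul] at this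
    change |P x x - P a a - (x - a) * s| ≤ η * |x - a| at this
    rw [hv] at this
    refine this.trans ?_
    calc η * |x - a| ≤ η * ((A + 1) * r) := mul_le_mul_of_nonneg_left hx η0.le
      _ = η * (A + 1) * r := by ring
      _ ≤ ε / 4 * r := mul_le_mul_of_nonneg_right ηA hr.le
  have xa : |a' - a| ≤ (A + 1) * r := by
    rw [abs_le]
    constructor <;> nlinarith
  have xb : |a' - θ * r - a| ≤ (A + 1) * r := by
    rw [abs_le]
    constructor <;> nlinarith
  obtain ⟨da1, da2⟩ := abs_le.1 (diag a' xa)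
  obtain ⟨db1, db2⟩ := abs_le.1 (diag (a' - θ * r) xb)
  obtain ⟨xa1, xa2⟩ := abs_le.1 xa
  obtain ⟨xb1, xb2⟩ := abs_le.1 xb
  -- the row
  obtain ⟨Q', hQ'⟩ : ∃ Q' : ℝ, Q' = P a' a' - ε * r := ⟨_, rfl⟩
  have sθ : s * (θ * r) ≤ ε / 4 * r := by
    rw [← mul_assoc]
    exact mul_le_mul_of_nonneg_right θs hr.le
  have hQb : Q' ≤ P (a' - θ * r) (a' - θ * r) - ε / 4 * r := by
    rw [hQ']
    nlinarith
  have hQd : |Q' - Q| ≤ B * r := by
    have e1 : |(a' - a) * s| ≤ (A + 1) * r * s := by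
      rw [abs_mul, abs_of_nonneg hs]
      exact mul_le_mul_of_nonneg_right xa hs
    obtain ⟨e2, e3⟩ := abs_le.1 e1
    have e4 : 0 < ε * r := mul_pos hε hr
    have e5 : (2 * A + (s + 1) * (A + 1) + 2 * ε) * r =
        2 * (A * r) + (A + 1) * r * s + (A * r + r) + 2 * (ε * r) := by ring
    rw [hQ', hBd, abs_le, e5]
    constructor <;> linarith
  obtain ⟨q1, q2⟩ := abs_le.1 hQd
  have Q0 : 0 < Q' := by linarith
  have Q1 : Q' < 1 := by linarith
  have hq0 : 0 ≤ a' - w' := by linarith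
  have hqB : a' - w' ≤ B * r := by
    have : 0 ≤ ((s + 1) * (A + 1) + 2 * ε) * r := by positivity
    rw [hBd]
    nlinarith
  have e5 := hwf r hr r1 Q' (a' - w') hQd hq0 hqB
  have ha'1 : a' ≤ 1 := by nlinarith
  have hb0 : 0 ≤ a' - θ * r := by nlinarith
  -- the row is reached on the diagonal before `a' - θ r`
  have e6 : Lv P (Q', 0) ≤ a' - θ * r := by
    rw [Lv_eq le_rfl zero_le_one Q0.le Q1.le]
    refine lev_le ⟨hb0, by linarith, Or.inl ?_⟩
    rw [sub_zero]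
    have : 0 ≤ ε / 4 * r := by positivity
    linarith
  have e7 : Lv P (Q', a' - w') < a' := by linarith
  have hqq : a' - w' ≤ 1 := by
    have : 0 ≤ w' := by nlinarith
    linarith
  rw [Lv_eq hq0 hqq Q0.le Q1.le] at e7
  have e8 := le_of_lev_lt h hq0 hqq e7 ha'1
  rw [sub_sub_cancel, hQ'] at e8
  exact e8

/-- A good point: row `Q`, radius `a`, slopes `sN` and `s`. -/
structure Pt {ι : Type*} (P : ℝ → ℝ → ℝ) (L : ι → ℝ → ℝ → ℝ) (Z : Set ℝ) (Q a sN : ℝ)
    (s : ι → ℝ) : Prop where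
  pos : 0 < a
  lt : a < 1
  nz : a ∉ Z
  val : P a a = Q
  der : HasDerivAt (fun a => P a a) sN a
  ge : 1 ≤ sN
  derV : ∀ i, HasDerivAt (fun a => L i a a) (s i) a
  geV : ∀ i, L i a a < 1 → 1 ≤ s i
  lev : ∀ ε : ℝ, 0 < ε → ∃ q₁ : ℝ, 0 < q₁ ∧ ∀ q : ℝ, 0 < q → q < q₁ → Q ≤ P (a + ε * q) (a - q)
  wfa : WfA P Q
  tri : ∀ A ε : ℝ, 0 < A → 0 < ε → ∃ r₁ : ℝ, 0 < r₁ ∧ ∀ r : ℝ, 0 < r → r < r₁ →
    ∀ a' w', a - A * r ≤ w' → w' ≤ a' → a' ≤ a + A * r → P a' a' - ε * r ≤ P a' w'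

/-- **The maximal backward slope** of a diagonal level is finite at every point of
differentiability. -/
theorem diag_bd {L : ℝ → ℝ → ℝ} (h : Law L) {a s : ℝ} (h0 : 0 < a) (h1 : a ≤ 1)
    (hd : HasDerivAt (fun a => L a a) s a) :
    ∃ S : ℕ, ∀ v : ℝ, 0 ≤ v → v ≤ a → L a a - L (a - v) (a - v) ≤ S * v := by
  obtain ⟨d, hd0, hdd⟩ := Metric.eventually_nhds_iff.1 ((hd.isLittleO).def one_pos)
  have hC : 0 ≤ L a a - L 0 0 := sub_nonneg.2 (h.mono le_rfl le_rfl h0.le h0.le le_rfl h1)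
  obtain ⟨S, hS⟩ := exists_nat_ge (max (|s| + 1) ((L a a - L 0 0) / (d / 2)))
  refine ⟨S, fun v v0 va => ?_⟩
  have S1 : |s| + 1 ≤ S := (le_max_left _ _).trans hS
  have S2 : (L a a - L 0 0) / (d / 2) ≤ S := (le_max_right _ _).trans hS
  rcases lt_or_ge v (d / 2) with hv | hv
  · have e1 := hdd (show dist (a - v) a < d by
      rw [Real.dist_eq, abs_of_nonpos (by linarith)]
      linarith)
    rw [Real.norm_eq_abs, Real.norm_eq_abs, smul_eq_mul] at e1
    change |L (a - v) (a - v) - L a a - (a - v - a) * s| ≤ 1 * |a - v - a| at e1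
    rw [show a - v - a = -v by ring, abs_neg, abs_of_nonneg v0] at e1
    have e2 := (abs_le.1 e1).1
    have e3 : s * v ≤ |s| * v := mul_le_mul_of_nonneg_right (le_abs_self s) v0
    have e4 : (|s| + 1) * v ≤ S * v := mul_le_mul_of_nonneg_right S1 v0
    linarith
  · have e1 : L 0 0 ≤ L (a - v) (a - v) :=
      h.mono le_rfl le_rfl (by linarith) (by linarith) le_rfl (by linarith)
    have e2 : L a a - L 0 0 ≤ S * (d / 2) := by
      rwa [div_le_iff₀ (by linarith)] at S2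
    have e3 : (S : ℝ) * (d / 2) ≤ S * v := mul_le_mul_of_nonneg_left hv (Nat.cast_nonneg S)
    linarith

/-- One bound for the backward slopes of all diagonal levels. -/
theorem Pt.bd {ι : Type*} [Finite ι] {P : ℝ → ℝ → ℝ} {L : ι → ℝ → ℝ → ℝ} {Z : Set ℝ}
    {Q a sN : ℝ} {s : ι → ℝ} (hP : Law P) (hL : ∀ i, Law (L i)) (h : Pt P L Z Q a sN s) :
    ∃ S : ℕ, (∀ v : ℝ, 0 ≤ v → v ≤ a → P a a - P (a - v) (a - v) ≤ S * v) ∧
      ∀ i, ∀ v : ℝ, 0 ≤ v → v ≤ a → L i a a - L i (a - v) (a - v) ≤ S * v := by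
  classical
  have := Fintype.ofFinite ι
  obtain ⟨S₀, hS₀⟩ := diag_bd hP h.pos h.lt.le h.der
  choose S hS using fun i => diag_bd (hL i) h.pos h.lt.le (h.derV i)
  refine ⟨S₀ + ∑ i, S i, fun v v0 va => (hS₀ v v0 va).trans ?_,
    fun i v v0 va => (hS i v v0 va).trans ?_⟩
  · refine mul_le_mul_of_nonneg_right ?_ v0
    exact_mod_cast Nat.le_add_right _ _
  · refine mul_le_mul_of_nonneg_right ?_ v0
    have e1 : S i ≤ ∑ i, S i := Finset.single_le_sum (fun _ _ => Nat.zero_le _) (Finset.mem_univ i)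
    exact_mod_cast e1.trans (Nat.le_add_left _ _)

/-- **Almost every window free row corresponds to a good point.** -/
theorem ae_pt {ι : Type*} [Countable ι] (hP : Law P) {L : ι → ℝ → ℝ → ℝ} (hL : ∀ i, Law (L i))
    {Z : Set ℝ} (hZ : volume Z = 0) : ∀ᵐ Q : ℝ, 0 < Q → Q < 1 → 0 < Lv P (Q, 0) → WfN P Q →
      DifferentiableAt ℝ (fun Q => Lv P (Q, 0)) Q → deriv (fun Q => Lv P (Q, 0)) Q ≠ 0 →
      Pt P L Z Q (Lv P (Q, 0)) (deriv (fun Q => Lv P (Q, 0)) Q)⁻¹
        (fun i => deriv (fun a => L i a a) (Lv P (Q, 0))) := by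
  have hfm : Monotone fun Q => Lv P (Q, 0) := fun x y hxy => Lv_mono hP ⟨hxy, le_rfl⟩
  have hfl : LipschitzWith 1 fun Q => Lv P (Q, 0) := by
    refine LipschitzWith.of_dist_le_mul fun x y => ?_
    refine ((Lv_lip hP).dist_le_mul _ _).trans ?_
    rw [Prod.dist_eq]
    simp
  have hbad : volume (Z ∪ {a | ¬ ∀ i, 0 < a → a < 1 → DifferentiableAt ℝ (fun a => L i a a) a})
      = 0 := by
    refine measure_union_null hZ ?_
    have := ae_all_iff.2 fun i => diag_ae (hL i)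
    rwa [ae_iff] at this
  filter_upwards [null_pull hfm hbad, wfa_ae hP] with Q hQ hwu h0 h1 ha hw hd hc
  have hc0 : 0 ≤ deriv (fun Q => Lv P (Q, 0)) Q := hfm.deriv_nonneg
  have hcp : 0 < deriv (fun Q => Lv P (Q, 0)) Q := lt_of_le_of_ne hc0 (Ne.symm hc)
  obtain ⟨ha1, hval, hder⟩ := diag_deriv hP h0 h1 ha hd hcp
  have hnz := hQ hd hcp
  rw [mem_union, not_or, mem_ofPred_eq, not_not] at hnz
  have hcl : deriv (fun Q => Lv P (Q, 0)) Q ≤ 1 := by
    have := norm_deriv_le_of_lipschitz (x₀ := Q) hfl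
    rw [NNReal.coe_one] at this
    exact (le_abs_self _).trans this
  exact ⟨ha, ha1, hnz.1, hval, hder, (one_le_inv₀ hcp).2 hcl,
    fun i => (hnz.2 i ha ha1).hasDerivAt,
    fun i hl => diag_slope (hL i) ha ha1 (hnz.2 i ha ha1).hasDerivAt hl,
    fun ε hε => wf_pt hP h0 h1 ha1 hw hε, hwu hw, fun A ε hA hε =>
      tri_pt hP h0 h1 ha ha1 hval (inv_nonneg.2 hc0) hder (hwu hw) hA hε⟩

/-- **From good points to rows.** The class input: at almost every row, if it corresponds to a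
good point, it is full. -/
theorem staN_of {ι : Type*} [Countable ι] (hP : Law P) {L : ι → ℝ → ℝ → ℝ} (hL : ∀ i, Law (L i))
    {Z : Set ℝ} (hZ : volume Z = 0) {ρ : ℝ → ℝ} (hJ : JmpN P ρ)
    (hS : ∀ h : ℝ, 0 < h → ∀ᵐ Q : ℝ, ∀ (a sN : ℝ) (s : ι → ℝ), 0 < Q → Q < 1 →
      Pt P L Z Q a sN s → DifferentiableAt ℝ ρ Q → 1 - h ≤ deriv ρ Q) : StaN P ρ := by
  intro h hh
  have hfl : LipschitzWith 1 fun Q => Lv P (Q, 0) := by
    refine LipschitzWith.of_dist_le_mul fun x y => ?_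
    refine ((Lv_lip hP).dist_le_mul _ _).trans ?_
    rw [Prod.dist_eq]
    simp
  filter_upwards [hJ h hh, hS h hh, ae_pt hP hL hZ, hfl.ae_differentiableAt_real]
    with Q k1 k2 k3 k4 h0 h1 ha hw hd
  by_cases hc : deriv (fun Q => Lv P (Q, 0)) Q = 0
  · exact k1 h0 h1 ha k4 hc hd
  · exact k2 _ _ _ h0 h1 (k3 h0 h1 ha hw k4 hc) hd

/-- **(S), blow-up form**: for every parameter `p` there is a tolerance `ε` such that at almost
every row which is not full there are no small cells `Cell p a r ε` at the radius `a` of the row. -/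
def StaC {π : Type*} (P : ℝ → ℝ → ℝ) (Cell : π → ℝ → ℝ → ℝ → Prop) (ρ : ℝ → ℝ) : Prop :=
  ∀ h : ℝ, 0 < h → ∀ p : π, ∃ ε : ℝ, 0 < ε ∧ ∀ᵐ Q : ℝ, 0 < Q → Q < 1 → 0 < Lv P (Q, 0) →
    DifferentiableAt ℝ ρ Q → deriv ρ Q < 1 - h →
      ∃ r₁ : ℝ, 0 < r₁ ∧ ∀ r : ℝ, 0 < r → r < r₁ → ¬ Cell p (Lv P (Q, 0)) r ε

/-- **From cells to rows.** -/
theorem staN_of_cell {ι π : Type*} [Countable ι] [Countable π] (hP : Law P) {L : ι → ℝ → ℝ → ℝ}
    (hL : ∀ i, Law (L i)) {Z : Set ℝ} (hZ : volume Z = 0) {ρ : ℝ → ℝ} (hJ : JmpN P ρ)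
    {Cell : π → ℝ → ℝ → ℝ → Prop}
    (hprof : ∀ (Q a sN : ℝ) (s : ι → ℝ), 0 < Q → Q < 1 → Pt P L Z Q a sN s →
      ∃ p : π, ∀ ε : ℝ, 0 < ε → ∀ r₁ : ℝ, 0 < r₁ → ∃ r : ℝ, 0 < r ∧ r < r₁ ∧ Cell p a r ε)
    (hS : StaC P Cell ρ) : StaN P ρ := by
  intro h hh
  have hfl : LipschitzWith 1 fun Q => Lv P (Q, 0) := by
    refine LipschitzWith.of_dist_le_mul fun x y => ?_
    refine ((Lv_lip hP).dist_le_mul _ _).trans ?_
    rw [Prod.dist_eq]
    simp
  choose ε hε hS' using hS h hh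
  filter_upwards [hJ h hh, ae_all_iff.2 hS', ae_pt hP hL hZ, hfl.ae_differentiableAt_real]
    with Q k1 k2 k3 k4 h0 h1 ha hw hd
  by_cases hc : deriv (fun Q => Lv P (Q, 0)) Q = 0
  · exact k1 h0 h1 ha k4 hc hd
  by_contra hcon
  push Not at hcon
  obtain ⟨p, hp⟩ := hprof _ _ _ _ h0 h1 (k3 h0 h1 ha hw k4 hc)
  obtain ⟨r₁, hr₁, hno⟩ := k2 p h0 h1 ha hd hcon
  obtain ⟨r, hr0, hr1, hcell⟩ := hp (ε p) (hε p) r₁ hr₁
  exact hno r hr0 hr1 hcell

end Pool.STR
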