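import Pool.Agent.H90.STAT.Near
import Pool.Agent.H40.BFL.MKO
import Pool.Agent.H71.GEN.Vel

/-!
# Balls in natural boxes

`P` is a triangular system with the line `x + u v` on it up to `exp u₀ / 2 ^ g j`, `G` is a system
which is near `P` on the dilated natural boxes and whose gradients in the coordinates are at most
`2 ^ ρ / 2 ^ g j` there (`2 ^ e` for the last coordinate). Then the ball of radius `2 ^ (-ρ)`
around `x` is in a dilated natural box, and the gradient of `P n` (with the time) is at most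
`exp (q u₀) * 2 ^ e` on the ball.
-/

set_option autoImplicit false

namespace Pool.DIA

open Finset MvPolynomial
open Pool.STAT Pool.STAT.CLO Pool.STAT.NEAR

/-! ### Polynomials of one variable -/

/-- From the unit interval to the intervals next to it. -/
theorem unit_ext (D : ℕ) : ∃ C : ℝ, 1 ≤ C ∧ ∀ (q : Polynomial ℝ) (S : ℝ), q.natDegree ≤ D →
    (∀ t ∈ Set.Icc (0 : ℝ) 1, |q.eval t| ≤ S) →
    ∀ t ∈ Set.Icc (-1 : ℝ) 2, |q.eval t| ≤ C * S := by
  classical
  set v : ℕ → ℝ := fun i => (i : ℝ) / (D + 1) with hv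
  have hD : (0 : ℝ) < D + 1 := by positivity
  have hinj : Set.InjOn v (range (D + 1) : Finset ℕ) := by
    intro i _ k _ h
    have h1 : (i : ℝ) / (D + 1) = (k : ℝ) / (D + 1) := h
    field_simp at h1
    exact_mod_cast h1
  have hM : ∀ i, ∃ M : ℝ, 0 ≤ M ∧ ∀ t ∈ Set.Icc (-1 : ℝ) 2,
      |(Lagrange.basis (range (D + 1)) v i).eval t| ≤ M := by
    intro i
    obtain ⟨M, hM⟩ := (isCompact_Icc (a := (-1 : ℝ)) (b := 2)).exists_bound_of_continuousOn
      ((Lagrange.basis (range (D + 1)) v i).continuous.continuousOn)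
    refine ⟨M, le_trans (norm_nonneg _) (hM 0 (by constructor <;> norm_num)), fun t ht => ?_⟩
    exact hM t ht
  choose M hM0 hM1 using hM
  refine ⟨1 + ∑ i ∈ range (D + 1), M i, ?_, ?_⟩
  · have := Finset.sum_nonneg (s := range (D + 1)) fun i _ => hM0 i
    linarith
  intro q S hq hS t ht
  have hS0 : 0 ≤ S := le_trans (abs_nonneg _) (hS 0 (by simp))
  have h1 : q = Lagrange.interpolate (range (D + 1)) v fun i => q.eval (v i) := by
    refine Lagrange.eq_interpolate hinj ?_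
    rw [card_range]
    refine lt_of_le_of_lt (Polynomial.degree_le_natDegree) ?_
    exact_mod_cast Nat.lt_succ_of_le hq
  have h2 : q.eval t = ∑ i ∈ range (D + 1),
      q.eval (v i) * (Lagrange.basis (range (D + 1)) v i).eval t := by
    conv_lhs => rw [h1]
    rw [Lagrange.interpolate_apply, Polynomial.eval_finsetSum]
    refine Finset.sum_congr rfl fun i _ => ?_
    rw [Polynomial.eval_mul, Polynomial.eval_C]
  rw [h2]
  refine le_trans (Finset.abs_sum_le_sum_abs _ _) ?_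
  have h3 : ∑ i ∈ range (D + 1),
      |q.eval (v i) * (Lagrange.basis (range (D + 1)) v i).eval t| ≤
      ∑ i ∈ range (D + 1), M i * S := by
    refine Finset.sum_le_sum fun i hi => ?_
    rw [abs_mul, mul_comm]
    refine mul_le_mul (hM1 i t ht) (hS _ ?_) (abs_nonneg _) (hM0 i)
    have hi' : (i : ℝ) ≤ D := by
      have := Finset.mem_range.1 hi
      exact_mod_cast Nat.le_of_lt_succ this
    refine ⟨by positivity, ?_⟩
    show (i : ℝ) / (D + 1) ≤ 1
    rw [div_le_one hD]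
    linarith
  refine h3.trans ?_
  rw [← Finset.sum_mul]
  nlinarith

/-- **Markov, for one variable of a polynomial**: values on a segment of the length `2 δ` in the
direction `o`. -/
theorem dir_markov (D : ℕ) : ∃ C : ℝ, 1 ≤ C ∧ ∀ (F : PN) (b : ℕ → ℝ) (o n : ℕ) (δ V y : ℝ),
    F.totalDegree ≤ D → F.vars ⊆ range n → o < n → 0 < δ →
    (∀ s : ℝ, |s| ≤ δ → |eval (Function.update b o (b o + s)) F - y| ≤ V) →
    |eval b (pderiv o F)| ≤ C * V / δ := by
  classical
  obtain ⟨C, hC, hmk⟩ := Pool.Agent.H40.BFL.unit_markov D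
  refine ⟨C, hC, ?_⟩
  intro F b o n δ V y hF hv ho hδ hV
  obtain ⟨a, ha⟩ : ∃ a : ℕ → ℝ, a = Function.update b o (b o - δ) := ⟨_, rfl⟩
  obtain ⟨v, hvv⟩ : ∃ v : ℕ → ℝ, v = Function.update (fun _ => (0 : ℝ)) o (2 * δ) := ⟨_, rfl⟩
  obtain ⟨f, hf⟩ : ∃ f : Polynomial ℝ, f = aeval (fun j => Polynomial.C (a j) +
      Polynomial.C (v j) * Polynomial.X) F - Polynomial.C y := ⟨_, rfl⟩
  have hfe : ∀ t, f.eval t = eval (fun j => a j + t * v j) F - y := by
    intro t
    rw [hf, Polynomial.eval_sub, Polynomial.eval_C, Pool.KBX.eval_aeval_poly]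
    congr 2
    congr 1
    funext j
    simp only [Polynomial.eval_add, Polynomial.eval_mul, Polynomial.eval_C, Polynomial.eval_X]
    ring
  have hpt : ∀ t : ℝ, (fun j => a j + t * v j) = Function.update b o (b o + (2 * t - 1) * δ) := by
    intro t
    funext j
    by_cases hj : j = o
    · subst hj
      rw [ha, hvv, Function.update_self, Function.update_self, Function.update_self]
      ring
    · rw [ha, hvv, Function.update_of_ne hj, Function.update_of_ne hj, Function.update_of_ne hj]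
      ring
  have hfd : f.natDegree ≤ D := by
    rw [hf]
    refine (Polynomial.natDegree_sub_le _ _).trans (max_le ?_ ?_)
    · refine Pool.KBX.natDegree_aeval_le _ _ (fun j => ?_) hF
      refine (Polynomial.natDegree_add_le _ _).trans (max_le ?_ ?_)
      · rw [Polynomial.natDegree_C]
        exact Nat.zero_le _
      · exact (Polynomial.natDegree_C_mul_le _ _).trans Polynomial.natDegree_X_le
    · rw [Polynomial.natDegree_C]
      exact Nat.zero_le _
  have h1 : ∀ t ∈ Set.Icc (0 : ℝ) 1, |f.eval t| ≤ V := by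
    intro t ht
    rw [hfe, hpt]
    refine hV _ ?_
    rw [abs_mul, abs_of_pos hδ]
    have : |2 * t - 1| ≤ 1 := by
      rw [abs_le]
      constructor <;> linarith [ht.1, ht.2]
    exact mul_le_of_le_one_left hδ.le this
  have h2 := hmk f V hfd h1 (1 / 2) (by constructor <;> norm_num)
  have h3 : f.derivative.eval (1 / 2) = 2 * δ * eval b (pderiv o F) := by
    have k1 : HasDerivAt (fun t : ℝ => f.eval t) (f.derivative.eval (1 / 2)) (1 / 2) :=
      f.hasDerivAt _
    have k2 : HasDerivAt (fun t : ℝ => f.eval t)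
        (eval (fun j => a j + (1 / 2) * v j) (lieN (fun j => MvPolynomial.C (v j)) F)) (1 / 2) := by
      have k3 := (deriv_seg F a v (1 / 2)).sub_const y
      refine k3.congr_of_eventuallyEq ?_
      exact Filter.Eventually.of_forall fun t => hfe t
    have k4 := k1.unique k2
    rw [k4, hpt]
    have k5 : Function.update b o (b o + (2 * (1 / 2) - 1) * δ) = b := by
      have : b o + (2 * (1 / 2) - 1) * δ = b o := by ring
      rw [this, Function.update_eq_self]
    rw [k5, FLB.lieN_eq _ hv, map_sum, Finset.sum_eq_single o]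
    · rw [map_mul, eval_C, hvv, Function.update_self]
      ring
    · intro l _ hl
      rw [map_mul, eval_C, hvv, Function.update_of_ne hl, mul_zero]
    · intro h
      exact absurd (mem_range.2 ho) h
  rw [h3, abs_mul, abs_of_pos (by positivity : (0 : ℝ) < 2 * δ)] at h2
  have hV0 : 0 ≤ V := (abs_nonneg _).trans (hV 0 (by rw [abs_zero]; exact hδ.le))
  rw [le_div_iff₀ hδ]
  have h4 := abs_nonneg (eval b (pderiv o F))
  nlinarith

/-! ### Exponential bounds -/

theorem le_exp_mul {y u : ℝ} (hy : 0 ≤ y) (hu : 1 ≤ u) : y ≤ Real.exp (y * u) := by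
  have h1 := Real.add_one_le_exp (y * u)
  nlinarith

theorem exp_add4 {a b c d u : ℝ} (ha : 0 ≤ a) (hb : 0 ≤ b) (hc : 0 ≤ c) (hd : 0 ≤ d)
    (hu : 1 ≤ u) : Real.exp (a * u) + Real.exp (b * u) + Real.exp (c * u) + Real.exp (d * u) ≤
      Real.exp ((a + b + c + d + 2) * u) := by
  obtain ⟨M, hM⟩ : ∃ M, M = Real.exp ((a + b + c + d) * u) := ⟨_, rfl⟩
  have h0 : ∀ y, 0 ≤ y → y ≤ a + b + c + d → Real.exp (y * u) ≤ M := by
    intro y _ hy
    rw [hM]
    exact Real.exp_le_exp.2 (mul_le_mul_of_nonneg_right hy (by linarith))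
  have h1 := h0 a ha (by linarith)
  have h2 := h0 b hb (by linarith)
  have h3 := h0 c hc (by linarith)
  have h4 := h0 d hd (by linarith)
  have h5 : (4 : ℝ) ≤ Real.exp (2 * u) := by
    have e1 : (2 : ℝ) ≤ Real.exp u := by
      have := Real.add_one_le_exp u
      linarith
    have e2 : Real.exp (2 * u) = Real.exp u * Real.exp u := by
      rw [← Real.exp_add]
      congr 1
      ring
    rw [e2]
    nlinarith
  have h6 : Real.exp ((a + b + c + d + 2) * u) = M * Real.exp (2 * u) := by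
    rw [hM, ← Real.exp_add]
    congr 1
    ring
  rw [h6]
  have h7 : 0 < M := by
    rw [hM]
    exact Real.exp_pos _
  nlinarith

/-! ### The data -/

/-- **The data at a sample**: coordinates `0, …, n`, the coordinate `0` is the time. -/
structure Dat (n K c : ℕ) (u : ℝ) (P G : ℕ → PN) (g : ℕ → ℕ) (x v : ℕ → ℝ) (ρ e : ℕ) :
    Prop where
  tri : TriN G
  deg : ∀ j, (G j).totalDegree ≤ K
  nr : ∀ j, 1 ≤ j → j ≤ n → ∀ r : ℝ, 1 ≤ r → ∀ b : ℕ → ℝ, Bxr r g G j b →
    |eval b (P j) - eval b (G j)| ≤ (c * r) ^ c / 2 ^ g j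
  fit : |x 0 - eval x (G 0)| ≤ 1 / 2 ^ g 0
  lip : ∀ j, 1 ≤ j → j < n → ∀ b : ℕ → ℝ, Bx g G j b → ∀ l, 1 ≤ l → l < j →
    |eval b (pderiv l (G j))| ≤ 2 ^ ρ / 2 ^ g j
  lipn : ∀ b : ℕ → ℝ, Bx g G n b → ∀ l, 1 ≤ l → l < n → |eval b (pderiv l (G n))| ≤ 2 ^ e
  v0 : v 0 = 1
  vb : ∀ j, |v j| ≤ 1
  line : ∀ s : ℝ, |s| ≤ 2 / 2 ^ ρ → ∀ j, 1 ≤ j → j ≤ n →
    |(x j + s * v j) - eval (fun i => x i + s * v i) (P j)| ≤ Real.exp u / 2 ^ g j
  gle : ∀ j < n, g j ≤ ρ
  gn : ρ ≤ g n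

theorem inv_le_inv2 {a b : ℕ} (h : a ≤ b) : (1 : ℝ) / 2 ^ b ≤ 1 / 2 ^ a :=
  one_div_le_one_div_of_le (by positivity) (pow_le_pow_right₀ (by norm_num) h)

/-- The variation of the raw polynomial between a point and the point of the line at the same
time. -/
theorem seg (n K : ℕ) : ∃ C : ℝ, 1 ≤ C ∧ ∀ (G : ℕ → PN) (g : ℕ → ℕ) (j : ℕ) (M ρ D : ℝ)
    (b b' : ℕ → ℝ), TriN G → (∀ j, (G j).totalDegree ≤ K) → j ≤ n → 0 ≤ M → 1 ≤ ρ → 0 ≤ D →
    (∀ b : ℕ → ℝ, Bx g G j b → ∀ l, 1 ≤ l → l < j → |eval b (pderiv l (G j))| ≤ M) →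
    b 0 = b' 0 → (∀ l < j, |b l - b' l| ≤ D) →
    (∀ t : ℝ, 0 ≤ t → t ≤ 1 → Bxr ρ g G j (fun l => b' l + t * (b l - b' l))) →
    |eval b (G j) - eval b' (G j)| ≤ n * (C * M * ρ ^ (K * (K + 1) ^ (n + 1)) * D) := by
  obtain ⟨C, hC, hdil⟩ := dil n K
  refine ⟨C, hC, ?_⟩
  intro G g j M ρ D b b' htri hdeg hj hM hρ hD hlip h0 hbb hbox
  have h1 := mv (htri j) b' b (fun _ => C * M * ρ ^ (K * (K + 1) ^ (n + 1)))
    (fun t t0 t1 l hl hne => by
      have hl0 : 1 ≤ l := by
        rcases Nat.eq_zero_or_pos l with l0 | l0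
        · subst l0
          exact absurd h0 hne
        · exact l0
      exact hdil G g (pderiv l (G j)) j M ρ htri hdeg hj ((vars_pd _ l).trans (htri j))
        (deg_pd (hdeg j) l) hρ (fun b hb => hlip b hb l hl0 hl) _ (hbox t t0 t1))
  refine h1.trans ?_
  have hC0 : 0 ≤ C * M * ρ ^ (K * (K + 1) ^ (n + 1)) := by positivity
  calc ∑ l ∈ range j, C * M * ρ ^ (K * (K + 1) ^ (n + 1)) * |b l - b' l| ≤
      ∑ _l ∈ range j, C * M * ρ ^ (K * (K + 1) ^ (n + 1)) * D :=
        Finset.sum_le_sum fun l hl => mul_le_mul_of_nonneg_left (hbb l (mem_range.1 hl)) hC0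
    _ = j * (C * M * ρ ^ (K * (K + 1) ^ (n + 1)) * D) := by
      rw [Finset.sum_const, card_range, nsmul_eq_mul]
    _ ≤ _ := mul_le_mul_of_nonneg_right (by exact_mod_cast hj) (by positivity)

/-- **The ball is in a dilated natural box.** -/
theorem box (n K c : ℕ) : ∀ i ≤ n, ∃ q : ℝ, 0 ≤ q ∧ ∀ (u : ℝ) (P G : ℕ → PN) (g : ℕ → ℕ)
    (x v : ℕ → ℝ) (ρ e : ℕ), 1 ≤ u → Dat n K c u P G g x v ρ e → ∀ b : ℕ → ℝ,
    (∀ j < i, |b j - x j| ≤ 2 / 2 ^ ρ) → Bxr (Real.exp (q * u)) g G i b := by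
  obtain ⟨C, hC, hseg⟩ := seg n K
  obtain ⟨K₁, hK₁⟩ : ∃ K₁, K₁ = K * (K + 1) ^ (n + 1) := ⟨_, rfl⟩
  rw [← hK₁] at hseg
  intro i
  induction i with
  | zero =>
    intro _
    exact ⟨0, le_rfl, fun _ _ _ _ _ _ _ _ _ _ b _ j hj => absurd hj (Nat.not_lt_zero j)⟩
  | succ i ih =>
    intro hi
    obtain ⟨q, hq, hI⟩ := ih (by omega)
    obtain ⟨q', hq'⟩ : ∃ q' : ℝ, q' = 4 + 1 + (c * (c + q)) + (4 * (n * C) + K₁ * q) + 2 :=
      ⟨_, rfl⟩
    have hC0 : 0 ≤ C := by linarith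
    have z1 : (0 : ℝ) ≤ c * (c + q) := by positivity
    have z2 : (0 : ℝ) ≤ 4 * (n * C) + K₁ * q := by positivity
    have hc0 : (0 : ℝ) ≤ c := Nat.cast_nonneg c
    have hqq : q ≤ q' + q := by rw [hq']; linarith
    refine ⟨q' + q, by rw [hq']; linarith, ?_⟩
    intro u P G g x v ρ e hu h b hb j hj
    have hu0 : 0 ≤ u := by linarith
    rcases Nat.lt_succ_iff_lt_or_eq.1 hj with hj' | hj'
    · refine (hI u P G g x v ρ e hu h b (fun j hj => hb j (by omega)) j hj').trans ?_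
      refine div_le_div_of_nonneg_right ?_ (by positivity)
      exact Real.exp_le_exp.2 (mul_le_mul_of_nonneg_right hqq hu0)
    · subst hj'
      have hjn : j < n := by omega
      have hρj : (1 : ℝ) / 2 ^ ρ ≤ 1 / 2 ^ g j := inv_le_inv2 (h.gle j hjn)
      have hfin : Real.exp (q' * u) ≤ Real.exp ((q' + q) * u) :=
        Real.exp_le_exp.2 (mul_le_mul_of_nonneg_right (by linarith) hu0)
      rcases Nat.eq_zero_or_pos j with h0 | h0
      · subst h0
        have e1 := hb 0 (by omega)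
        have e2 := h.fit
        have e3 : eval b (G 0) = eval x (G 0) := by
          exact Pool.SYS35.eval_congr (h.tri 0) fun k hk => absurd hk (Nat.not_lt_zero k)
        rw [e3]
        have e4 : (2 : ℝ) / 2 ^ ρ = 1 / 2 ^ ρ + 1 / 2 ^ ρ := by ring
        have e5 : (3 : ℝ) ≤ Real.exp ((q' + q) * u) := by
          refine le_trans ?_ hfin
          refine (le_exp_mul (by norm_num) hu).trans
            (Real.exp_le_exp.2 (mul_le_mul_of_nonneg_right ?_ hu0))
          rw [hq']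
          linarith
        have e6 : Real.exp ((q' + q) * u) / 2 ^ g 0 = Real.exp ((q' + q) * u) * (1 / 2 ^ g 0) := by
          ring
        rw [e6]
        have e7 : (0 : ℝ) < 1 / 2 ^ g 0 := by positivity
        have e8 : 3 * (1 / 2 ^ g 0 : ℝ) ≤ Real.exp ((q' + q) * u) * (1 / 2 ^ g 0) :=
          mul_le_mul_of_nonneg_right e5 e7.le
        rw [e4] at e1
        rw [abs_le] at e1 e2 ⊢
        constructor <;> linarith [e1.1, e1.2, e2.1, e2.2]
      · -- the point of the line at the time of `b`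
        obtain ⟨s, hs⟩ : ∃ s, s = b 0 - x 0 := ⟨_, rfl⟩
        have hsb : |s| ≤ 2 / 2 ^ ρ := by
          rw [hs]
          exact hb 0 (by omega)
        obtain ⟨ℓ, hℓ⟩ : ∃ ℓ : ℕ → ℝ, ℓ = fun k => x k + s * v k := ⟨_, rfl⟩
        have hℓ0 : b 0 = ℓ 0 := by
          rw [hℓ]
          show b 0 = x 0 + s * v 0
          rw [h.v0, hs]
          ring
        have hℓx : ∀ k, |ℓ k - x k| ≤ 2 / 2 ^ ρ := by
          intro k
          have : ℓ k - x k = s * v k := by
            rw [hℓ]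
            ring
          rw [this, abs_mul]
          exact (mul_le_of_le_one_right (abs_nonneg _) (h.vb k)).trans hsb
        have hD : ∀ k ≤ j, |b k - ℓ k| ≤ 4 / 2 ^ ρ := by
          intro k hk
          have e1 := hb k (by omega)
          have e2 := hℓx k
          have e3 : (4 : ℝ) / 2 ^ ρ = 2 / 2 ^ ρ + 2 / 2 ^ ρ := by ring
          rw [e3]
          rw [abs_le] at e1 e2 ⊢
          constructor <;> linarith [e1.1, e1.2, e2.1, e2.2]
        have hR1 : 1 ≤ Real.exp (q * u) := Real.one_le_exp (by positivity)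
        have b1 : Bxr (Real.exp (q * u)) g G j ℓ :=
          hI u P G g x v ρ e hu h ℓ fun k _ => hℓx k
        have t1 : |b j - ℓ j| ≤ 4 / 2 ^ g j := by
          refine (hD j le_rfl).trans ?_
          have e1 : (4 : ℝ) / 2 ^ ρ = 4 * (1 / 2 ^ ρ) := by ring
          have e2 : (4 : ℝ) / 2 ^ g j = 4 * (1 / 2 ^ g j) := by ring
          rw [e1, e2]
          linarith
        have t2 : |ℓ j - eval ℓ (P j)| ≤ Real.exp u / 2 ^ g j := by
          have := h.line s hsb j h0 hjn.le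
          rw [hℓ]
          exact this
        have t3 : |eval ℓ (P j) - eval ℓ (G j)| ≤ (c * Real.exp (q * u)) ^ c / 2 ^ g j :=
          h.nr j h0 hjn.le _ hR1 ℓ b1
        have t4 : |eval b (G j) - eval ℓ (G j)| ≤
            n * (C * (2 ^ ρ / 2 ^ g j) * Real.exp (q * u) ^ K₁ * (4 / 2 ^ ρ)) := by
          refine hseg G g j (2 ^ ρ / 2 ^ g j) (Real.exp (q * u)) (4 / 2 ^ ρ) b ℓ h.tri h.deg
            hjn.le (by positivity) hR1 (by positivity) (h.lip j h0 hjn) hℓ0
            (fun l hl => hD l hl.le) fun t t0 t1 => ?_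
          refine hI u P G g x v ρ e hu h _ fun k hk => ?_
          have e1 := hb k (by omega)
          have e2 := hℓx k
          have e3 : ℓ k + t * (b k - ℓ k) - x k = (1 - t) * (ℓ k - x k) + t * (b k - x k) := by
            ring
          rw [e3]
          refine (abs_add_le _ _).trans ?_
          rw [abs_mul, abs_mul, abs_of_nonneg t0, abs_of_nonneg (by linarith : 0 ≤ 1 - t)]
          nlinarith
        have e4 : n * (C * (2 ^ ρ / 2 ^ g j) * Real.exp (q * u) ^ K₁ * (4 / 2 ^ ρ)) =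
            4 * (n * C) * Real.exp (q * u) ^ K₁ / 2 ^ g j := by
          field_simp
        rw [e4] at t4
        have f1 : (4 : ℝ) ≤ Real.exp (4 * u) := le_exp_mul (by norm_num) hu
        have f2 : Real.exp u = Real.exp (1 * u) := by rw [one_mul]
        have f3 : ((c : ℝ) * Real.exp (q * u)) ^ c ≤ Real.exp ((c * (c + q)) * u) := by
          have e1 : (c : ℝ) * Real.exp (q * u) ≤ Real.exp ((c + q) * u) := by
            rw [add_mul, Real.exp_add]
            exact mul_le_mul_of_nonneg_right (le_exp_mul hc0 hu) (Real.exp_pos _).le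
          refine (pow_le_pow_left₀ (by positivity) e1 c).trans (le_of_eq ?_)
          rw [← Real.exp_nat_mul]
          congr 1
          ring
        have f4 : 4 * (n * C) * Real.exp (q * u) ^ K₁ ≤ Real.exp ((4 * (n * C) + K₁ * q) * u) := by
          rw [add_mul, Real.exp_add]
          refine mul_le_mul (le_exp_mul (by positivity) hu) (le_of_eq ?_) (by positivity)
            (Real.exp_pos _).le
          rw [← Real.exp_nat_mul]
          congr 1
          ring
        have f5 := exp_add4 (a := 4) (b := 1) (c := c * (c + q)) (d := 4 * (n * C) + K₁ * q)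
          (by norm_num) (by norm_num) z1 z2 hu
        rw [← hq'] at f5
        have f6 : |b j - eval b (G j)| ≤ Real.exp (q' * u) / 2 ^ g j := by
          have e1 : b j - eval b (G j) = (b j - ℓ j) + (ℓ j - eval ℓ (P j)) +
              (eval ℓ (P j) - eval ℓ (G j)) - (eval b (G j) - eval ℓ (G j)) := by ring
          have e2 : |b j - eval b (G j)| ≤ 4 / 2 ^ g j + Real.exp u / 2 ^ g j +
              (c * Real.exp (q * u)) ^ c / 2 ^ g j +
              4 * (n * C) * Real.exp (q * u) ^ K₁ / 2 ^ g j := by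
            rw [e1]
            refine (abs_sub _ _).trans (add_le_add ?_ t4)
            refine (abs_add_le _ _).trans (add_le_add ?_ t3)
            exact (abs_add_le _ _).trans (add_le_add t1 t2)
          refine e2.trans ?_
          rw [← add_div, ← add_div, ← add_div]
          refine div_le_div_of_nonneg_right ?_ (by positivity)
          refine le_trans ?_ f5
          rw [← f2]
          linarith
        refine f6.trans (div_le_div_of_nonneg_right hfin (by positivity))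

/-- **The values on the ball.** -/
theorem val (n K c : ℕ) (hn : 1 ≤ n) : ∃ q : ℝ, 0 ≤ q ∧ ∀ (u : ℝ) (P G : ℕ → PN) (g : ℕ → ℕ)
    (x v : ℕ → ℝ) (ρ e : ℕ), 1 ≤ u → Dat n K c u P G g x v ρ e → ∀ b : ℕ → ℝ,
    (∀ j < n, |b j - x j| ≤ 2 / 2 ^ ρ) →
    |eval b (P n) - x n| ≤ Real.exp (q * u) * (2 ^ e / 2 ^ ρ) := by
  obtain ⟨C, hC, hseg⟩ := seg n K
  obtain ⟨K₁, hK₁⟩ : ∃ K₁, K₁ = K * (K + 1) ^ (n + 1) := ⟨_, rfl⟩
  rw [← hK₁] at hseg
  obtain ⟨q, hq, hI⟩ := box n K c n le_rfl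
  obtain ⟨q', hq'⟩ : ∃ q' : ℝ, q' = (2 + c * (c + q)) + (4 * (n * C) + K₁ * q) + 1 + 2 + 2 :=
    ⟨_, rfl⟩
  have hC0 : 0 ≤ C := by linarith
  have hc0 : (0 : ℝ) ≤ c := Nat.cast_nonneg c
  have z1 : (0 : ℝ) ≤ 2 + c * (c + q) := by positivity
  have z2 : (0 : ℝ) ≤ 4 * (n * C) + K₁ * q := by positivity
  refine ⟨q', by rw [hq']; linarith, ?_⟩
  intro u P G g x v ρ e hu h b hb
  have hu0 : 0 ≤ u := by linarith
  obtain ⟨s, hs⟩ : ∃ s, s = b 0 - x 0 := ⟨_, rfl⟩
  have hsb : |s| ≤ 2 / 2 ^ ρ := by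
    rw [hs]
    exact hb 0 (by omega)
  obtain ⟨ℓ, hℓ⟩ : ∃ ℓ : ℕ → ℝ, ℓ = fun k => x k + s * v k := ⟨_, rfl⟩
  have hℓ0 : b 0 = ℓ 0 := by
    rw [hℓ]
    show b 0 = x 0 + s * v 0
    rw [h.v0, hs]
    ring
  have hℓx : ∀ k, |ℓ k - x k| ≤ 2 / 2 ^ ρ := by
    intro k
    have : ℓ k - x k = s * v k := by
      rw [hℓ]
      ring
    rw [this, abs_mul]
    exact (mul_le_of_le_one_right (abs_nonneg _) (h.vb k)).trans hsb
  have hD : ∀ k < n, |b k - ℓ k| ≤ 4 / 2 ^ ρ := by
    intro k hk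
    have e1 := hb k hk
    have e2 := hℓx k
    have e3 : (4 : ℝ) / 2 ^ ρ = 2 / 2 ^ ρ + 2 / 2 ^ ρ := by ring
    rw [e3]
    rw [abs_le] at e1 e2 ⊢
    constructor <;> linarith [e1.1, e1.2, e2.1, e2.2]
  have hR1 : 1 ≤ Real.exp (q * u) := Real.one_le_exp (by positivity)
  have hgn : (1 : ℝ) / 2 ^ g n ≤ 1 / 2 ^ ρ := inv_le_inv2 h.gn
  have he1 : (1 : ℝ) ≤ 2 ^ e := one_le_pow₀ (by norm_num)
  obtain ⟨R, hR⟩ : ∃ R, R = ((c : ℝ) * Real.exp (q * u)) ^ c := ⟨_, rfl⟩
  have hR0 : 0 ≤ R := by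
    rw [hR]
    positivity
  have hRr : R / 2 ^ g n ≤ R * (1 / 2 ^ ρ) := by
    have : R / 2 ^ g n = R * (1 / 2 ^ g n) := by ring
    rw [this]
    exact mul_le_mul_of_nonneg_left hgn hR0
  have t1 : |eval b (P n) - eval b (G n)| ≤ R * (1 / 2 ^ ρ) := by
    refine (h.nr n hn le_rfl _ hR1 b (hI u P G g x v ρ e hu h b hb)).trans ?_
    rw [← hR]
    exact hRr
  have t3 : |eval ℓ (P n) - eval ℓ (G n)| ≤ R * (1 / 2 ^ ρ) := by
    refine (h.nr n hn le_rfl _ hR1 ℓ (hI u P G g x v ρ e hu h ℓ fun k _ => hℓx k)).trans ?_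
    rw [← hR]
    exact hRr
  have t2 : |eval b (G n) - eval ℓ (G n)| ≤
      n * (C * 2 ^ e * Real.exp (q * u) ^ K₁ * (4 / 2 ^ ρ)) := by
    refine hseg G g n (2 ^ e) (Real.exp (q * u)) (4 / 2 ^ ρ) b ℓ h.tri h.deg
      le_rfl (by positivity) hR1 (by positivity) h.lipn hℓ0
      (fun l hl => hD l hl) fun t t0 t1 => ?_
    refine hI u P G g x v ρ e hu h _ fun k hk => ?_
    have e1 := hb k hk
    have e2 := hℓx k
    have e3 : ℓ k + t * (b k - ℓ k) - x k = (1 - t) * (ℓ k - x k) + t * (b k - x k) := by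
      ring
    rw [e3]
    refine (abs_add_le _ _).trans ?_
    rw [abs_mul, abs_mul, abs_of_nonneg t0, abs_of_nonneg (by linarith : 0 ≤ 1 - t)]
    nlinarith
  have t4 : |ℓ n - eval ℓ (P n)| ≤ Real.exp u * (1 / 2 ^ ρ) := by
    have h1 := h.line s hsb n hn le_rfl
    have h2 : |ℓ n - eval ℓ (P n)| ≤ Real.exp u / 2 ^ g n := by
      rw [hℓ]
      exact h1
    refine h2.trans ?_
    have : Real.exp u / 2 ^ g n = Real.exp u * (1 / 2 ^ g n) := by ring
    rw [this]
    exact mul_le_mul_of_nonneg_left hgn (Real.exp_pos _).le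
  have t5 : |ℓ n - x n| ≤ 2 * (1 / 2 ^ ρ) := by
    refine (hℓx n).trans (le_of_eq ?_)
    ring
  have e4 : n * (C * 2 ^ e * Real.exp (q * u) ^ K₁ * (4 / 2 ^ ρ)) =
      4 * (n * C) * Real.exp (q * u) ^ K₁ * (2 ^ e / 2 ^ ρ) := by
    ring
  rw [e4] at t2
  have hw : (1 : ℝ) / 2 ^ ρ ≤ 2 ^ e / 2 ^ ρ := div_le_div_of_nonneg_right he1 (by positivity)
  obtain ⟨W, hW⟩ : ∃ W : ℝ, W = 2 ^ e / 2 ^ ρ := ⟨_, rfl⟩
  rw [← hW] at hw t2 ⊢
  have hW0 : 0 ≤ W := by
    rw [hW]
    positivity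
  have f2 : Real.exp u = Real.exp (1 * u) := by rw [one_mul]
  have f3 : 2 * R ≤ Real.exp ((2 + c * (c + q)) * u) := by
    have e1 : (c : ℝ) * Real.exp (q * u) ≤ Real.exp ((c + q) * u) := by
      rw [add_mul, Real.exp_add]
      exact mul_le_mul_of_nonneg_right (le_exp_mul hc0 hu) (Real.exp_pos _).le
    have e2 : R ≤ Real.exp ((c * (c + q)) * u) := by
      rw [hR]
      refine (pow_le_pow_left₀ (by positivity) e1 c).trans (le_of_eq ?_)
      rw [← Real.exp_nat_mul]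
      congr 1
      ring
    rw [add_mul, Real.exp_add]
    exact mul_le_mul (le_exp_mul (by norm_num) hu) e2 hR0 (Real.exp_pos _).le
  have f4 : 4 * (n * C) * Real.exp (q * u) ^ K₁ ≤ Real.exp ((4 * (n * C) + K₁ * q) * u) := by
    rw [add_mul, Real.exp_add]
    refine mul_le_mul (le_exp_mul (by positivity) hu) (le_of_eq ?_) (by positivity)
      (Real.exp_pos _).le
    rw [← Real.exp_nat_mul]
    congr 1
    ring
  have f1 : (2 : ℝ) ≤ Real.exp (2 * u) := le_exp_mul (by norm_num) hu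
  have f5 := exp_add4 (a := 2 + c * (c + q)) (b := 4 * (n * C) + K₁ * q) (c := 1) (d := 2)
    z1 z2 (by norm_num) (by norm_num) hu
  rw [← hq', ← f2] at f5
  have e2 : |eval b (P n) - x n| ≤ R * (1 / 2 ^ ρ) +
      4 * (n * C) * Real.exp (q * u) ^ K₁ * W + R * (1 / 2 ^ ρ) + Real.exp u * (1 / 2 ^ ρ) +
      2 * (1 / 2 ^ ρ) := by
    have e3 : eval b (P n) - x n = (eval b (P n) - eval b (G n)) +
        (eval b (G n) - eval ℓ (G n)) - (eval ℓ (P n) - eval ℓ (G n)) -
        (ℓ n - eval ℓ (P n)) + (ℓ n - x n) := by ring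
    rw [e3]
    refine (abs_add_le _ _).trans (add_le_add ?_ t5)
    refine (abs_sub _ _).trans (add_le_add ?_ t4)
    refine (abs_sub _ _).trans (add_le_add ?_ t3)
    exact (abs_add_le _ _).trans (add_le_add t1 t2)
  refine e2.trans ?_
  have g1 : R * (1 / 2 ^ ρ) ≤ R * W := mul_le_mul_of_nonneg_left hw hR0
  have g2 : Real.exp u * (1 / 2 ^ ρ) ≤ Real.exp u * W :=
    mul_le_mul_of_nonneg_left hw (Real.exp_pos _).le
  have g3 : 2 * (1 / 2 ^ ρ : ℝ) ≤ 2 * W := mul_le_mul_of_nonneg_left hw (by norm_num)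
  have g4 : (2 * R + 4 * (n * C) * Real.exp (q * u) ^ K₁ + Real.exp u + 2) * W ≤
      Real.exp (q' * u) * W := mul_le_mul_of_nonneg_right (by linarith) hW0
  linarith

/-- **The gradient on the ball**, with the time. -/
theorem ball (n K c D : ℕ) (hn : 1 ≤ n) : ∃ q : ℝ, 0 ≤ q ∧ ∀ (u : ℝ) (P G : ℕ → PN)
    (g : ℕ → ℕ) (x v : ℕ → ℝ) (ρ e : ℕ), 1 ≤ u → Dat n K c u P G g x v ρ e →
    (P n).totalDegree ≤ D → (P n).vars ⊆ range n → ∀ b : ℕ → ℝ,
    (∀ j < n, |b j - x j| ≤ 1 / 2 ^ ρ) → ∀ o < n,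
    |eval b (pderiv o (P n))| ≤ Real.exp (q * u) * 2 ^ e := by
  obtain ⟨q, hq, hval⟩ := val n K c hn
  obtain ⟨C, hC, hmk⟩ := dir_markov D
  refine ⟨C + q, by linarith, ?_⟩
  intro u P G g x v ρ e hu h hPd hPv b hb o ho
  have h1 := hmk (P n) b o n (1 / 2 ^ ρ) (Real.exp (q * u) * (2 ^ e / 2 ^ ρ)) (x n) hPd hPv ho
    (by positivity) fun s hs => by
      refine hval u P G g x v ρ e hu h _ fun j hj => ?_
      have e3 : (2 : ℝ) / 2 ^ ρ = 1 / 2 ^ ρ + 1 / 2 ^ ρ := by ring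
      rw [e3]
      have e1 := hb j hj
      by_cases hjo : j = o
      · subst hjo
        rw [Function.update_self]
        rw [abs_le] at e1 hs ⊢
        constructor <;> linarith [e1.1, e1.2, hs.1, hs.2]
      · rw [Function.update_of_ne hjo]
        have : (0 : ℝ) < 1 / 2 ^ ρ := by positivity
        linarith
  refine h1.trans ?_
  have e1 : C * (Real.exp (q * u) * (2 ^ e / 2 ^ ρ)) / (1 / 2 ^ ρ) =
      C * Real.exp (q * u) * 2 ^ e := by
    field_simp
  rw [e1, add_mul, Real.exp_add]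
  refine mul_le_mul_of_nonneg_right ?_ (by positivity)
  exact mul_le_mul_of_nonneg_right (le_exp_mul (by linarith) hu) (Real.exp_pos _).le

end Pool.DIA
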