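import Pool.Agent.H39.GEN.Blow

/-!
# Limits of thresholds

Every monotone function `A (Q, q)` with Lipschitz constant one, `q ≤ A ≤ 1`, `A (0, q) = q`, is the
level function of a threshold. Limits of thresholds along an ultrafilter: the level functions
converge uniformly, the thresholds converge up to small shifts of the radius and the window.
-/

set_option autoImplicit false

namespace Pool.STR

open MeasureTheory Set Filter Topology Pool.LEV
open scoped NNReal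

/-! ### Level functions -/

/-- The laws of a level function on `[0, 1] ^ 2`. -/
structure LvF (A : ℝ × ℝ → ℝ) : Prop where
  add : ∀ Q Q' q q' s, 0 ≤ Q → Q ≤ 1 → 0 ≤ Q' → Q' ≤ 1 → 0 ≤ q → q ≤ 1 → 0 ≤ q' → q' ≤ 1 → 0 ≤ s →
    Q' ≤ Q + s → q' ≤ q + s → A (Q', q') ≤ A (Q, q) + s
  zero : ∀ q, 0 ≤ q → q ≤ 1 → A (0, q) = q
  ge : ∀ Q q, 0 ≤ Q → Q ≤ 1 → 0 ≤ q → q ≤ 1 → q ≤ A (Q, q)
  le : ∀ Q q, 0 ≤ Q → Q ≤ 1 → 0 ≤ q → q ≤ 1 → A (Q, q) ≤ 1

theorem LvF.mono {A : ℝ × ℝ → ℝ} (h : LvF A) {Q Q' q q' : ℝ} (h0 : 0 ≤ Q) (h1 : Q ≤ Q')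
    (h2 : Q' ≤ 1) (h3 : 0 ≤ q) (h4 : q ≤ q') (h5 : q' ≤ 1) : A (Q, q) ≤ A (Q', q') := by
  have := h.add Q' Q q' q 0 (h0.trans h1) h2 h0 (h1.trans h2) (h3.trans h4) h5 h3 (h4.trans h5)
    le_rfl (by linarith) (by linarith)
  linarith

/-- The level function of a threshold. -/
theorem lvF_of {P : ℝ → ℝ → ℝ} (h : Law P) (h0 : ∀ a, 0 ≤ a → a ≤ 1 → 0 ≤ P a 0) :
    LvF (Lv P) where
  add Q Q' q q' s a1 a2 a3 a4 a5 a6 a7 a8 a9 a10 a11 := by
    rw [Lv_eq a5 a6 a1 a2, Lv_eq a7 a8 a3 a4]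
    exact lev_add h a5 a6 a7 a8 a4 a9 a10 a11
  zero q a1 a2 := by
    rw [Lv_eq a1 a2 le_rfl zero_le_one]
    refine le_antisymm (lev_le ⟨le_rfl, a2, Or.inl ?_⟩) (le_lev a2)
    rw [sub_self]
    exact h0 q a1 a2
  ge Q q a1 a2 a3 a4 := by
    rw [Lv_eq a3 a4 a1 a2]
    exact le_lev a4
  le Q q a1 a2 a3 a4 := by
    rw [Lv_eq a3 a4 a1 a2]
    exact lev_le_one a4

/-- The rows which are reached at the radius `a`, on the window `w`. -/
def iset (A : ℝ × ℝ → ℝ) (a w : ℝ) : Set ℝ := {Q | 0 ≤ Q ∧ Q ≤ 1 ∧ A (Q, a - w) ≤ a}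

/-- **The threshold of a level function.** -/
noncomputable def inv (A : ℝ × ℝ → ℝ) (a w : ℝ) : ℝ := sSup (iset A a w)

theorem iset_bdd {A : ℝ × ℝ → ℝ} {a w : ℝ} : BddAbove (iset A a w) := ⟨1, fun _ h => h.2.1⟩

theorem le_inv {A : ℝ × ℝ → ℝ} {a w Q : ℝ} (h : Q ∈ iset A a w) : Q ≤ inv A a w :=
  le_csSup iset_bdd h

theorem iset_zero {A : ℝ × ℝ → ℝ} (h : LvF A) {a w : ℝ} (h0 : 0 ≤ w) (h1 : w ≤ a) (h2 : a ≤ 1) :
    (0 : ℝ) ∈ iset A a w := by
  refine ⟨le_rfl, zero_le_one, ?_⟩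
  rw [h.zero (a - w) (by linarith) (by linarith)]
  linarith

theorem inv_nonneg {A : ℝ × ℝ → ℝ} (h : LvF A) {a w : ℝ} (h0 : 0 ≤ w) (h1 : w ≤ a) (h2 : a ≤ 1) :
    0 ≤ inv A a w := le_inv (iset_zero h h0 h1 h2)

theorem inv_le_one {A : ℝ × ℝ → ℝ} (h : LvF A) {a w : ℝ} (h0 : 0 ≤ w) (h1 : w ≤ a) (h2 : a ≤ 1) :
    inv A a w ≤ 1 := csSup_le ⟨0, iset_zero h h0 h1 h2⟩ fun _ h => h.2.1

/-- The threshold of a level function has the laws of thresholds. -/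
theorem law_inv {A : ℝ × ℝ → ℝ} (h : LvF A) : Law (inv A) where
  mono_a a a' w h0 h1 h2 h3 := by
    refine csSup_le ⟨0, iset_zero h h0 h1 (h2.trans h3)⟩ fun Q hQ => le_inv ⟨hQ.1, hQ.2.1, ?_⟩
    have := h.add Q Q (a - w) (a' - w) (a' - a) hQ.1 hQ.2.1 hQ.1 hQ.2.1 (by linarith)
      (by linarith) (by linarith) (by linarith) (by linarith) (by linarith) (by linarith)
    linarith [hQ.2.2]
  mono_w a w w' h0 h1 h2 h3 := by
    refine csSup_le ⟨0, iset_zero h h0 (h1.trans h2) h3⟩ fun Q hQ => le_inv ⟨hQ.1, hQ.2.1, ?_⟩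
    have := h.mono hQ.1 le_rfl hQ.2.1 (q := a - w') (q' := a - w) (by linarith) (by linarith)
      (by linarith)
    linarith [hQ.2.2]
  slope a w v h0 h1 h2 h3 := by
    by_contra hc
    push Not at hc
    rw [lt_min_iff] at hc
    obtain ⟨c1, c2⟩ := hc
    have c3 : inv A (a + v) w - v < inv A a w := by linarith
    obtain ⟨Q, hQ, hQ'⟩ := exists_lt_of_lt_csSup ⟨0, iset_zero h h0 h1 (by linarith)⟩ c3
    have c4 : min 1 (Q + v) ∈ iset A (a + v) w := by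
      refine ⟨le_min zero_le_one (by linarith [hQ.1]), min_le_left _ _, ?_⟩
      have := h.add Q (min 1 (Q + v)) (a - w) (a + v - w) v hQ.1 hQ.2.1
        (le_min zero_le_one (by linarith [hQ.1])) (min_le_left _ _) (by linarith) (by linarith)
        (by linarith) (by linarith) h2 (min_le_right _ _) (by linarith)
      linarith [hQ.2.2]
    have c5 := le_inv c4
    rcases le_total 1 (Q + v) with c6 | c6
    · rw [min_eq_left c6] at c5
      linarith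
    · rw [min_eq_right c6] at c5
      linarith

/-- The level function of its threshold. -/
theorem lev_inv {A : ℝ × ℝ → ℝ} (h : LvF A) {Q q : ℝ} (h0 : 0 ≤ Q) (h1 : Q ≤ 1) (h2 : 0 ≤ q)
    (h3 : q ≤ 1) : lev (inv A) Q q = A (Q, q) := by
  have hge := h.ge Q q h0 h1 h2 h3
  have hle := h.le Q q h0 h1 h2 h3
  refine le_antisymm (lev_le ⟨hge, hle, Or.inl (le_inv ⟨h0, h1, ?_⟩)⟩) ?_
  · rw [sub_sub_cancel]
  · refine le_csInf ⟨1, one_mem h3⟩ ?_
    rintro a ⟨a1, a2, a3⟩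
    rcases a3 with a3 | a3
    swap
    · rw [a3]
      exact hle
    by_contra hc
    push Not at hc
    -- the row `Q - s` is not reached either
    have hq1 : q < 1 := lt_of_le_of_ne h3 fun hq => by
      rw [hq] at a1
      linarith
    have hQ0 : 0 < Q := lt_of_le_of_ne h0 fun hQ => by
      rw [← hQ, h.zero q h2 h3] at hc
      linarith
    obtain ⟨s, hs⟩ : ∃ s, s = min (min Q (1 - q)) ((A (Q, q) - a) / 2) := ⟨_, rfl⟩
    have s0 : 0 < s := by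
      rw [hs]
      exact lt_min (lt_min hQ0 (by linarith)) (by linarith)
    have s1 : s ≤ Q := by
      rw [hs]
      exact (min_le_left _ _).trans (min_le_left _ _)
    have s2 : s ≤ 1 - q := by
      rw [hs]
      exact (min_le_left _ _).trans (min_le_right _ _)
    have s3 : s ≤ (A (Q, q) - a) / 2 := by
      rw [hs]
      exact min_le_right _ _
    have e1 : A (Q, q) ≤ A (Q - s, q) + s :=
      h.add (Q - s) Q q q s (by linarith) (by linarith) h0 h1 h2 h3 h2 h3 s0.le (by linarith)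
        (by linarith)
    have e2 : inv A a (a - q) ≤ Q - s := by
      refine csSup_le ⟨0, iset_zero h (by linarith) (by linarith) a2⟩ fun Q' hQ' => ?_
      by_contra hcc
      push Not at hcc
      have e3 := h.mono (Q := Q - s) (Q' := Q') (q := q) (q' := q) (by linarith) hcc.le hQ'.2.1 h2
        le_rfl h3
      have e4 := hQ'.2.2
      rw [sub_sub_cancel] at e4
      linarith
    linarith

theorem Lv_inv {A : ℝ × ℝ → ℝ} (h : LvF A) {Q q : ℝ} (h0 : 0 ≤ Q) (h1 : Q ≤ 1) (h2 : 0 ≤ q)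
    (h3 : q ≤ 1) : Lv (inv A) (Q, q) = A (Q, q) := by
  rw [Lv_eq h2 h3 h0 h1, lev_inv h h0 h1 h2 h3]

/-! ### Comparison -/

/-- Comparison of thresholds from the comparison of the level functions: upper bound. -/
theorem cmp_le {P : ℝ → ℝ → ℝ} {A : ℝ × ℝ → ℝ} {δ : ℝ}
    (hd : ∀ Q q, 0 ≤ Q → Q ≤ 1 → 0 ≤ q → q ≤ 1 → A (Q, q) ≤ Lv P (Q, q) + δ) {a w : ℝ}
    (h0 : 0 ≤ w) (h1 : w ≤ a) (h2 : a ≤ 1) (hP0 : 0 ≤ P a w) (hP1 : P a w ≤ 1) :
    P a w ≤ inv A (a + δ) (w + δ) := by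
  refine le_inv ⟨hP0, hP1, ?_⟩
  have e1 := hd (P a w) (a - w) hP0 hP1 (by linarith) (by linarith)
  rw [Lv_eq (by linarith) (by linarith) hP0 hP1] at e1
  have e2 : lev P (P a w) (a - w) ≤ a := by
    refine lev_le ⟨by linarith, h2, Or.inl ?_⟩
    rw [sub_sub_cancel]
  rw [show a + δ - (w + δ) = a - w by ring]
  linarith

/-- Comparison of thresholds: lower bound. -/
theorem le_cmp {P : ℝ → ℝ → ℝ} (hP : Law P) {A : ℝ × ℝ → ℝ} {δ δ' : ℝ} (hδ : δ < δ')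
    (hd : ∀ Q q, 0 ≤ Q → Q ≤ 1 → 0 ≤ q → q ≤ 1 → Lv P (Q, q) ≤ A (Q, q) + δ) {a w : ℝ}
    (h0 : 0 ≤ w) (h1 : w ≤ a) (h2 : a ≤ 1) (hP0 : 0 ≤ P a w) :
    inv A (a - δ') (w - δ') ≤ P a w := by
  by_cases hne : (iset A (a - δ') (w - δ')).Nonempty
  · refine csSup_le hne fun Q hQ => ?_
    have e1 := hd Q (a - w) hQ.1 hQ.2.1 (by linarith) (by linarith)
    have e2 := hQ.2.2
    rw [show a - δ' - (w - δ') = a - w by ring] at e2
    rw [Lv_eq (by linarith) (by linarith) hQ.1 hQ.2.1] at e1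
    have e3 : lev P Q (a - w) < a := by linarith
    have := le_of_lev_lt hP (by linarith) (by linarith) e3 h2
    rwa [sub_sub_cancel] at this
  · rw [Set.not_nonempty_iff_eq_empty] at hne
    rw [inv, hne, Real.sSup_empty]
    exact hP0

/-! ### Limits along an ultrafilter -/

/-- Equicontinuous functions converge uniformly on compact sets. -/
theorem ulim_unif {α : Type*} [PseudoMetricSpace α] (U : Ultrafilter ℕ) (b : ℕ → α → ℝ) (K : ℝ≥0)
    (hb : ∀ n, LipschitzWith K (b n)) (R : ℝ) (hR : ∀ n x, |b n x| ≤ R) :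
    ∃ f : α → ℝ, LipschitzWith K f ∧ (∀ x, Tendsto (fun n => b n x) U (𝓝 (f x))) ∧
      ∀ s : Set α, IsCompact s → ∀ η : ℝ, 0 < η → ∀ᶠ n in (U : Filter ℕ), ∀ x ∈ s,
        |b n x - f x| ≤ η := by
  have h1 : ∀ x : α, ∃ y : ℝ, Tendsto (fun n => b n x) U (𝓝 y) := fun x =>
    ulim U _ R fun n => hR n x
  choose f hf using h1
  have hfl : LipschitzWith K f := by
    refine LipschitzWith.of_dist_le_mul fun p p' => ?_
    have h2 : Tendsto (fun n => dist (b n p) (b n p')) U (𝓝 (dist (f p) (f p'))) :=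
      (hf p).dist (hf p')
    exact le_of_tendsto h2 (Eventually.of_forall fun n => (hb n).dist_le_mul p p')
  refine ⟨f, hfl, hf, fun s hs η hη => ?_⟩
  have hr : 0 < η / (3 * ((K : ℝ) + 1)) := by positivity
  obtain ⟨t, -, ht1, ht2⟩ := hs.finite_cover_balls hr
  have h3 : ∀ᶠ n in (U : Filter ℕ), ∀ z ∈ t, |b n z - f z| < η / 3 := by
    rw [Filter.eventually_all_finite ht1]
    intro z _
    have := Metric.tendsto_nhds.1 (hf z) (η / 3) (by positivity)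
    filter_upwards [this] with n hn
    rwa [Real.dist_eq] at hn
  filter_upwards [h3] with n hn x hx
  obtain ⟨z, hz, hz'⟩ := mem_iUnion₂.1 (ht2 hx)
  rw [Metric.mem_ball] at hz'
  have e1 := (hb n).dist_le_mul x z
  have e2 := hfl.dist_le_mul x z
  rw [Real.dist_eq] at e1 e2
  have e0 : (K : ℝ) * dist x z ≤ η / 3 := by
    have k0 : (0 : ℝ) ≤ K := K.2
    calc (K : ℝ) * dist x z ≤ ((K : ℝ) + 1) * (η / (3 * ((K : ℝ) + 1))) :=
          mul_le_mul (by linarith) hz'.le dist_nonneg (by linarith)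
      _ = η / 3 := by field_simp
  have e3 := hn z hz
  have e4 : b n x - f x = (b n x - b n z) + (b n z - f z) - (f x - f z) := by ring
  rw [e4]
  refine (abs_sub _ _).trans ?_
  have e5 := abs_add_le (b n x - b n z) (b n z - f z)
  linarith

/-- Numbers on `[0, 1]`. -/
theorem ulim_num (U : Ultrafilter ℕ) (ρ : ℕ → ℝ → ℝ) (K : ℝ≥0)
    (hρ : ∀ n, LipschitzOnWith K (ρ n) (Icc 0 1)) (R : ℝ) (hR : ∀ n, ∀ x ∈ Icc (0 : ℝ) 1,
      |ρ n x| ≤ R) :
    ∃ f : ℝ → ℝ, LipschitzWith K f ∧ (∀ x ∈ Icc (0 : ℝ) 1,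
        Tendsto (fun n => ρ n x) U (𝓝 (f x))) ∧
      ((∀ n, MonotoneOn (ρ n) (Icc 0 1)) → Monotone f) ∧
      ∀ η : ℝ, 0 < η → ∀ᶠ n in (U : Filter ℕ), ∀ x ∈ Icc (0 : ℝ) 1, |ρ n x - f x| ≤ η := by
  have hc : ∀ x, cl x ∈ Icc (0 : ℝ) 1 := fun x => ⟨cl_nonneg x, cl_le_one x⟩
  obtain ⟨f, hf1, hf2, hf3⟩ := ulim_unif U (fun n x => ρ n (cl x)) K (fun n => by
    refine LipschitzWith.of_dist_le_mul fun x y => ?_
    refine ((hρ n).dist_le_mul _ (hc x) _ (hc y)).trans ?_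
    refine mul_le_mul_of_nonneg_left ?_ K.2
    rw [Real.dist_eq, Real.dist_eq]
    exact cl_lip x y) R fun n x => hR n _ (hc x)
  refine ⟨f, hf1, fun x hx => ?_, fun hm x y hxy => ?_, fun η hη => ?_⟩
  · have := hf2 x
    simpa only [cl_of_mem hx.1 hx.2] using this
  · exact le_of_tendsto_of_tendsto (hf2 x) (hf2 y)
      (Eventually.of_forall fun n => hm n (hc x) (hc y) (cl_mono hxy))
  · filter_upwards [hf3 (Icc 0 1) isCompact_Icc η hη] with n hn x hx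
    have := hn x hx
    rwa [cl_of_mem hx.1 hx.2] at this

/-- **Limits of thresholds.** -/
theorem ulim_law (U : Ultrafilter ℕ) (P : ℕ → ℝ → ℝ → ℝ) (hP : ∀ n, Law (P n))
    (h0 : ∀ n a w, 0 ≤ w → w ≤ a → a ≤ 1 → 0 ≤ P n a w)
    (h1 : ∀ n a w, 0 ≤ w → w ≤ a → a ≤ 1 → P n a w ≤ 1) :
    ∃ Ps : ℝ → ℝ → ℝ, Law Ps ∧ (∀ a w, 0 ≤ w → w ≤ a → a ≤ 1 → 0 ≤ Ps a w) ∧
      (∀ a w, 0 ≤ w → w ≤ a → a ≤ 1 → Ps a w ≤ 1) ∧
      (∀ p, Tendsto (fun n => Lv (P n) p) U (𝓝 (Lv Ps p))) ∧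
      (∀ δ : ℝ, 0 < δ → ∀ᶠ n in (U : Filter ℕ), ∀ p, |Lv (P n) p - Lv Ps p| ≤ δ) ∧
      ∀ δ : ℝ, 0 < δ → ∀ᶠ n in (U : Filter ℕ), ∀ a w, 0 ≤ w → w ≤ a → a ≤ 1 →
        P n a w ≤ Ps (a + δ) (w + δ) ∧ Ps (a - δ) (w - δ) ≤ P n a w := by
  have hl : ∀ n, LvF (Lv (P n)) := fun n => lvF_of (hP n) fun a a0 a1 => h0 n a 0 le_rfl a0 a1
  obtain ⟨f, hf1, hf2, hf3⟩ := ulim_unif U (fun n => Lv (P n)) 1 (fun n => Lv_lip (hP n)) 1
    fun n p => by
      have e1 : 0 ≤ Lv (P n) p := by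
        unfold Lv
        exact (cl_nonneg _).trans (le_lev (cl_le_one _))
      have e2 : Lv (P n) p ≤ 1 := by
        unfold Lv
        exact lev_le_one (cl_le_one _)
      rw [abs_of_nonneg e1]
      exact e2
  have hA : LvF f := by
    refine ⟨fun Q Q' q q' s a1 a2 a3 a4 a5 a6 a7 a8 a9 a10 a11 => ?_, fun q a1 a2 => ?_,
      fun Q q a1 a2 a3 a4 => ?_, fun Q q a1 a2 a3 a4 => ?_⟩
    · exact le_of_tendsto_of_tendsto (hf2 (Q', q')) ((hf2 (Q, q)).add_const s)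
        (Eventually.of_forall fun n => (hl n).add Q Q' q q' s a1 a2 a3 a4 a5 a6 a7 a8 a9 a10 a11)
    · refine tendsto_nhds_unique (hf2 (0, q)) ?_
      refine tendsto_const_nhds.congr fun n => ?_
      exact ((hl n).zero q a1 a2).symm
    · exact ge_of_tendsto (hf2 (Q, q)) (Eventually.of_forall fun n => (hl n).ge Q q a1 a2 a3 a4)
    · exact le_of_tendsto (hf2 (Q, q)) (Eventually.of_forall fun n => (hl n).le Q q a1 a2 a3 a4)
  -- the values off the unit square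
  have hcl : ∀ p : ℝ × ℝ, f p = f (cl p.1, cl p.2) := by
    intro p
    refine tendsto_nhds_unique (hf2 p) ?_
    refine (hf2 (cl p.1, cl p.2)).congr fun n => ?_
    show lev (P n) (cl (cl p.1)) (cl (cl p.2)) = lev (P n) (cl p.1) (cl p.2)
    rw [cl_of_mem (cl_nonneg p.1) (cl_le_one p.1), cl_of_mem (cl_nonneg p.2) (cl_le_one p.2)]
  have hLv : ∀ p : ℝ × ℝ, Lv (inv f) p = f p := by
    intro p
    rw [hcl p]
    show lev (inv f) (cl p.1) (cl p.2) = _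
    exact lev_inv hA (cl_nonneg _) (cl_le_one _) (cl_nonneg _) (cl_le_one _)
  have hun : ∀ δ : ℝ, 0 < δ → ∀ᶠ n in (U : Filter ℕ), ∀ p, |Lv (P n) p - Lv (inv f) p| ≤ δ := by
    intro δ hδ
    filter_upwards [hf3 (Icc 0 1 ×ˢ Icc 0 1) (isCompact_Icc.prod isCompact_Icc) δ hδ] with n hn p
    rw [hLv p, hcl p]
    have e1 : Lv (P n) p = Lv (P n) (cl p.1, cl p.2) := by
      show lev (P n) (cl p.1) (cl p.2) = lev (P n) (cl (cl p.1)) (cl (cl p.2))
      rw [cl_of_mem (cl_nonneg p.1) (cl_le_one p.1), cl_of_mem (cl_nonneg p.2) (cl_le_one p.2)]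
    rw [e1]
    exact hn _ ⟨⟨cl_nonneg _, cl_le_one _⟩, ⟨cl_nonneg _, cl_le_one _⟩⟩
  refine ⟨inv f, law_inv hA, fun a w => inv_nonneg hA, fun a w => inv_le_one hA, fun p => ?_,
    hun, fun δ hδ => ?_⟩
  · rw [hLv p]
    exact hf2 p
  · filter_upwards [hun (δ / 2) (half_pos hδ), hun δ hδ] with n hn hn' a w w0 wa a1
    refine ⟨?_, ?_⟩
    · refine cmp_le (fun Q q q1 q2 q3 q4 => ?_) w0 wa a1 (h0 n a w w0 wa a1) (h1 n a w w0 wa a1)
      have := (abs_le.1 (hn' (Q, q))).1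
      rw [hLv] at this
      linarith
    · refine le_cmp (hP n) (half_lt_self hδ) (fun Q q q1 q2 q3 q4 => ?_) w0 wa a1
        (h0 n a w w0 wa a1)
      have := (abs_le.1 (hn (Q, q))).2
      rw [hLv] at this
      linarith

end Pool.STR
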