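import Pool.Agent.H2.UST.Ev
import Pool.Agent.H32.Dense.Marg

/-!
# The static world

Over a static base a line `n = y + T v` (`T` the time, full given the line and the context `C`)
is either full at the typical time, or its velocity is known given the context, with positive
probability (Córdoba's argument with conditional copies).
-/

set_option autoImplicit false

namespace Pool.STW

open Finset Real
open Pool.Agent.H49.Ent Pool.Agent.H32.Dense Pool.STK Pool.KA Pool.K2S Pool.UST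

variable {Ω γ 𝓁 β : Type} [Fintype Ω] {p : Ω → ℝ}

/-- **Conditional copies.** Two copies `Λ₁, Λ₂` of `Λ` given `(x, C)`: the entropy of `x` given both
copies is at least `2 H (x | Λ, C) - H (x | C)`. -/
theorem copies (hp : IsLaw p) (C : Ω → γ) (Λ : Ω → 𝓁) (x : Ω → β) :
    2 * CH p x (fun ω => (Λ ω, C ω)) - CH p x C ≤
      CH (glue p p (fun ω => (x ω, C ω)) (fun ω => (x ω, C ω))) (fun w => x w.1)
        (fun w => ((Λ w.1, Λ w.2), C w.1)) := by
  classical
  have h0 := hp.nonneg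
  set q := glue p p (fun ω => (x ω, C ω)) (fun ω => (x ω, C ω)) with hq
  have hq0 : ∀ w, 0 ≤ q w := fun w => glue_nonneg (Z₁ := fun ω => (x ω, C ω))
    (Z₂ := fun ω => (x ω, C ω)) h0 h0 w
  have hZ : ∀ z, law p (fun ω => (x ω, C ω)) z = law p (fun ω => (x ω, C ω)) z := fun _ => rfl
  have hm1 : Marg q p (fun w => w.1) := marg_fst (Z₂ := fun ω => (x ω, C ω)) h0 hZ
  have hm2 : Marg q p (fun w => w.2) := marg_snd (Z₁ := fun ω => (x ω, C ω)) h0 hZ
  have hsup : ∀ w, 0 < q w → x w.1 = x w.2 ∧ C w.1 = C w.2 := fun w hw => by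
    have := ((glue_pos_iff h0 h0 w).1 hw).2.2
    exact ⟨(Prod.ext_iff.1 this).1, (Prod.ext_iff.1 this).2⟩
  -- the entropy of the two copies given `x`
  have e1 : CH q (fun w => Λ w.1) (fun w => ((x w.1, C w.1), Λ w.2)) =
      CH p Λ (fun ω => (x ω, C ω)) :=
    CH_glue_fst h0 h0 hZ Λ (Y := fun ω => (x ω, C ω)) Λ (fun _ _ _ _ h => h)
  have e2 : CH q (fun w => Λ w.2) (fun w => (x w.1, C w.1)) = CH p Λ (fun ω => (x ω, C ω)) := by
    rw [← hm2.CH Λ (fun ω => (x ω, C ω))]
    refine CH_congr hq0 (fun _ _ _ _ h => (Prod.ext_iff.mp h).1)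
      (fun _ _ _ _ h => (Prod.ext_iff.mp h).1) ?_ ?_
    · intro w w' a b e
      have h1 := hsup w a
      have h2 := hsup w' b
      have h3 := Prod.ext_iff.1 e
      simp only at h3 ⊢
      rw [← h1.1, ← h1.2, ← h2.1, ← h2.2]
      exact e
    · intro w w' a b e
      have h1 := hsup w a
      have h2 := hsup w' b
      simp only at e ⊢
      rw [h1.1, h1.2, h2.1, h2.2]
      exact e
  have e3 : CH q (fun w => (Λ w.1, Λ w.2)) (fun w => (x w.1, C w.1)) =
      2 * CH p Λ (fun ω => (x ω, C ω)) := by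
    rw [CH_chain hq0, e2]
    have : CH q (fun w => Λ w.1) (fun w => (Λ w.2, (x w.1, C w.1))) =
        CH q (fun w => Λ w.1) (fun w => ((x w.1, C w.1), Λ w.2)) := by
      refine CH_congr hq0 (fun _ _ _ _ h => (Prod.ext_iff.mp h).1)
        (fun _ _ _ _ h => (Prod.ext_iff.mp h).1) ?_ ?_ <;>
      · intro w w' _ _ h
        simp only [Prod.mk.injEq] at h ⊢
        tauto
    rw [this, e1]
    ring
  -- the chain rules
  have e4 := CH_chain hq0 (fun w => (Λ w.1, Λ w.2)) (fun w => x w.1) (fun w => C w.1)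
  have e5 := CH_chain hq0 (fun w => x w.1) (fun w => (Λ w.1, Λ w.2)) (fun w => C w.1)
  have e6 : CH q (fun w => ((Λ w.1, Λ w.2), x w.1)) (fun w => C w.1) =
      CH q (fun w => (x w.1, (Λ w.1, Λ w.2))) (fun w => C w.1) := by
    refine CH_congr hq0 ?_ ?_ (fun _ _ _ _ h => h) (fun _ _ _ _ h => h) <;>
    · intro w w' _ _ h
      simp only [Prod.mk.injEq] at h ⊢
      tauto
  have e7 : CH q (fun w => x w.1) (fun w => C w.1) = CH p x C := hm1.CH x C
  have e8 : CH q (fun w => (Λ w.1, Λ w.2)) (fun w => C w.1) ≤ 2 * CH p Λ C := by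
    refine (CH_subadd hq0 _ _ _).trans ?_
    have a1 : CH q (fun w => Λ w.1) (fun w => C w.1) = CH p Λ C := hm1.CH Λ C
    have a2 : CH q (fun w => Λ w.2) (fun w => C w.1) = CH p Λ C := by
      rw [← hm2.CH Λ C]
      refine CH_congr hq0 (fun _ _ _ _ h => (Prod.ext_iff.mp h).1)
        (fun _ _ _ _ h => (Prod.ext_iff.mp h).1) ?_ ?_
      · intro w w' a b e
        exact (hsup w a).2.symm.trans (Eq.trans e (hsup w' b).2)
      · intro w w' a b e
        exact (hsup w a).2.trans (Eq.trans e (hsup w' b).2.symm)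
    rw [a1, a2]
    linarith
  have e9 := CH_chain h0 Λ x C
  have e10 := CH_chain h0 x Λ C
  have e11 : CH p (fun ω => (Λ ω, x ω)) C = CH p (fun ω => (x ω, Λ ω)) C := by
    refine CH_congr h0 ?_ ?_ (fun _ _ _ _ h => h) (fun _ _ _ _ h => h) <;>
    · intro w w' _ _ h
      simp only [Prod.mk.injEq] at h ⊢
      tauto
  have e12 : CH q (fun w => (Λ w.1, Λ w.2)) (fun w => (x w.1, C w.1)) =
      2 * CH p Λ (fun ω => (x ω, C ω)) := e3
  linarith

/-- **The lines through a point.** `s` digits of the velocity: with the probability `P` two lines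
through the same point (copies given `(C, T, n)`) have velocities closer than `2 ^ (-s)`. -/
theorem cordoba (hp : IsLaw p) (C : Ω → γ) (Λ : Ω → 𝓁) (T n : Ω → ℤ) (y v : 𝓁 → ℝ) (X s : ℕ)
    (E : ℝ) (hE : 0 ≤ E) (hT : ∀ ω, 0 < p ω → 0 ≤ T ω ∧ T ω ≤ 2 ^ X)
    (hn : ∀ ω, 0 < p ω → |(n ω : ℝ) - (y (Λ ω) + T ω * v (Λ ω))| ≤ E) :
    2 * CH p (fun ω => (T ω, n ω)) (fun ω => (Λ ω, C ω)) - CH p (fun ω => (T ω, n ω)) C -
      (s * Real.log 2 + Real.log 3 + Real.log (8 * E + 1) + Real.log (4 * E + 1)) ≤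
      Pe (glue p p (fun ω => ((T ω, n ω), C ω)) (fun ω => ((T ω, n ω), C ω)))
        (fun w => |v (Λ w.1) - v (Λ w.2)| ≤ 1 / 2 ^ s) * (X * Real.log 2) := by
  classical
  have h0 := hp.nonneg
  have hc := copies hp C Λ (fun ω => (T ω, n ω))
  set q := glue p p (fun ω => ((T ω, n ω), C ω)) (fun ω => ((T ω, n ω), C ω)) with hq
  have hq0 : ∀ w, 0 ≤ q w := fun w => glue_nonneg (Z₁ := fun ω => ((T ω, n ω), C ω))
    (Z₂ := fun ω => ((T ω, n ω), C ω)) h0 h0 w
  have hZ : ∀ z, law p (fun ω => ((T ω, n ω), C ω)) z = law p (fun ω => ((T ω, n ω), C ω)) z :=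
    fun _ => rfl
  have hq1 : ∑ w, q w = 1 := by
    have := sum_glue (p₁ := p) (p₂ := p) (Z₁ := fun ω => ((T ω, n ω), C ω))
      (Z₂ := fun ω => ((T ω, n ω), C ω)) h0 hZ
    rw [hq, this, hp.sum_one]
  have hsup : ∀ w, 0 < q w → 0 < p w.1 ∧ 0 < p w.2 ∧ T w.1 = T w.2 ∧ n w.1 = n w.2 :=
    fun w hw => by
    have h1 := (glue_pos_iff h0 h0 w).1 hw
    have h2 := Prod.ext_iff.1 (Prod.ext_iff.1 h1.2.2).1
    exact ⟨h1.1, h1.2.1, h2.1, h2.2⟩
  have hl2 : 0 < Real.log 2 := Real.log_pos (by norm_num)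
  -- the time
  have hTe : CH q (fun w => T w.1) (fun w => ((Λ w.1, Λ w.2), C w.1)) ≤
      Ex q (fun w => Real.log (2 * (if |v (Λ w.1) - v (Λ w.2)| ≤ 1 / 2 ^ s then (2 : ℝ) ^ X
        else 4 * E * 2 ^ s) + 1)) := by
    refine CH_le_int hq0 hq1 _ _ _ ?_
    intro w w' hw hw' he
    have he1 : Λ w.1 = Λ w'.1 ∧ Λ w.2 = Λ w'.2 := by
      simp only [Prod.mk.injEq] at he
      exact he.1
    obtain ⟨a1, a2, a3, a4⟩ := hsup w hw
    obtain ⟨b1, b2, b3, b4⟩ := hsup w' hw'
    split_ifs with h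
    · have c1 := hT w.1 a1
      have c2 := hT w'.1 b1
      have c3 : (0 : ℝ) ≤ T w.1 ∧ (T w.1 : ℝ) ≤ 2 ^ X := by
        exact ⟨by exact_mod_cast c1.1, by exact_mod_cast c1.2⟩
      have c4 : (0 : ℝ) ≤ T w'.1 ∧ (T w'.1 : ℝ) ≤ 2 ^ X := by
        exact ⟨by exact_mod_cast c2.1, by exact_mod_cast c2.2⟩
      push_cast
      rw [abs_le]
      constructor <;> linarith [c3.1, c3.2, c4.1, c4.2]
    · push Not at h
      have d1 := hn w.1 a1
      have d2 := hn w.2 a2
      have d3 := hn w'.1 b1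
      have d4 := hn w'.2 b2
      rw [← a3, ← a4] at d2
      rw [← b3, ← b4, ← he1.2] at d4
      rw [← he1.1] at d3
      -- subtract
      have e1 : |((T w.1 : ℝ) - T w'.1) * (v (Λ w.1) - v (Λ w.2))| ≤ 4 * E := by
        have e2 : ((T w.1 : ℝ) - T w'.1) * (v (Λ w.1) - v (Λ w.2)) =
            -((n w.1 : ℝ) - (y (Λ w.1) + T w.1 * v (Λ w.1))) +
            ((n w.1 : ℝ) - (y (Λ w.2) + T w.1 * v (Λ w.2))) +
            ((n w'.1 : ℝ) - (y (Λ w.1) + T w'.1 * v (Λ w.1))) -
            ((n w'.1 : ℝ) - (y (Λ w.2) + T w'.1 * v (Λ w.2))) := by ring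
        rw [e2, abs_le]
        rw [abs_le] at d1 d2 d3 d4
        constructor <;> linarith [d1.1, d1.2, d2.1, d2.2, d3.1, d3.2, d4.1, d4.2]
      rw [abs_mul] at e1
      have h2 : (0 : ℝ) < 2 ^ s := by positivity
      have e3 : |(T w.1 : ℝ) - T w'.1| * (1 / 2 ^ s) ≤ 4 * E :=
        (mul_le_mul_of_nonneg_left h.le (abs_nonneg _)).trans e1
      push_cast
      rw [mul_one_div, div_le_iff₀ h2] at e3
      exact e3
  -- the position
  have hNe : CH q (fun w => n w.1) (fun w => (T w.1, ((Λ w.1, Λ w.2), C w.1))) ≤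
      Real.log (4 * E + 1) := by
    have h1 := CH_le_int hq0 hq1 (fun w => n w.1) (fun w => (T w.1, ((Λ w.1, Λ w.2), C w.1)))
      (fun _ => 2 * E) (by
        intro w w' hw hw' he
        simp only [Prod.mk.injEq] at he
        obtain ⟨a1, a2, a3, a4⟩ := hsup w hw
        obtain ⟨b1, b2, b3, b4⟩ := hsup w' hw'
        have d1 := hn w.1 a1
        have d3 := hn w'.1 b1
        rw [← he.1, ← he.2.1.1] at d3
        push_cast
        rw [abs_le] at d1 d3 ⊢
        constructor <;> linarith [d1.1, d1.2, d3.1, d3.2])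
    rw [Ex_const hq1] at h1
    refine h1.trans (le_of_eq ?_)
    congr 1
    ring
  have hsum : CH q (fun w => (T w.1, n w.1)) (fun w => ((Λ w.1, Λ w.2), C w.1)) ≤
      Ex q (fun w => Real.log (2 * (if |v (Λ w.1) - v (Λ w.2)| ≤ 1 / 2 ^ s then (2 : ℝ) ^ X
        else 4 * E * 2 ^ s) + 1)) + Real.log (4 * E + 1) := by
    have h1 := CH_chain hq0 (fun w => n w.1) (fun w => T w.1)
      (fun w => ((Λ w.1, Λ w.2), C w.1))
    have h2 : CH q (fun w => (T w.1, n w.1)) (fun w => ((Λ w.1, Λ w.2), C w.1)) =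
        CH q (fun w => (n w.1, T w.1)) (fun w => ((Λ w.1, Λ w.2), C w.1)) := by
      refine CH_congr hq0 ?_ ?_ (fun _ _ _ _ h => h) (fun _ _ _ _ h => h) <;>
      · intro w w' _ _ h
        simp only [Prod.mk.injEq] at h ⊢
        tauto
    linarith
  -- the expectation
  have hEx : Ex q (fun w => Real.log (2 * (if |v (Λ w.1) - v (Λ w.2)| ≤ 1 / 2 ^ s then (2 : ℝ) ^ X
        else 4 * E * 2 ^ s) + 1)) ≤
      Pe q (fun w => |v (Λ w.1) - v (Λ w.2)| ≤ 1 / 2 ^ s) * (X * Real.log 2) +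
        (s * Real.log 2 + Real.log 3 + Real.log (8 * E + 1)) := by
    have hl3 : 0 ≤ Real.log 3 := Real.log_nonneg (by norm_num)
    have hl8 : 0 ≤ Real.log (8 * E + 1) := Real.log_nonneg (by linarith)
    have h1 : ∀ w, 0 < q w → Real.log (2 * (if |v (Λ w.1) - v (Λ w.2)| ≤ 1 / 2 ^ s then
        (2 : ℝ) ^ X else 4 * E * 2 ^ s) + 1) ≤
        (if |v (Λ w.1) - v (Λ w.2)| ≤ 1 / 2 ^ s then (1 : ℝ) else 0) * (X * Real.log 2) +
          (s * Real.log 2 + Real.log 3 + Real.log (8 * E + 1)) := by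
      intro w _
      split_ifs
      · have h2 : Real.log (2 * (2 : ℝ) ^ X + 1) ≤ Real.log (3 * 2 ^ X) := by
          refine Real.log_le_log (by positivity) ?_
          have : (1 : ℝ) ≤ 2 ^ X := one_le_pow₀ (by norm_num)
          linarith
        rw [Real.log_mul (by norm_num) (by positivity), Real.log_pow] at h2
        have h3 : (0 : ℝ) ≤ s * Real.log 2 := by positivity
        linarith
      · have h2 : Real.log (2 * (4 * E * 2 ^ s) + 1) ≤ Real.log ((8 * E + 1) * 2 ^ s) := by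
          refine Real.log_le_log (by positivity) ?_
          have : (1 : ℝ) ≤ 2 ^ s := one_le_pow₀ (by norm_num)
          nlinarith
        rw [Real.log_mul (by linarith) (by positivity), Real.log_pow] at h2
        linarith
    refine (Ex_mono hq0 h1).trans (le_of_eq ?_)
    rw [Ex_add, Ex_const hq1]
    congr 1
    rw [Pe_eq]
    unfold Ex
    rw [Finset.sum_mul]
    refine Finset.sum_congr rfl fun w _ => ?_
    by_cases h : |v (Λ w.1) - v (Λ w.2)| ≤ 1 / 2 ^ s
    · simp only [if_pos h]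
      ring
    · simp only [if_neg h]
      ring
  linarith

/-- **The popular value.** -/
theorem popular (hp : IsLaw p) (z : Ω → β) (b : Ω → ℤ) : ∃ g : β → ℤ,
    Pe (glue p p z z) (fun w => |b w.1 - b w.2| ≤ 1) ≤ 3 * Pe p (fun ω => b ω = g (z ω)) := by
  classical
  have h0 := hp.nonneg
  -- the most likely value
  have hex : ∀ ζ : β, ∃ k : ℤ, ∀ k' : ℤ, law p (fun ω => (b ω, z ω)) (k', ζ) ≤
      law p (fun ω => (b ω, z ω)) (k, ζ) := by
    intro ζ
    have hne : (insert (0 : ℤ) (univ.image b)).Nonempty := ⟨0, Finset.mem_insert_self _ _⟩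
    obtain ⟨k, _, hk⟩ := Finset.exists_max_image (insert (0 : ℤ) (univ.image b))
      (fun k => law p (fun ω => (b ω, z ω)) (k, ζ)) hne
    refine ⟨k, fun k' => ?_⟩
    by_cases h : k' ∈ univ.image b
    · exact hk k' (Finset.mem_insert_of_mem h)
    · have h1 : law p (fun ω => (b ω, z ω)) (k', ζ) = 0 := by
        unfold law
        refine Finset.sum_eq_zero fun ω _ => ?_
        rw [if_neg]
        intro h'
        have h2 : b ω = k' := (Prod.ext_iff.1 h').1
        exact h (h2 ▸ Finset.mem_image_of_mem b (Finset.mem_univ ω))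
      rw [h1]
      exact law_nonneg h0 _ _
  choose g hg using hex
  refine ⟨g, ?_⟩
  have hZ : ∀ ζ, law p z ζ = law p z ζ := fun _ => rfl
  have hm2 : Marg (glue p p z z) p (fun w => w.2) := marg_snd (Z₁ := z) h0 hZ
  have e1 : Pe p (fun ω => b ω = g (z ω)) =
      Pe (glue p p z z) (fun w => b w.2 = g (z w.2)) :=
    (hm2.law (fun ω => (b ω = g (z ω))) True).symm
  rw [e1, Pe_eq, Pe_eq, Fintype.sum_prod_type, Fintype.sum_prod_type, Finset.mul_sum]
  refine Finset.sum_le_sum fun ω _ => ?_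
  -- the sum over the second copy
  have key : ∀ k : ℤ, (∑ ω', if b ω' = k then glue p p z z (ω, ω') else 0) =
      p ω / law p z (z ω) * law p (fun ω => (b ω, z ω)) (k, z ω) := by
    intro k
    unfold law glue
    rw [Finset.mul_sum]
    refine Finset.sum_congr rfl fun ω' _ => ?_
    by_cases h1 : b ω' = k
    · by_cases h2 : z ω = z ω'
      · rw [if_pos h1]
        simp only [h2, if_true]
        rw [if_pos (show (b ω', z ω') = (k, z ω') by rw [h1])]
        unfold law
        ring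
      · rw [if_pos h1]
        simp only [if_neg h2]
        rw [if_neg (fun h => h2 (Prod.ext_iff.1 h).2.symm), mul_zero]
    · rw [if_neg h1, if_neg (fun h => h1 (Prod.ext_iff.1 h).1), mul_zero]
  have hc : 0 ≤ p ω / law p z (z ω) := div_nonneg (h0 ω) (law_nonneg h0 _ _)
  have e2 : (∑ ω', if b ω' = g (z ω') then glue p p z z (ω, ω') else 0) =
      p ω / law p z (z ω) * law p (fun ω => (b ω, z ω)) (g (z ω), z ω) := by
    rw [← key (g (z ω))]
    refine Finset.sum_congr rfl fun ω' _ => ?_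
    by_cases h2 : z ω = z ω'
    · simp only [h2]
    · have h3 : glue p p z z (ω, ω') = 0 := by
        unfold glue
        exact if_neg h2
      rw [h3]
      split_ifs <;> rfl
  have e3 : (∑ ω', if |b ω - b ω'| ≤ 1 then glue p p z z (ω, ω') else 0) ≤
      (∑ ω', if b ω' = b ω then glue p p z z (ω, ω') else 0) +
      (∑ ω', if b ω' = b ω + 1 then glue p p z z (ω, ω') else 0) +
      (∑ ω', if b ω' = b ω - 1 then glue p p z z (ω, ω') else 0) := by
    rw [← Finset.sum_add_distrib, ← Finset.sum_add_distrib]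
    refine Finset.sum_le_sum fun ω' _ => ?_
    have hg0 : 0 ≤ glue p p z z (ω, ω') := glue_nonneg h0 h0 _
    by_cases h : |b ω - b ω'| ≤ 1
    · rw [if_pos h]
      rw [abs_le] at h
      have h3 : b ω' = b ω ∨ b ω' = b ω + 1 ∨ b ω' = b ω - 1 := by omega
      rcases h3 with h3 | h3 | h3
      · rw [if_pos h3]
        have : (0 : ℝ) ≤ (if b ω' = b ω + 1 then glue p p z z (ω, ω') else 0) := by
          split_ifs
          exacts [hg0, le_rfl]
        have : (0 : ℝ) ≤ (if b ω' = b ω - 1 then glue p p z z (ω, ω') else 0) := by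
          split_ifs
          exacts [hg0, le_rfl]
        linarith
      · rw [if_pos h3]
        have : (0 : ℝ) ≤ (if b ω' = b ω then glue p p z z (ω, ω') else 0) := by
          split_ifs
          exacts [hg0, le_rfl]
        have : (0 : ℝ) ≤ (if b ω' = b ω - 1 then glue p p z z (ω, ω') else 0) := by
          split_ifs
          exacts [hg0, le_rfl]
        linarith
      · rw [if_pos h3]
        have : (0 : ℝ) ≤ (if b ω' = b ω then glue p p z z (ω, ω') else 0) := by
          split_ifs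
          exacts [hg0, le_rfl]
        have : (0 : ℝ) ≤ (if b ω' = b ω + 1 then glue p p z z (ω, ω') else 0) := by
          split_ifs
          exacts [hg0, le_rfl]
        linarith
    · rw [if_neg h]
      have h4 : ∀ P : Prop, [Decidable P] → (0 : ℝ) ≤ (if P then glue p p z z (ω, ω') else 0) := by
        intro P _
        split_ifs
        exacts [hg0, le_rfl]
      have := h4 (b ω' = b ω)
      have := h4 (b ω' = b ω + 1)
      have := h4 (b ω' = b ω - 1)
      linarith
  rw [key, key, key] at e3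
  have f1 := mul_le_mul_of_nonneg_left (hg (z ω) (b ω)) hc
  have f2 := mul_le_mul_of_nonneg_left (hg (z ω) (b ω + 1)) hc
  have f3 := mul_le_mul_of_nonneg_left (hg (z ω) (b ω - 1)) hc
  have e4 : (∑ ω', if |b ω - b ω'| ≤ 1 then glue p p z z (ω, ω') else 0) ≤
      3 * ∑ ω', if b ω' = g (z ω') then glue p p z z (ω, ω') else 0 := by
    rw [e2]
    linarith
  refine le_trans (le_of_eq ?_) (e4.trans (le_of_eq ?_))
  · refine Finset.sum_congr rfl fun ω' _ => ?_
    by_cases h : |b ω - b ω'| ≤ 1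
    · rw [if_pos h, if_pos h]
    · rw [if_neg h, if_neg h]
  · congr 1
    refine Finset.sum_congr rfl fun ω' _ => ?_
    by_cases h : b ω' = g (z ω')
    · rw [if_pos h, if_pos h]
    · rw [if_neg h, if_neg h]

/-- **The static world.** If the time is full given the line and the context, the position is not
full given the time and the context, and the first `c X / 2` digits of the velocity are independent
of the position, then on an event of probability at least `c / 12` these digits of the velocity are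
known given the context. -/
theorem stw (c η E : ℝ) (hc : 0 < c) (hη : 0 < η) (hE : 0 ≤ E) :
    ∃ δ : ℝ, 0 < δ ∧ ∃ X₀ : ℕ, ∀ X ≥ X₀, ∀ (Ω γ 𝓁 : Type) [Fintype Ω] (p : Ω → ℝ)
      (C : Ω → γ) (Λ : Ω → 𝓁) (T n : Ω → ℤ) (y v : 𝓁 → ℝ), IsLaw p →
      (∀ ω, 0 < p ω → 0 ≤ T ω ∧ T ω < 2 ^ X) →
      (∀ ω, 0 < p ω → |(n ω : ℝ) - (y (Λ ω) + T ω * v (Λ ω))| ≤ E) →
      X * Real.log 2 - δ * X ≤ CH p T (fun ω => (Λ ω, C ω)) →
      dl p (fun ω => ⌊(2 : ℝ) ^ ⌊c * X / 2⌋₊ * v (Λ ω)⌋) n (fun ω => (T ω, C ω)) ≤ δ * X →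
      CH p n (fun ω => (T ω, C ω)) ≤ (1 - c) * (X * Real.log 2) →
      ∃ A : Ω → Prop, c / 12 ≤ Pe p A ∧
        CH (Pool.Agent.H49.Ent.cond p A True)
          (fun ω => ⌊(2 : ℝ) ^ ⌊c * X / 2⌋₊ * v (Λ ω)⌋) C ≤ η * X := by
  classical
  have hl2 : 0 < Real.log 2 := Real.log_pos (by norm_num)
  set K : ℝ := Real.log 3 + Real.log (8 * E + 1) + Real.log (4 * E + 1) with hK
  have hK0 : 0 ≤ K := by
    have h1 : 0 ≤ Real.log 3 := Real.log_nonneg (by norm_num)
    have h2 : 0 ≤ Real.log (8 * E + 1) := Real.log_nonneg (by linarith)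
    have h3 : 0 ≤ Real.log (4 * E + 1) := Real.log_nonneg (by linarith)
    linarith
  refine ⟨min (c * Real.log 2 / 16) (η * c / 48), lt_min (by positivity) (by positivity),
    ⌈8 * K / (c * Real.log 2)⌉₊ + ⌈48 * Real.log 2 / (η * c)⌉₊ + 1, ?_⟩
  intro X hX Ω γ 𝓁 _ p C Λ T n y v hp hT hn hfull hB hnf
  set δ := min (c * Real.log 2 / 16) (η * c / 48) with hδ
  have hδ1 : δ ≤ c * Real.log 2 / 16 := min_le_left _ _
  have hδ2 : δ ≤ η * c / 48 := min_le_right _ _
  have hX1 : (1 : ℝ) ≤ X := by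
    have : 1 ≤ X := by omega
    exact_mod_cast this
  have hXK : K ≤ c * Real.log 2 / 8 * X := by
    have h1 : 8 * K / (c * Real.log 2) ≤ X := by
      refine (Nat.le_ceil _).trans ?_
      exact_mod_cast (by omega : ⌈8 * K / (c * Real.log 2)⌉₊ ≤ X)
    rw [div_le_iff₀ (by positivity)] at h1
    linarith
  have hXη : Real.log 2 ≤ η * c / 48 * X := by
    have h1 : 48 * Real.log 2 / (η * c) ≤ X := by
      refine (Nat.le_ceil _).trans ?_
      exact_mod_cast (by omega : ⌈48 * Real.log 2 / (η * c)⌉₊ ≤ X)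
    rw [div_le_iff₀ (by positivity)] at h1
    linarith
  have h0 := hp.nonneg
  set s := ⌊c * X / 2⌋₊ with hs
  set b : Ω → ℤ := fun ω => ⌊(2 : ℝ) ^ s * v (Λ ω)⌋ with hb
  have hsX : (s : ℝ) ≤ c * X / 2 := Nat.floor_le (by positivity)
  -- the pairs of lines
  have hcor := cordoba hp C Λ T n y v X s E hE
    (fun ω hω => ⟨(hT ω hω).1, (hT ω hω).2.le⟩) hn
  set q := glue p p (fun ω => ((T ω, n ω), C ω)) (fun ω => ((T ω, n ω), C ω)) with hq
  have hq0 : ∀ w, 0 ≤ q w := fun w => glue_nonneg (Z₁ := fun ω => ((T ω, n ω), C ω))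
    (Z₂ := fun ω => ((T ω, n ω), C ω)) h0 h0 w
  have a1 : X * Real.log 2 - δ * X ≤ CH p (fun ω => (T ω, n ω)) (fun ω => (Λ ω, C ω)) :=
    hfull.trans (CH_mono_left h0 fun _ _ _ _ h => (Prod.ext_iff.1 (Prod.ext_iff.1 h).1).1)
  have a2 : CH p T C ≤ X * Real.log 2 := by
    have h1 := CH_le_card h0 hp.sum_one T C (fun _ => Finset.Ico (0 : ℤ) (2 ^ X))
      (fun ω hω => Finset.mem_Ico.2 (hT ω hω))
    rw [Ex_const hp.sum_one] at h1
    refine h1.trans (le_of_eq ?_)
    rw [Int.card_Ico, sub_zero]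
    have h2 : (((2 : ℤ) ^ X).toNat : ℝ) = 2 ^ X := by
      have h3 : ((2 : ℤ) ^ X).toNat = 2 ^ X := by
        have h4 : ((2 : ℤ) ^ X) = ((2 ^ X : ℕ) : ℤ) := by push_cast; rfl
        rw [h4, Int.toNat_natCast]
      rw [h3]
      push_cast
      rfl
    rw [h2, Real.log_pow]
  have a3 : CH p (fun ω => (T ω, n ω)) C ≤ X * Real.log 2 + (1 - c) * (X * Real.log 2) := by
    have h1 := CH_chain h0 n T C
    have h2 : CH p (fun ω => (T ω, n ω)) C = CH p (fun ω => (n ω, T ω)) C := by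
      refine CH_congr h0 ?_ ?_ (fun _ _ _ _ h => h) (fun _ _ _ _ h => h) <;>
      · intro w w' _ _ h
        simp only [Prod.mk.injEq] at h ⊢
        tauto
    linarith
  have hPG : c / 4 ≤ Pe q (fun w => |v (Λ w.1) - v (Λ w.2)| ≤ 1 / 2 ^ s) := by
    have hXl : 0 < (X : ℝ) * Real.log 2 := by positivity
    have h1 : (s : ℝ) * Real.log 2 ≤ c * X / 2 * Real.log 2 :=
      mul_le_mul_of_nonneg_right hsX hl2.le
    have h2 : δ * X ≤ c * Real.log 2 / 16 * X :=
      mul_le_mul_of_nonneg_right hδ1 (by positivity)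
    have h3 : c / 4 * (X * Real.log 2) ≤
        Pe q (fun w => |v (Λ w.1) - v (Λ w.2)| ≤ 1 / 2 ^ s) * (X * Real.log 2) := by
      have e1 : s * Real.log 2 + Real.log 3 + Real.log (8 * E + 1) + Real.log (4 * E + 1) =
          s * Real.log 2 + K := by
        rw [hK]
        ring
      rw [e1] at hcor
      linarith
    exact le_of_mul_le_mul_right h3 hXl
  -- the popular value
  obtain ⟨g, hg⟩ := popular hp (fun ω => ((T ω, n ω), C ω)) b
  set A : Ω → Prop := fun ω => b ω = g ((T ω, n ω), C ω) with hA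
  have hPA : c / 12 ≤ Pe p A := by
    have h1 : Pe q (fun w => |v (Λ w.1) - v (Λ w.2)| ≤ 1 / 2 ^ s) ≤
        Pe q (fun w => |b w.1 - b w.2| ≤ 1) := by
      rw [Pe_eq, Pe_eq]
      refine Finset.sum_le_sum fun w _ => ?_
      by_cases h : |v (Λ w.1) - v (Λ w.2)| ≤ 1 / 2 ^ s
      · have h2 : |b w.1 - b w.2| ≤ 1 := by
          have hs0 : (0 : ℝ) < 2 ^ s := by positivity
          rw [le_div_iff₀ hs0] at h
          have h3 : |(2 : ℝ) ^ s * v (Λ w.1) - 2 ^ s * v (Λ w.2)| ≤ 1 := by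
            rw [← mul_sub, abs_mul, abs_of_pos hs0, mul_comm]
            exact h
          have f1 := Int.floor_le ((2 : ℝ) ^ s * v (Λ w.1))
          have f2 := Int.lt_floor_add_one ((2 : ℝ) ^ s * v (Λ w.1))
          have f3 := Int.floor_le ((2 : ℝ) ^ s * v (Λ w.2))
          have f4 := Int.lt_floor_add_one ((2 : ℝ) ^ s * v (Λ w.2))
          rw [abs_le] at h3
          have g1 : (b w.1 : ℝ) - b w.2 < 2 := by
            simp only [hb]
            linarith [h3.2]
          have g2 : -2 < (b w.1 : ℝ) - b w.2 := by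
            simp only [hb]
            linarith [h3.1]
          have g3 : b w.1 - b w.2 < 2 := by exact_mod_cast g1
          have g4 : -2 < b w.1 - b w.2 := by exact_mod_cast g2
          rw [abs_le]
          constructor <;> omega
        rw [if_pos h, if_pos h2]
      · rw [if_neg h]
        split_ifs
        exacts [hq0 w, le_rfl]
    linarith
  have hPA0 : 0 < Pe p A := by linarith [show 0 < c / 12 by positivity]
  refine ⟨A, hPA, ?_⟩
  set r := Pool.Agent.H49.Ent.cond p A True with hr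
  have hr0 := (isLaw_ev hp hPA0).nonneg
  have hAr : ∀ ω, 0 < r ω → A ω := fun ω hω =>
    of_eq_true ((cond_pos_iff h0 A True ω).1 hω).2
  -- the position
  have b1 := dl_event hp A b n (fun ω => (T ω, C ω))
  have b2 : CH r b (fun ω => (n ω, (T ω, C ω))) = 0 := by
    refine CH_eq_zero hr0 ?_
    intro ω ω' hω hω' he
    have h1 := hAr ω hω
    have h2 := hAr ω' hω'
    simp only [Prod.mk.injEq] at he
    change b ω = g ((T ω, n ω), C ω) at h1
    change b ω' = g ((T ω', n ω'), C ω') at h2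
    rw [h1, h2, he.1, he.2.1, he.2.2]
  -- the time
  have b3 := dl_event hp A b T C
  have b4 : dl p b T C ≤ δ * X := by
    rw [dl_symm h0]
    unfold dl
    have h1 : CH p T (fun ω => (Λ ω, C ω)) ≤ CH p T (fun ω => (b ω, C ω)) := by
      refine CH_mono_cond h0 ?_
      intro ω ω' _ _ h
      have h2 := Prod.ext_iff.1 h
      refine Prod.ext ?_ h2.2
      change ⌊(2 : ℝ) ^ s * v (Λ ω)⌋ = ⌊(2 : ℝ) ^ s * v (Λ ω')⌋
      rw [show Λ ω = Λ ω' from h2.1]
    linarith
  unfold dl at b1 b3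
  have b5 : Pe p A * CH r b C ≤ 2 * (δ * X) + 2 * Real.log 2 := by
    have e1 : Pe p A * (CH r b (fun ω => (T ω, C ω)) - CH r b (fun ω => (n ω, (T ω, C ω)))) ≤
        δ * X + Real.log 2 := b1.trans (by unfold dl at hB; linarith)
    have e2 : Pe p A * (CH r b C - CH r b (fun ω => (T ω, C ω))) ≤ δ * X + Real.log 2 :=
      b3.trans (by unfold dl at b4; linarith)
    rw [b2] at e1
    nlinarith
  have hCH0 : 0 ≤ CH r b C := CH_nonneg hr0 _ _
  have b6 : c / 12 * CH r b C ≤ 2 * (δ * X) + 2 * Real.log 2 :=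
    (mul_le_mul_of_nonneg_right hPA hCH0).trans b5
  have b7 : 2 * (δ * X) + 2 * Real.log 2 ≤ c / 12 * (η * X) := by
    have h2 : δ * X ≤ η * c / 48 * X := mul_le_mul_of_nonneg_right hδ2 (by positivity)
    nlinarith
  exact le_of_mul_le_mul_left (b6.trans b7) (by positivity)

end Pool.STW
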